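import Mathlib
import Pool.Agent.DPM.Defs

/-!
# Dade's conjecture for the groups of a class: definitions
-/

namespace Pool.Agent.DPK

open Pool.Agent.Lib_helper13.Dade (pCore DadeHolds)

/-- The class `Cl` of finite groups contains the images of its members and the groups which have a
homomorphism with central kernel into one of its members. -/
structure GC (Cl : ∀ (Y : Type) [Group Y], Prop) : Prop where
  im : ∀ (Y Y' : Type) [Group Y] [Group Y'] [Finite Y] (f : Y →* Y'),
    Function.Surjective f → Cl Y → Cl Y'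
  up : ∀ (Y Y' : Type) [Group Y] [Group Y'] [Finite Y] (f : Y →* Y'),
    f.ker ≤ Subgroup.center Y → Cl Y' → Cl Y

/-- Dade's conjecture holds for the finite groups of the class `Cl` whose centre contains `O_ℓ` and
has index at most `n`. -/
def HR (Cl : ∀ (Y : Type) [Group Y], Prop) (ℓ n : ℕ) : Prop :=
  ∀ (Y : Type) [Group Y] [Finite Y], Cl Y → pCore ℓ Y ≤ Subgroup.center Y →
    (Subgroup.center Y).index ≤ n → DadeHolds ℓ Y

theorem HR.mono {Cl : ∀ (Y : Type) [Group Y], Prop} {ℓ m n : ℕ} (h : HR Cl ℓ n) (hmn : m ≤ n) :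
    HR Cl ℓ m :=
  fun Y _ _ hc hY hi => h Y hc hY (hi.trans hmn)

/-- Subgroups. -/
theorem GC.sub {Cl : ∀ (Y : Type) [Group Y], Prop} (h : GC Cl) {Y : Type} [Group Y] [Finite Y]
    (hY : Cl Y) (S : Subgroup Y) : Cl S :=
  h.up S Y S.subtype (by rw [Subgroup.ker_subtype]; exact bot_le) hY

/-- Isomorphic groups. -/
theorem GC.iso {Cl : ∀ (Y : Type) [Group Y], Prop} (h : GC Cl) {Y Y' : Type} [Group Y]
    [Group Y'] [Finite Y] (e : Y ≃* Y') (hY : Cl Y) : Cl Y' :=
  h.im Y Y' e.toMonoidHom e.surjective hY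

/-- Quotients. -/
theorem GC.quot {Cl : ∀ (Y : Type) [Group Y], Prop} (h : GC Cl) {Y : Type} [Group Y] [Finite Y]
    (hY : Cl Y) (N : Subgroup Y) [N.Normal] : Cl (Y ⧸ N) :=
  h.im Y (Y ⧸ N) (QuotientGroup.mk' N) (QuotientGroup.mk'_surjective N) hY

/-- All groups. -/
theorem GC.all : GC (fun (Y : Type) [Group Y] => True) where
  im := fun _ _ _ _ _ _ _ _ => trivial
  up := fun _ _ _ _ _ _ _ _ => trivial

end Pool.Agent.DPK
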