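import Mathlib
import Pool.Agent.DPK.Defs
import Pool.Agent.DPT.StmtsC
import Pool.Agent.DPF.Stmts

/-!
# Dade's conjecture for the groups of a class: the statements of DPN, DPT and DPF which use
Dade's conjecture for smaller groups, for a class of groups
-/

namespace Pool.Agent.DPK

open Pool.Agent.DP Pool.Agent.DPC Pool.Agent.DPM Pool.Agent.DPN Pool.Agent.DPT Pool.Agent.DPF
open Pool.Agent.Lib_helper13
open Representation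
open Pool.Agent.Lib_helper13.Dade (pCore DadeHolds dadeSum)

/-- DKV: the chain sums vanish for the groups for which Dade's conjecture is known. -/
def Stmt_DKVr (Cl : ∀ (Y : Type) [Group Y], Prop) : Prop :=
  ∀ (Y X : Type) [Group Y] [Fintype Y] [Group X] [Fintype X]
    (𝔐 : Ideal (integralClosure ℤ ℂ)) (ℓ : ℕ) [Fact ℓ.Prime], 𝔐.IsMaximal →
    (ℓ : integralClosure ℤ ℂ) ∈ 𝔐 → ∀ n : ℕ, Cl Y → HR Cl ℓ n → (Subgroup.center Y).index ≤ n →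
    ∀ Z : Subgroup Y, Z ≤ Subgroup.center Y → IsPGroup ℓ Z → ∀ d : ℕ,
    padicValNat ℓ (Nat.card Z) < d →
    ∀ (i : Y →* X) (P : Set (X → (integralClosure ℤ ℂ) ⧸ 𝔐)), DK 𝔐 ℓ d Z i P = 0

/-- TDC: the twisted chain sums. -/
def Stmt_TDCr (Cl : ∀ (Y : Type) [Group Y], Prop) : Prop :=
  ∀ (L K X : Type) [Group L] [Fintype L] [Group K] [Fintype K] [Group X] [Fintype X]
    (𝔐 : Ideal (integralClosure ℤ ℂ)) (ℓ : ℕ) [Fact ℓ.Prime], 𝔐.IsMaximal →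
    (ℓ : integralClosure ℤ ℂ) ∈ 𝔐 → ∀ π : L →* K, Function.Surjective π → pCore ℓ K = ⊥ →
    Cl K → HR Cl ℓ (Nat.card K) → ∀ (U : Subgroup L) (μ : U →* ℂˣ), U ≤ Subgroup.center L →
    (∀ l, π l = 1 ↔ l ∈ U) → IsCyclic U → Function.Injective μ → ∀ d : ℕ,
    padicValNat ℓ (Nat.card U) < d →
    ∀ (i : L →* X) (Q : Set (X → (integralClosure ℤ ℂ) ⧸ 𝔐)),
    ∑ σ ∈ Ch ℓ (⊥ : Subgroup K), (-1 : ℚ) ^ σ.card * ((Nat.card (stb σ) : ℚ) *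
      Nat.card {η : ↥((stb σ).comap π) → ℂ // IsIrr η ∧ OvL U μ _ η ∧ HasDefect ℓ η d ∧
        cen 𝔐 (i.comp ((stb σ).comap π).subtype) η ∈ Q}) = 0

open Classical in
/-- TDM: the twisted Moebius sums. -/
def Stmt_TDMr (Cl : ∀ (Y : Type) [Group Y], Prop) : Prop :=
  ∀ (L K : Type) [Group L] [Fintype L] [Group K] [Fintype K]
    (𝔐 : Ideal (integralClosure ℤ ℂ)) (ℓ : ℕ) [Fact ℓ.Prime], 𝔐.IsMaximal →
    (ℓ : integralClosure ℤ ℂ) ∈ 𝔐 → ∀ π : L →* K, Function.Surjective π → pCore ℓ K = ⊥ →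
    Cl K → HR Cl ℓ (Nat.card K) → ∀ (U : Subgroup L) (μ : U →* ℂˣ), U ≤ Subgroup.center L →
    (∀ l, π l = 1 ↔ l ∈ U) → IsCyclic U → Function.Injective μ → ∀ d : ℕ,
    padicValNat ℓ (Nat.card U) < d → ∀ m : Subgroup K → ℚ, Mob m →
    ∀ Q : Set (L → (integralClosure ℤ ℂ) ⧸ 𝔐),
    ∑ V, m V * ((Nat.card V : ℚ) * Nat.card {η : ↥(V.comap π) → ℂ // IsIrr η ∧
      OvL U μ _ η ∧ HasDefect ℓ η d ∧ cen 𝔐 (V.comap π).subtype η ∈ Q}) = 0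

open Classical in
/-- CONS: only the characters with the same defect as `θ` contribute. -/
def Stmt_CONSr (Cl : ∀ (Y : Type) [Group Y], Prop) : Prop :=
  ∀ (A T H X : Type) [Group A] [Fintype A] [Group T] [Fintype T] [Group H] [Fintype H]
    [Group X] [Fintype X] (𝔐 : Ideal (integralClosure ℤ ℂ)) (ℓ : ℕ) [Fact ℓ.Prime],
    𝔐.IsMaximal → (ℓ : integralClosure ℤ ℂ) ∈ 𝔐 → ∀ (j : A →* T) (c : T →* MulAut A)
    (p : T →* H), ClG j c p → Function.Surjective p → pCore ℓ H = ⊥ → Cl H → HR Cl ℓ (Nat.card H) →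
    ∀ θ : A → ℂ, IsIrr θ → (∀ t a, θ (c t a) = θ a) → ∀ a d : ℕ, HasDefect ℓ θ a → d ≠ a →
    ∀ (i : T →* X) (ω : X → (integralClosure ℤ ℂ) ⧸ 𝔐) (m : Subgroup H → ℚ), Mob m →
    ∑ V, m V * ((Nat.card V : ℚ) * NT 𝔐 ℓ d j p θ i {ω} V) = 0

/-- RDX: existence of reduced data. -/
def Stmt_RDXr (Cl : ∀ (Y : Type) [Group Y], Prop) : Prop :=
  ∀ (A T H : Type) [Group A] [Fintype A] [Group T] [Fintype T] [Group H] [Fintype H]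
    (𝔐 : Ideal (integralClosure ℤ ℂ)) (ℓ : ℕ) [Fact ℓ.Prime], 𝔐.IsMaximal →
    (ℓ : integralClosure ℤ ℂ) ∈ 𝔐 → ∀ (j : A →* T) (c : T →* MulAut A) (p : T →* H),
    ClG j c p → Function.Surjective p → pCore ℓ H = ⊥ → Cl H → HR Cl ℓ (Nat.card H) →
    ∀ θ : A → ℂ, IsIrr θ → (∀ t a, θ (c t a) = θ a) → ∀ a : ℕ, HasDefect ℓ θ a →
    ∃ (L : Type) (_ : Group L) (_ : Fintype L) (π : L →* H) (μ : π.ker →* ℂˣ)
      (Lm : (T → ℤ) → L → (integralClosure ℤ ℂ) ⧸ 𝔐), Function.Surjective π ∧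
      π.ker ≤ Subgroup.center L ∧ ¬ ℓ ∣ Nat.card π.ker ∧ RDS 𝔐 ℓ a j p θ π μ Lm

/-- FAM: existence of families. -/
def Stmt_FAMr (Cl : ∀ (Y : Type) [Group Y], Prop) : Prop :=
  ∀ (O X H : Type) [Group O] [Fintype O] [Group X] [Fintype X] [Group H] [Fintype H]
    (𝔐 : Ideal (integralClosure ℤ ℂ)) (ℓ : ℕ) [Fact ℓ.Prime], 𝔐.IsMaximal →
    (ℓ : integralClosure ℤ ℂ) ∈ 𝔐 → ∀ (j : O →* X) (c : X →* MulAut O) (p : X →* H)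
    (h : ClG j c p), pCore ℓ H = ⊥ → Cl H → HR Cl ℓ (Nat.card H) → ∀ (a : ℕ) (Z : Subgroup O)
    (Λ : O → (integralClosure ℤ ℂ) ⧸ 𝔐),
    ∃ (W : Type) (_ : Group W) (_ : Fintype W) (π : W →* H) (R : Subgroup W)
      (μ : ∀ τ : Finset (Subgroup O), (stb τ → ℂ) → (π.ker →* ℂˣ))
      (Lm : ∀ τ : Finset (Subgroup O), (stb τ → ℂ) → (YS j τ → ℤ) → W →
        (integralClosure ℤ ℂ) ⧸ 𝔐), Fam h 𝔐 ℓ a Z Λ π R μ Lm

/-- YFR: the chain sums of the fibre product vanish. -/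
def Stmt_YFRr (Cl : ∀ (Y : Type) [Group Y], Prop) : Prop :=
  ∀ (O X H V : Type) [Group O] [Fintype O] [Group X] [Fintype X] [Group H] [Fintype H]
    [Group V] [Fintype V] (𝔐 : Ideal (integralClosure ℤ ℂ)) (ℓ : ℕ) [Fact ℓ.Prime],
    𝔐.IsMaximal → (ℓ : integralClosure ℤ ℂ) ∈ 𝔐 → ∀ (j : O →* X) (c : X →* MulAut O)
    (p : X →* H) (h : ClG j c p), Function.Surjective p → ∀ n : ℕ, Cl X → HR Cl ℓ n →
    Subgroup.center X ≤ j.range → (Subgroup.center X).index ≤ n + 1 →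
    ∀ Z : Subgroup O, IsPGroup ℓ Z → Z.map j ≤ Subgroup.center X →
    ∀ g : V →* H, g.ker ≤ Subgroup.center V → ¬ Function.Surjective g → ∀ d : ℕ,
    padicValNat ℓ (Nat.card Z) < d →
    ∀ (P : Set (fpr p g → (integralClosure ℤ ℂ) ⧸ 𝔐)) (V' : Subgroup V),
      DK 𝔐 ℓ d ((Z.map (finj h g)).subgroupOf (V'.comap (fsnd p g)))
        (V'.comap (fsnd p g)).subtype P = 0

open Classical in
/-- YFF: the relations for the linear characters of the pairs. -/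
def Stmt_YFFr (Cl : ∀ (Y : Type) [Group Y], Prop) : Prop :=
  ∀ (O X H W : Type) [Group O] [Fintype O] [Group X] [Fintype X] [Group H] [Fintype H]
    [Group W] [Fintype W] (𝔐 : Ideal (integralClosure ℤ ℂ)) (ℓ : ℕ) [Fact ℓ.Prime],
    𝔐.IsMaximal → (ℓ : integralClosure ℤ ℂ) ∈ 𝔐 → ∀ (j : O →* X) (c : X →* MulAut O)
    (p : X →* H) (h : ClG j c p), Function.Surjective p → ∀ n : ℕ, Cl X → HR Cl ℓ n →
    Subgroup.center X ≤ j.range → (Subgroup.center X).index ≤ n + 1 → ∀ (a : ℕ)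
    (Z : Subgroup O), IsPGroup ℓ Z → Z.map j ≤ Subgroup.center X →
    padicValNat ℓ (Nat.card Z) < a →
    ∀ (Λ : O → (integralClosure ℤ ℂ) ⧸ 𝔐) (π : W →* H) (R : Subgroup W)
    (μ : ∀ τ : Finset (Subgroup O), (stb τ → ℂ) → (π.ker →* ℂˣ))
    (Lm : ∀ τ : Finset (Subgroup O), (stb τ → ℂ) → (YS j τ → ℤ) → W →
      (integralClosure ℤ ℂ) ⧸ 𝔐), Fam h 𝔐 ℓ a Z Λ π R μ Lm →
    ∀ (τ₀ : Finset (Subgroup O)) (θ₀ : stb τ₀ → ℂ), Pr h 𝔐 ℓ a Z Λ τ₀ θ₀ →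
    ∀ ν : ∀ τ : Finset (Subgroup O), (stb τ → ℂ) → (R →* ℂˣ),
      NuF h 𝔐 ℓ a Z Λ π R μ Lm τ₀ θ₀ ν → ∀ hR : ∀ x y : W, x * y * x⁻¹ * y⁻¹ ∈ R,
    ∀ V : Subgroup W, V ⊔ R = ⊤ → ¬ ℓ ∣ Nat.card V →
    (∀ m : Subgroup V → ℚ, Mob m → ∀ V' : Subgroup V, m V' ≠ 0 → R.subgroupOf V ≤ V') →
    ¬ Function.Surjective (π.comp V.subtype) →
    ∀ χ : R.subgroupOf V →* ℂˣ, (∀ (v : V) (r r' : R.subgroupOf V),
      (r' : V) = v * r * v⁻¹ → χ r' = χ r) →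
    ∑ τ ∈ Ch ℓ Z, (-1 : ℂ) ^ τ.card * ∑ θ ∈ irrF (stb τ) with Pr h 𝔐 ℓ a Z Λ τ θ,
      (Nat.card (stb τ) : ℂ) * ∑ x : V, ∑ y : V, (if Subgroup.closure {x, y} = ⊤ then
        ((χ ⟨x * y * x⁻¹ * y⁻¹, Subgroup.mem_subgroupOf.mpr (hR x y)⟩ : ℂˣ) : ℂ)⁻¹ *
          ((ν τ θ ⟨(x : W) * y * (x : W)⁻¹ * (y : W)⁻¹, hR x y⟩ : ℂˣ) : ℂ)⁻¹ else 0) = 0

open Classical in
/-- FNA: the pairs which contribute. -/
def Stmt_FNAr (Cl : ∀ (Y : Type) [Group Y], Prop) : Prop :=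
  ∀ (O X H : Type) [Group O] [Fintype O] [Group X] [Fintype X] [Group H] [Fintype H]
    (𝔐 : Ideal (integralClosure ℤ ℂ)) (ℓ : ℕ) [Fact ℓ.Prime], 𝔐.IsMaximal →
    (ℓ : integralClosure ℤ ℂ) ∈ 𝔐 → ∀ (j : O →* X) (c : X →* MulAut O) (p : X →* H)
    (h : ClG j c p), pCore ℓ H = ⊥ → Cl H → HR Cl ℓ (Nat.card H) → ∀ (Z : Subgroup O) (d : ℕ)
    (ω : X → (integralClosure ℤ ℂ) ⧸ 𝔐) (m : Subgroup H → ℚ), Mob m → ∀ τ₀ ∈ Ch ℓ Z,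
    ∀ θ₀ : stb τ₀ → ℂ, IsIrr θ₀ → FP h τ₀ θ₀ →
    ∑ V, m V * ((Nat.card V : ℚ) *
      NT 𝔐 ℓ d (jS h τ₀) (pS p j τ₀) θ₀ (YS j τ₀).subtype {ω} V) ≠ 0 →
    ∀ τ ∈ Ch ℓ Z, ∀ θ : stb τ → ℂ, IsIrr θ → FP h τ θ →
    ∑ V, m V * ((Nat.card V : ℚ) *
      NT 𝔐 ℓ d (jS h τ) (pS p j τ) θ (YS j τ).subtype {ω} V) ≠ 0 →
    Pr h 𝔐 ℓ d Z (cen 𝔐 (stb τ₀).subtype θ₀) τ θ

/-- FINN: the quotients without normal `ℓ`-subgroups. -/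
def Stmt_FINNr (Cl : ∀ (Y : Type) [Group Y], Prop) : Prop :=
  ∀ (O X H : Type) [Group O] [Fintype O] [Group X] [Fintype X] [Group H] [Fintype H]
    (𝔐 : Ideal (integralClosure ℤ ℂ)) (ℓ : ℕ) [Fact ℓ.Prime], 𝔐.IsMaximal →
    (ℓ : integralClosure ℤ ℂ) ∈ 𝔐 → ∀ (j : O →* X) (c : X →* MulAut O) (p : X →* H)
    (_ : ClG j c p), Function.Surjective p → pCore ℓ H = ⊥ → ∀ n : ℕ, Cl X → HR Cl ℓ n →
    Subgroup.center X ≤ j.range → (Subgroup.center X).index ≤ n + 1 → Nat.card H ≤ n →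
    ∀ Z : Subgroup O, IsPGroup ℓ Z → Z.map j ≤ Subgroup.center X → ∀ (d : ℕ)
    (ω : X → (integralClosure ℤ ℂ) ⧸ 𝔐), padicValNat ℓ (Nat.card Z) < d →
    DK 𝔐 ℓ d (Z.map j) (MonoidHom.id X) {ω} ≠ 0 →
    Group.IsNilpotent H ∧ ¬ ℓ ∣ Nat.card H ∧ ∃ x y : H, Subgroup.closure {x, y} = ⊤

/-- STRN: the proper quotients of a minimal counterexample. -/
def Stmt_STRNr (Cl : ∀ (Y : Type) [Group Y], Prop) : Prop :=
  ∀ (X : Type) [Group X] [Fintype X] (ℓ : ℕ) [Fact ℓ.Prime],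
    pCore ℓ X ≤ Subgroup.center X → Cl X → HR Cl ℓ ((Subgroup.center X).index - 1) →
    ¬ DadeHolds ℓ X → ∀ N : Subgroup X, N.Normal → Subgroup.center X < N →
    ∃ P : Subgroup X, ∃ _ : P.Normal, N ≤ P ∧ (∀ x ∈ P, ∃ k : ℕ, x ^ ℓ ^ k ∈ N) ∧
      ¬ ℓ ∣ P.index ∧ Group.IsNilpotent (X ⧸ P) ∧
      ∃ x y : X, Subgroup.closure {x, y} ⊔ P = ⊤

/-- UMN: the intersection of normal subgroups. -/
def Stmt_UMNr (Cl : ∀ (Y : Type) [Group Y], Prop) : Prop :=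
  ∀ (X : Type) [Group X] [Fintype X] (ℓ : ℕ) [Fact ℓ.Prime],
    pCore ℓ X ≤ Subgroup.center X → Cl X → HR Cl ℓ ((Subgroup.center X).index - 1) →
    ¬ DadeHolds ℓ X → ∀ N N' : Subgroup X, N.Normal → N'.Normal →
    Subgroup.center X < N → Subgroup.center X < N' → Subgroup.center X < N ⊓ N'

/-- STB: the blocks of the normal subgroups of a minimal counterexample are stable. -/
def Stmt_STBr (Cl : ∀ (Y : Type) [Group Y], Prop) : Prop :=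
  ∀ (X : Type) [Group X] [Fintype X] (𝔐 : Ideal (integralClosure ℤ ℂ)) (ℓ : ℕ)
    [Fact ℓ.Prime], 𝔐.IsMaximal → (ℓ : integralClosure ℤ ℂ) ∈ 𝔐 → ∀ n : ℕ, Cl X → HR Cl ℓ n →
    (Subgroup.center X).index ≤ n + 1 → ∀ Z N : Subgroup X, Z ≤ Subgroup.center X →
    IsPGroup ℓ Z → N.Normal → ∀ d : ℕ, padicValNat ℓ (Nat.card Z) < d →
    ∀ ω : X → (integralClosure ℤ ℂ) ⧸ 𝔐, KK 𝔐 ℓ d Z ω ≠ 0 → ∀ ξ : X → ℂ, IrrOn N ξ →
    (∀ x ∈ N, cgT 𝔐 ⊤ ξ x = ω x) → sx (cgT 𝔐 N ξ) = ⊤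

/-- OUTF: a family for a nonvanishing chain sum. -/
def Stmt_OUTFr (Cl : ∀ (Y : Type) [Group Y], Prop) : Prop :=
  ∀ (O X H : Type) [Group O] [Fintype O] [Group X] [Fintype X] [Group H] [Fintype H]
    (𝔐 : Ideal (integralClosure ℤ ℂ)) (ℓ : ℕ) [Fact ℓ.Prime], 𝔐.IsMaximal →
    (ℓ : integralClosure ℤ ℂ) ∈ 𝔐 → ∀ (j : O →* X) (c : X →* MulAut O) (p : X →* H)
    (h : ClG j c p), Function.Surjective p → pCore ℓ H = ⊥ → ∀ n : ℕ, Cl X → HR Cl ℓ n →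
    Subgroup.center X ≤ j.range → (Subgroup.center X).index ≤ n + 1 → Nat.card H ≤ n →
    ∀ Z : Subgroup O, IsPGroup ℓ Z → Z.map j ≤ Subgroup.center X → ∀ (d : ℕ)
    (ω : X → (integralClosure ℤ ℂ) ⧸ 𝔐), padicValNat ℓ (Nat.card Z) < d →
    DK 𝔐 ℓ d (Z.map j) (MonoidHom.id X) {ω} ≠ 0 →
    ∃ (W : Type) (_ : Group W) (_ : Fintype W) (π : W →* H) (R : Subgroup W)
      (μ : ∀ τ : Finset (Subgroup O), (stb τ → ℂ) → (π.ker →* ℂˣ))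
      (Lm : ∀ τ : Finset (Subgroup O), (stb τ → ℂ) → (YS j τ → ℤ) → W →
        (integralClosure ℤ ℂ) ⧸ 𝔐) (τ : Finset (Subgroup O)) (θ : stb τ → ℂ),
      Fam h 𝔐 ℓ d Z (cen 𝔐 (stb τ).subtype θ) π R μ Lm ∧
      Pr h 𝔐 ℓ d Z (cen 𝔐 (stb τ).subtype θ) τ θ ∧
      (∀ o, ω (j o) = cen 𝔐 (j.comp (stb τ).subtype) θ (j o)) ∧
      (∀ x y : W, x * y * x⁻¹ * y⁻¹ ∈ R) ∧ ¬ ℓ ∣ R.index

/-- OUT1: for a nonvanishing chain sum of a minimal counterexample and a normal subgroup `N`, there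
is a normal subgroup `M` with quotient in the class such that `M / N` has order prime to `ℓ`. -/
def Stmt_OUT1r (Cl : ∀ (Y : Type) [Group Y], Prop) : Prop :=
  ∀ (X : Type) [Group X] [Fintype X] (𝔐 : Ideal (integralClosure ℤ ℂ)) (ℓ : ℕ)
    [Fact ℓ.Prime], 𝔐.IsMaximal → (ℓ : integralClosure ℤ ℂ) ∈ 𝔐 →
    pCore ℓ X ≤ Subgroup.center X → Cl X → HR Cl ℓ ((Subgroup.center X).index - 1) →
    ∀ (d : ℕ) (ω : X → (integralClosure ℤ ℂ) ⧸ 𝔐),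
    padicValNat ℓ (Nat.card (pCore ℓ X)) < d → KK 𝔐 ℓ d (pCore ℓ X) ω ≠ 0 →
    ∀ N : Subgroup X, N.Normal → Subgroup.center X < N →
    ∃ M : Subgroup X, M.Normal ∧ N ≤ M ∧ (∀ x ∈ M, x ^ ℓ ∈ N → x ∈ N) ∧
      ∃ (H : Type) (_ : Group H) (_ : Finite H) (f : X →* H), Function.Surjective f ∧
        (∀ x, f x = 1 ↔ x ∈ M) ∧ HH ℓ H

/-- B0F: the minimal normal subgroup of a minimal counterexample. -/
def Stmt_B0Fr (Cl : ∀ (Y : Type) [Group Y], Prop) : Prop :=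
  ∀ (X : Type) [Group X] [Fintype X] (ℓ : ℕ) [Fact ℓ.Prime],
    pCore ℓ X ≤ Subgroup.center X → Cl X → HR Cl ℓ ((Subgroup.center X).index - 1) →
    ¬ DadeHolds ℓ X →
    (∀ N : Subgroup X, N.Normal → Subgroup.center X < N →
      (∃ x ∈ N, x ^ ℓ ∈ Subgroup.center X ∧ x ∉ Subgroup.center X) ∧
      ∃ x ∈ N, ∃ y ∈ N, x * y * x⁻¹ * y⁻¹ ∉ Subgroup.center X) ∧
    ∃ N : Subgroup X, N.Normal ∧ Subgroup.center X < N ∧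
      ∀ N' : Subgroup X, N'.Normal → Subgroup.center X < N' → N ≤ N'

/-- DDS: the sum over all chains of `K`. -/
def Stmt_DDSr (Cl : ∀ (Y : Type) [Group Y], Prop) : Prop :=
  ∀ (L K : Type) [Group L] [Fintype L] [Group K] [Fintype K]
    (𝔐 : Ideal (integralClosure ℤ ℂ)) (ℓ : ℕ) [Fact ℓ.Prime], 𝔐.IsMaximal →
    (ℓ : integralClosure ℤ ℂ) ∈ 𝔐 → ∀ π : L →* K, Function.Surjective π →
    π.ker ≤ Subgroup.center L → IsCyclic π.ker → ∀ μ : π.ker →* ℂˣ, Function.Injective μ →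
    Cl K → HR Cl ℓ (Nat.card K) → ∀ M : Subgroup K, M.Normal →
    ∀ (ω : L → (integralClosure ℤ ℂ) ⧸ 𝔐) (d : ℕ),
    CS ℓ ⊤ (WF 𝔐 ℓ d π μ M ω) ≠ 0 → GdF 𝔐 ℓ π μ M ω

/-- PSN: the sums over the chains of the normal subgroups. -/
def Stmt_PSNr (Cl : ∀ (Y : Type) [Group Y], Prop) : Prop :=
  ∀ (ℓ : ℕ) [Fact ℓ.Prime] (K : Type) [Group K] [Fintype K], Cl K → HR Cl ℓ (Nat.card K) → PF ℓ K

/-- OUT2: for a nonvanishing chain sum of a minimal counterexample and a normal subgroup `N`, there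
is a normal subgroup `M` with quotient in the class such that `M / N` has order prime to `ℓ` and
is contained in the support of the block of `N`. -/
def Stmt_OUT2r (Cl : ∀ (Y : Type) [Group Y], Prop) : Prop :=
  ∀ (X : Type) [Group X] [Fintype X] (𝔐 : Ideal (integralClosure ℤ ℂ)) (ℓ : ℕ)
    [Fact ℓ.Prime], 𝔐.IsMaximal → (ℓ : integralClosure ℤ ℂ) ∈ 𝔐 →
    pCore ℓ X ≤ Subgroup.center X → Cl X → HR Cl ℓ ((Subgroup.center X).index - 1) →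
    ∀ (d : ℕ) (ω : X → (integralClosure ℤ ℂ) ⧸ 𝔐),
    padicValNat ℓ (Nat.card (pCore ℓ X)) < d → KK 𝔐 ℓ d (pCore ℓ X) ω ≠ 0 →
    ∀ N : Subgroup X, N.Normal → Subgroup.center X < N →
    ∃ M : Subgroup X, M.Normal ∧ N ≤ M ∧ (∀ x ∈ M, x ^ ℓ ∈ N → x ∈ N) ∧
      (∃ (H : Type) (_ : Group H) (_ : Finite H) (f : X →* H), Function.Surjective f ∧
        (∀ x, f x = 1 ↔ x ∈ M) ∧ HH ℓ H) ∧
      ∀ ξ : X → ℂ, IrrOn N ξ → (∀ x ∈ N, cgT 𝔐 ⊤ ξ x = ω x) →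
        sx (cgT 𝔐 N ξ) = ⊤ ∧
        ∀ x ∈ M, ∃ u v : X → ℤ, (∀ a ∈ N, ∀ z, u (a * z * a⁻¹) = u z) ∧
          (∀ a ∈ N, ∀ z, v (a * z * a⁻¹) = v z) ∧ (∀ z, u z ≠ 0 → x⁻¹ * z ∈ N) ∧
          (∀ z, v z ≠ 0 → x * z ∈ N) ∧
          red 𝔐 (wS N ξ (fun z => ((conv u v z : ℤ) : ℂ))) ≠ 0

/-- PS1: the sum over the chains of a normal subgroup vanishes if there are no characters of
minimal defect (faithful linear character of a cyclic kernel). -/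
def Stmt_PS1r (Cl : ∀ (Y : Type) [Group Y], Prop) : Prop :=
  ∀ (L K H : Type) [Group L] [Fintype L] [Group K] [Fintype K] [Group H] [Fintype H]
    (𝔐 : Ideal (integralClosure ℤ ℂ)) (ℓ : ℕ) [Fact ℓ.Prime], 𝔐.IsMaximal →
    (ℓ : integralClosure ℤ ℂ) ∈ 𝔐 → ∀ π : L →* K, Function.Surjective π →
    π.ker ≤ Subgroup.center L → IsCyclic π.ker → ∀ μ : π.ker →* ℂˣ, Function.Injective μ →
    Cl K → HR Cl ℓ (Nat.card K) → ∀ (M : Subgroup K) [M.Normal] (p : K →* H), Function.Surjective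
    p →
    (∀ k, p k = 1 ↔ k ∈ M) → ∀ P : Subgroup H, SylAb ℓ P →
    ∀ ω : L → (integralClosure ℤ ℂ) ⧸ 𝔐, Pos 𝔐 ℓ π μ M ω → ∀ d : ℕ,
    PHU 𝔐 ℓ d π μ M ⊤ ω = 0

/-- PS2: the same for arbitrary linear characters of the kernel. -/
def Stmt_PS2r (Cl : ∀ (Y : Type) [Group Y], Prop) : Prop :=
  ∀ (L K H : Type) [Group L] [Fintype L] [Group K] [Fintype K] [Group H] [Fintype H]
    (𝔐 : Ideal (integralClosure ℤ ℂ)) (ℓ : ℕ) [Fact ℓ.Prime], 𝔐.IsMaximal →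
    (ℓ : integralClosure ℤ ℂ) ∈ 𝔐 → ∀ π : L →* K, Function.Surjective π →
    π.ker ≤ Subgroup.center L → ∀ μ : π.ker →* ℂˣ,
    Cl K → HR Cl ℓ (Nat.card K) → ∀ (M : Subgroup K) [M.Normal] (p : K →* H), Function.Surjective
    p →
    (∀ k, p k = 1 ↔ k ∈ M) → ∀ P : Subgroup H, SylAb ℓ P →
    ∀ ω : L → (integralClosure ℤ ℂ) ⧸ 𝔐, Pos 𝔐 ℓ π μ M ω → ∀ d : ℕ,
    PHU 𝔐 ℓ d π μ M ⊤ ω = 0

/-- PS3: the same for the subgroups which contain `M`. -/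
def Stmt_PS3r (Cl : ∀ (Y : Type) [Group Y], Prop) : Prop :=
  ∀ (L K H : Type) [Group L] [Fintype L] [Group K] [Fintype K] [Group H] [Fintype H]
    (𝔐 : Ideal (integralClosure ℤ ℂ)) (ℓ : ℕ) [Fact ℓ.Prime], 𝔐.IsMaximal →
    (ℓ : integralClosure ℤ ℂ) ∈ 𝔐 → ∀ π : L →* K, Function.Surjective π →
    π.ker ≤ Subgroup.center L → ∀ μ : π.ker →* ℂˣ,
    ∀ (M : Subgroup K) [M.Normal] (p : K →* H), Function.Surjective p →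
    (∀ k, p k = 1 ↔ k ∈ M) → ∀ P : Subgroup H, SylAb ℓ P →
    ∀ ω : L → (integralClosure ℤ ℂ) ⧸ 𝔐, Pos 𝔐 ℓ π μ M ω → ∀ V : Subgroup H,
    Cl K → HR Cl ℓ (Nat.card ↥(V.comap p)) → ∀ d : ℕ, PHU 𝔐 ℓ d π μ M (V.comap p) ω = 0

open Classical in
/-- T2R: the twisted relations. -/
def Stmt_T2Rr (Cl : ∀ (Y : Type) [Group Y], Prop) : Prop :=
  ∀ (L K H W : Type) [Group L] [Fintype L] [Group K] [Fintype K] [Group H] [Fintype H]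
    [Group W] [Fintype W] (𝔐 : Ideal (integralClosure ℤ ℂ)) (ℓ : ℕ) [Fact ℓ.Prime],
    𝔐.IsMaximal → (ℓ : integralClosure ℤ ℂ) ∈ 𝔐 → ∀ π : L →* K,
    Function.Surjective π → π.ker ≤ Subgroup.center L → ∀ (μ : π.ker →* ℂˣ)
    (M : Subgroup K) [M.Normal] (p : K →* H), Function.Surjective p →
    (∀ k, p k = 1 ↔ k ∈ M) → ∀ P : Subgroup H, SylAb ℓ P → Cl K → HR Cl ℓ (Nat.card K) →
    ∀ ω : L → (integralClosure ℤ ℂ) ⧸ 𝔐, Pos 𝔐 ℓ π μ M ω → ∀ πW : W →* H,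
    Function.Surjective πW → πW.ker ≤ Subgroup.center W →
    ∀ ν : ∀ τ : Finset (Subgroup M), (↥(SL π M τ M) → ℂ) → (πW.ker →* ℂˣ),
    (∀ τ θ, PrU 𝔐 π μ p M ω τ θ → EDt π p M πW τ θ (ν τ θ)) →
    ∀ m : Subgroup H → ℚ, Mob m → ∀ (ν' : πW.ker →* ℂˣ) (n : ℕ),
    ∑ τ ∈ Ch ℓ (⊥ : Subgroup M), (-1 : ℚ) ^ τ.card *
      ∑ θ ∈ irrF (SL π M τ M) with PrU 𝔐 π μ p M ω τ θ,
        (Nat.card ↥(M ⊓ stb (mapCh M.subtype τ)) : ℚ) *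
          ∑ V, m V * ((Nat.card V : ℚ) * Nat.card {η : ↥(V.comap πW) → ℂ // IsIrr η ∧
            OvL πW.ker (ν τ θ * ν') _ η ∧
            ∃ e a, HasDefect ℓ η e ∧ HasDefect ℓ θ a ∧ e + a = n}) = 0

/-- T2A: the relations between the linear characters, from Dade's conjecture. -/
def Stmt_T2Ar (Cl : ∀ (Y : Type) [Group Y], Prop) : Prop :=
  ∀ (L K H W : Type) [Group L] [Fintype L] [Group K] [Fintype K] [Group H] [Fintype H]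
    [Group W] [Fintype W] (𝔐 : Ideal (integralClosure ℤ ℂ)) (ℓ : ℕ) [Fact ℓ.Prime],
    𝔐.IsMaximal → (ℓ : integralClosure ℤ ℂ) ∈ 𝔐 → ∀ π : L →* K,
    Function.Surjective π → π.ker ≤ Subgroup.center L → ∀ (μ : π.ker →* ℂˣ)
    (M : Subgroup K) [M.Normal] (p : K →* H), Function.Surjective p →
    (∀ k, p k = 1 ↔ k ∈ M) → ∀ P : Subgroup H, SylAb ℓ P → Cl K → HR Cl ℓ (Nat.card K) →
    ∀ ω : L → (integralClosure ℤ ℂ) ⧸ 𝔐, Pos 𝔐 ℓ π μ M ω → ∀ πW : W →* H,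
    Function.Surjective πW → πW.ker ≤ Subgroup.center W →
    ∀ ν : ∀ τ : Finset (Subgroup M), (↥(SL π M τ M) → ℂ) → (πW.ker →* ℂˣ),
    (∀ τ θ, PrU 𝔐 π μ p M ω τ θ → EDt π p M πW τ θ (ν τ θ)) →
    T2 𝔐 ℓ π μ p M ω πW P ν

/-- PSZ: the sum over the chains of `K` and the sum over the chains of `M` (minimal
counterexample). -/
def Stmt_PSZr (Cl : ∀ (Y : Type) [Group Y], Prop) : Prop :=
  ∀ (L K H : Type) [Group L] [Fintype L] [Group K] [Fintype K] [Group H] [Fintype H]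
    (𝔐 : Ideal (integralClosure ℤ ℂ)) (ℓ : ℕ) [Fact ℓ.Prime], 𝔐.IsMaximal →
    (ℓ : integralClosure ℤ ℂ) ∈ 𝔐 → ∀ π : L →* K, Function.Surjective π →
    π.ker ≤ Subgroup.center L → ∀ μ : π.ker →* ℂˣ, pCore ℓ K = ⊥ →
    Cl K → (∀ n < Nat.card K, HR Cl ℓ n) → ∀ (M : Subgroup K) [M.Normal] (p : K →* H),
    Function.Surjective p →
    (∀ k, p k = 1 ↔ k ∈ M) → ∀ P : Subgroup H, SylAb ℓ P →
    ∀ ω : L → (integralClosure ℤ ℂ) ⧸ 𝔐, Pos 𝔐 ℓ π μ M ω → ∀ d : ℕ,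
    DKU 𝔐 ℓ d π μ M ω = PHU 𝔐 ℓ d π μ M ⊤ ω

/-- T2B: the relations imply that the sum over the chains vanishes. -/
def Stmt_T2Br (Cl : ∀ (Y : Type) [Group Y], Prop) : Prop :=
  ∀ (L K H W : Type) [Group L] [Fintype L] [Group K] [Fintype K] [Group H] [Fintype H]
    [Group W] [Fintype W] (𝔐 : Ideal (integralClosure ℤ ℂ)) (ℓ : ℕ) [Fact ℓ.Prime],
    𝔐.IsMaximal → (ℓ : integralClosure ℤ ℂ) ∈ 𝔐 → ∀ π : L →* K,
    Function.Surjective π → π.ker ≤ Subgroup.center L → ∀ (μ : π.ker →* ℂˣ)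
    (M : Subgroup K) [M.Normal] (p : K →* H), Function.Surjective p →
    (∀ k, p k = 1 ↔ k ∈ M) → ∀ P : Subgroup H, SylAb ℓ P → pCore ℓ K = ⊥ →
    Cl K → (∀ n < Nat.card K, HR Cl ℓ n) →
    ∀ ω : L → (integralClosure ℤ ℂ) ⧸ 𝔐, Pos 𝔐 ℓ π μ M ω → ∀ πW : W →* H,
    Function.Surjective πW →
    ∀ ν : ∀ τ : Finset (Subgroup M), (↥(SL π M τ M) → ℂ) → (πW.ker →* ℂˣ),
    (∀ τ θ, PrU 𝔐 π μ p M ω τ θ → NumW ℓ π p M πW τ θ (ν τ θ)) →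
    T2 𝔐 ℓ π μ p M ω πW P ν → ∀ d : ℕ, DKU 𝔐 ℓ d π μ M ω = 0

end Pool.Agent.DPK
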