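import Mathlib
import Pool.Agent.DPK.Defs
import Pool.Agent.DPG.Defs
import Pool.Agent.DPT.DefsC

/-!
# Dade's conjecture for the groups of a class: definitions for the final steps
-/

namespace Pool.Agent.DPK

open Pool.Agent.DP Pool.Agent.DPC Pool.Agent.DPM Pool.Agent.DPN Pool.Agent.DPT Pool.Agent.DPF
open Pool.Agent.Lib_helper13
open Representation
open Pool.Agent.Lib_helper13.Dade (pCore DadeHolds dadeSum)

/-- The function `ω` on `L` is determined by the function `ω'` on the image `L'` in the way in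
which the central functions of the characters of `L'` determine those of their inflations. -/
def RelC {L L' K : Type} [Group L] [Group L'] [Group K] (𝔐 : Ideal (integralClosure ℤ ℂ))
    (q : L →* L') (π' : L' →* K) (M : Subgroup K) (ω : L → (integralClosure ℤ ℂ) ⧸ 𝔐)
    (ω' : L' → (integralClosure ℤ ℂ) ⧸ 𝔐) : Prop :=
  ∀ g, π' (q g) ∈ M →
    ω g = ((Nat.card {y : L // IsConj y g ∧ q y = q g} : ℕ) : (integralClosure ℤ ℂ) ⧸ 𝔐) *
      ω' (q g)

/-- The conclusions of OUT2 on the blocks of `N` which are covered by `ω`: they are stable and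
their support contains `M`. -/
def OutN {X : Type} [Group X] [Fintype X] (𝔐 : Ideal (integralClosure ℤ ℂ)) (N M : Subgroup X)
    (ω : X → (integralClosure ℤ ℂ) ⧸ 𝔐) : Prop :=
  ∀ ξ : X → ℂ, IrrOn N ξ → (∀ x ∈ N, cgT 𝔐 ⊤ ξ x = ω x) →
    sx (cgT 𝔐 N ξ) = ⊤ ∧
    ∀ x ∈ M, ∃ u v : X → ℤ, (∀ a ∈ N, ∀ z, u (a * z * a⁻¹) = u z) ∧
      (∀ a ∈ N, ∀ z, v (a * z * a⁻¹) = v z) ∧ (∀ z, u z ≠ 0 → x⁻¹ * z ∈ N) ∧
      (∀ z, v z ≠ 0 → x * z ∈ N) ∧
      red 𝔐 (wS N ξ (fun z => ((conv u v z : ℤ) : ℂ))) ≠ 0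

/-- The class of the groups `Y` such that every nonabelian simple group `S` of order divisible by
`ℓ` which is an image of a subgroup of `Y` has cyclic Sylow `ℓ`-subgroups and an outer automorphism
group of order prime to `ℓ`. -/
def UC (ℓ : ℕ) (Y : Type) [Group Y] : Prop :=
  ∀ (H : Subgroup Y) (S : Type) [Group S] (f : H →* S), Function.Surjective f →
    IsSimpleGroup S → (∃ a b : S, a * b ≠ b * a) → ℓ ∣ Nat.card S →
    (∀ Q : Subgroup S, IsPGroup ℓ Q → IsCyclic Q) ∧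
      ¬ ℓ ∣ (MulAut.conj : S →* MulAut S).range.index

end Pool.Agent.DPK
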