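import Mathlib
import Pool.Agent.DPK.Stmts
import Pool.Agent.DPT.B0F

/-!
# B0F for the groups of a class: the minimal normal subgroup of a minimal counterexample
-/

set_option autoImplicit false

namespace Pool.Agent.DPK

open Pool.Agent.DP Pool.Agent.DPC Pool.Agent.DPM Pool.Agent.DPN Pool.Agent.DPT
open Pool.Agent.Lib_helper13
open Representation
open Pool.Agent.Lib_helper13.Dade (pCore DadeHolds dadeSum)

namespace B0Fr

/-- Part (1a), for the groups of a class. -/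
theorem root {Cl : ∀ (Y : Type) [Group Y], Prop} (h1 : Stmt_OUT1r Cl) (h2 : Stmt_DZ6)
    {X : Type} [Group X] [Fintype X]
    (𝔐 : Ideal (integralClosure ℤ ℂ)) (ℓ : ℕ) [Fact ℓ.Prime] (h𝔐 : 𝔐.IsMaximal)
    (hℓ : (ℓ : integralClosure ℤ ℂ) ∈ 𝔐) (hcore : pCore ℓ X ≤ Subgroup.center X)
    (hCl : Cl X) (hHR : HR Cl ℓ ((Subgroup.center X).index - 1)) (d : ℕ)
    (ω : X → (integralClosure ℤ ℂ) ⧸ 𝔐) (hd : padicValNat ℓ (Nat.card (pCore ℓ X)) < d)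
    (hK : KK 𝔐 ℓ d (pCore ℓ X) ω ≠ 0) (N : Subgroup X) (hN : N.Normal)
    (hNc : Subgroup.center X < N) :
    ∃ x ∈ N, x ^ ℓ ∈ Subgroup.center X ∧ x ∉ Subgroup.center X := by
  classical
  by_contra hcon
  push Not at hcon
  have hP : 𝔐.IsPrime := h𝔐.isPrime
  obtain ⟨M, hM, hNM, hMr, H, iH, fH, f, hfs, hfk, hHH⟩ :=
    h1 X 𝔐 ℓ h𝔐 hℓ hcore hCl hHR d ω hd hK N hN hNc
  have hCM : Subgroup.center X ≤ M := hNc.le.trans hNM
  have hMv : padicValNat ℓ (Nat.card M) = padicValNat ℓ (Nat.card (pCore ℓ X)) := by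
    rw [← B0F.val_center ℓ hcore]
    apply B0F.val_of_root ℓ _ M inferInstance hCM
    intro x hx hxC
    exact hcon x (hMr x hx (hNc.le hxC)) hxC
  obtain ⟨χ, hχ, hω⟩ := B0F.exists_irr 𝔐 hℓ hK
  obtain ⟨ξ, hξ, hip⟩ := CLG.exists_under M.subtype hχ
  obtain ⟨a, n, hn, han⟩ := hξ.exists_defect (ℓ := ℓ)
  have hZM : pCore ℓ X ≤ M := hcore.trans hCM
  have hZc : Nat.card ((pCore ℓ X).subgroupOf M) = Nat.card (pCore ℓ X) :=
    Nat.card_congr (Subgroup.subgroupOfEquivOfLe hZM).toEquiv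
  have hge : padicValNat ℓ (Nat.card (pCore ℓ X)) ≤ a := by
    rw [← hZc]
    refine DLO.defect_ge (DEFA_thm TWC_thm TWN_thm) ℓ ((pCore ℓ X).subgroupOf M) ?_ hξ
      ⟨n, hn, han⟩
    intro z hz
    rw [Subgroup.mem_center_iff]
    intro g
    apply Subtype.ext
    exact Subgroup.mem_center_iff.mp (hcore (Subgroup.mem_subgroupOf.mp hz)) g
  have hdef : HasDefect ℓ ξ (padicValNat ℓ (Nat.card (pCore ℓ X))) :=
    ⟨n, hn, by omega⟩
  have h0 := h2 X H 𝔐 ℓ h𝔐 hℓ hHH (pCore ℓ X) M hcore (isPGroup_pCore ℓ) hZM f hfs hfk χ ξ hχ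
    hξ hdef hip d hd
  rw [hω] at h0
  exact hK h0

end B0Fr

theorem B0Fr_thm (Cl : ∀ (Y : Type) [Group Y], Prop) (_hC : GC Cl) (h1 : Stmt_OUT1r Cl)
    (h2 : Stmt_DZ6) (h3 : Stmt_UMNr Cl) (h4 : Stmt_DLO) : Stmt_B0Fr Cl := by
  classical
  intro X _ _ ℓ _ hcore hCl hHR hD
  obtain ⟨𝔐, h𝔐, hℓ, d, ω, hd, hK⟩ := h4 X ℓ hcore hD
  have hA : ∀ N : Subgroup X, N.Normal → Subgroup.center X < N →
      ∃ x ∈ N, x ^ ℓ ∈ Subgroup.center X ∧ x ∉ Subgroup.center X := fun N hN hNc =>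
    B0Fr.root h1 h2 𝔐 ℓ h𝔐 hℓ hcore hCl hHR d ω hd hK N hN hNc
  refine ⟨fun N hN hNc => ⟨hA N hN hNc, ?_⟩, ?_⟩
  · by_contra hcon
    push Not at hcon
    have hnil := B0F.nil_of_comm N hcon
    have hv := B0F.val_nil ℓ N hN hnil
    rw [← B0F.val_center ℓ hcore] at hv
    obtain ⟨x, hx, hxC, hxn⟩ := hA N hN hNc
    exact hxn (B0F.root_of_val ℓ (Subgroup.center X) N inferInstance hNc.le hv x hx hxC)
  · have hne : Subgroup.center X ≠ ⊤ := by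
      intro htop
      have h5 := UMN.le_val 𝔐 ℓ d (pCore ℓ X) ω hK
      have h6 := B0F.val_center ℓ hcore
      rw [htop, Subgroup.card_top] at h6
      omega
    obtain ⟨N, ⟨hN, hNc⟩, hmin⟩ :=
      Set.Finite.exists_minimal (s := {N : Subgroup X | N.Normal ∧ Subgroup.center X < N})
        (Set.toFinite _) ⟨⊤, inferInstance, lt_top_iff_ne_top.mpr hne⟩
    refine ⟨N, hN, hNc, fun N' hN' hNc' => ?_⟩
    have h5 := h3 X ℓ hcore hCl hHR hD N N' hN hN' hNc hNc'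
    have h6 : (N ⊓ N').Normal := inferInstance
    exact (hmin ⟨h6, h5⟩ inf_le_left).trans inf_le_right

end Pool.Agent.DPK
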