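import Mathlib
import Pool.Agent.DPK.DefsD
import Pool.Agent.DPK.Stmts

/-!
# Dade's conjecture for the groups of a class: statements of the final steps
-/

namespace Pool.Agent.DPK

open Pool.Agent.DP Pool.Agent.DPC Pool.Agent.DPM Pool.Agent.DPN Pool.Agent.DPT Pool.Agent.DPF
open Pool.Agent.Lib_helper13
open Representation
open Pool.Agent.Lib_helper13.Dade (pCore DadeHolds dadeSum)

/-! ### The quotient by the kernel of the linear character -/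

/-- OSR: characters whose central functions agree on the elements of order prime to `ℓ`. -/
def Stmt_OSR : Prop :=
  ∀ (T : Type) [Group T] [Fintype T] (𝔐 : Ideal (integralClosure ℤ ℂ)) (ℓ : ℕ) [Fact ℓ.Prime],
    𝔐.IsMaximal → (ℓ : integralClosure ℤ ℂ) ∈ 𝔐 → ∀ χ χ' : T → ℂ, IsIrr χ → IsIrr χ' →
    (∀ g : T, ¬ ℓ ∣ orderOf g →
      cen 𝔐 (MonoidHom.id T) χ g = cen 𝔐 (MonoidHom.id T) χ' g) →
    cen 𝔐 (MonoidHom.id T) χ = cen 𝔐 (MonoidHom.id T) χ'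

/-- QMI: characters of a quotient by a central subgroup whose inflations are in one block. -/
def Stmt_QMI : Prop :=
  ∀ (T T' : Type) [Group T] [Fintype T] [Group T'] [Fintype T']
    (𝔐 : Ideal (integralClosure ℤ ℂ)) (ℓ : ℕ) [Fact ℓ.Prime], 𝔐.IsMaximal →
    (ℓ : integralClosure ℤ ℂ) ∈ 𝔐 → ∀ q : T →* T', Function.Surjective q →
    q.ker ≤ Subgroup.center T → ∀ χ₁ χ₂ : T' → ℂ, IsIrr χ₁ → IsIrr χ₂ →
    cen 𝔐 (MonoidHom.id T) (fun x => χ₁ (q x)) = cen 𝔐 (MonoidHom.id T) (fun x => χ₂ (q x)) →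
    cen 𝔐 (MonoidHom.id T') χ₁ = cen 𝔐 (MonoidHom.id T') χ₂

/-- QMF: the central function of an inflation. -/
def Stmt_QMF : Prop :=
  ∀ (L L' : Type) [Group L] [Fintype L] [Group L'] [Fintype L']
    (𝔐 : Ideal (integralClosure ℤ ℂ)), 𝔐.IsMaximal → ∀ q : L →* L', Function.Surjective q →
    ∀ (S : Subgroup L') (ψ : L' → ℂ), IrrOn S ψ → ∀ g : L,
    cgT 𝔐 ⊤ (fun x => ψ (q x)) g =
      ((Nat.card {y : L // IsConj y g ∧ q y = q g} : ℕ) : (integralClosure ℤ ℂ) ⧸ 𝔐) *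
        cgT 𝔐 ⊤ ψ (q g)

/-- QMA: a central function on the quotient with a nonvanishing chain sum. -/
def Stmt_QMA : Prop :=
  ∀ (L L' K : Type) [Group L] [Fintype L] [Group L'] [Fintype L'] [Group K] [Fintype K]
    (𝔐 : Ideal (integralClosure ℤ ℂ)) (ℓ : ℕ) [Fact ℓ.Prime], 𝔐.IsMaximal →
    (ℓ : integralClosure ℤ ℂ) ∈ 𝔐 → ∀ (q : L →* L') (π' : L' →* K), Function.Surjective q →
    Function.Surjective π' → (π'.comp q).ker ≤ Subgroup.center L →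
    ∀ (μ : (π'.comp q).ker →* ℂˣ) (μ' : π'.ker →* ℂˣ),
    (∀ (u : (π'.comp q).ker) (h : q u ∈ π'.ker), μ' ⟨q u, h⟩ = μ u) →
    ∀ M : Subgroup K, M.Normal → ∀ (ω : L → (integralClosure ℤ ℂ) ⧸ 𝔐) (d : ℕ),
    Pos 𝔐 ℓ (π'.comp q) μ M ω → DKU 𝔐 ℓ d (π'.comp q) μ M ω ≠ 0 →
    ∃ (d' : ℕ) (ω' : L' → (integralClosure ℤ ℂ) ⧸ 𝔐), RelC 𝔐 q π' M ω ω' ∧
      Pos 𝔐 ℓ π' μ' M ω' ∧ DKU 𝔐 ℓ d' π' μ' M ω' ≠ 0

/-- QMB: inflation of the covered characters. -/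
def Stmt_QMB : Prop :=
  ∀ (L L' K : Type) [Group L] [Fintype L] [Group L'] [Fintype L'] [Group K] [Fintype K]
    (𝔐 : Ideal (integralClosure ℤ ℂ)), 𝔐.IsMaximal → ∀ (q : L →* L') (π' : L' →* K),
    Function.Surjective q → ∀ (μ : (π'.comp q).ker →* ℂˣ) (μ' : π'.ker →* ℂˣ),
    (∀ (u : (π'.comp q).ker) (h : q u ∈ π'.ker), μ' ⟨q u, h⟩ = μ u) →
    ∀ N M : Subgroup K, N ≤ M → ∀ (ω : L → (integralClosure ℤ ℂ) ⧸ 𝔐)
    (ω' : L' → (integralClosure ℤ ℂ) ⧸ 𝔐), RelC 𝔐 q π' M ω ω' → ∀ f' : L' → ℂ,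
    Pool.Agent.DPG.Cvd 𝔐 π' μ' N ω' f' →
      Pool.Agent.DPG.Cvd 𝔐 (π'.comp q) μ N ω (fun x => f' (q x))

/-- QMC: stability for the quotient. -/
def Stmt_QMC : Prop :=
  ∀ (L L' K : Type) [Group L] [Fintype L] [Group L'] [Fintype L'] [Group K] [Fintype K]
    (𝔐 : Ideal (integralClosure ℤ ℂ)) (ℓ : ℕ) [Fact ℓ.Prime], 𝔐.IsMaximal →
    (ℓ : integralClosure ℤ ℂ) ∈ 𝔐 → ∀ (q : L →* L') (π' : L' →* K), Function.Surjective q →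
    Function.Surjective π' → (π'.comp q).ker ≤ Subgroup.center L →
    ∀ (μ : (π'.comp q).ker →* ℂˣ) (μ' : π'.ker →* ℂˣ),
    (∀ (u : (π'.comp q).ker) (h : q u ∈ π'.ker), μ' ⟨q u, h⟩ = μ u) →
    ∀ N M : Subgroup K, N.Normal → N ≤ M → ∀ (ω : L → (integralClosure ℤ ℂ) ⧸ 𝔐)
    (ω' : L' → (integralClosure ℤ ℂ) ⧸ 𝔐), RelC 𝔐 q π' M ω ω' →
    Pool.Agent.DPG.STB 𝔐 (π'.comp q) μ N ω → Pool.Agent.DPG.STB 𝔐 π' μ' N ω'

/-- QMD: the support for the quotient. -/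
def Stmt_QMD : Prop :=
  ∀ (L L' K : Type) [Group L] [Fintype L] [Group L'] [Fintype L'] [Group K] [Fintype K]
    (𝔐 : Ideal (integralClosure ℤ ℂ)), 𝔐.IsMaximal → ∀ (q : L →* L') (π' : L' →* K),
    Function.Surjective q → ∀ (μ : (π'.comp q).ker →* ℂˣ) (μ' : π'.ker →* ℂˣ),
    (∀ (u : (π'.comp q).ker) (h : q u ∈ π'.ker), μ' ⟨q u, h⟩ = μ u) →
    ∀ N M : Subgroup K, N.Normal → N ≤ M → ∀ (ω : L → (integralClosure ℤ ℂ) ⧸ 𝔐)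
    (ω' : L' → (integralClosure ℤ ℂ) ⧸ 𝔐), RelC 𝔐 q π' M ω ω' →
    Pool.Agent.DPG.SPP 𝔐 (π'.comp q) μ N M ω → Pool.Agent.DPG.SPP 𝔐 π' μ' N M ω'

/-- QMU: passage to a faithful linear character. -/
def Stmt_QMU : Prop :=
  ∀ (L K : Type) [Group L] [Fintype L] [Group K] [Fintype K]
    (𝔐 : Ideal (integralClosure ℤ ℂ)) (ℓ : ℕ) [Fact ℓ.Prime], 𝔐.IsMaximal →
    (ℓ : integralClosure ℤ ℂ) ∈ 𝔐 → ∀ π : L →* K, Function.Surjective π →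
    π.ker ≤ Subgroup.center L → ∀ (μ : π.ker →* ℂˣ) (N M : Subgroup K), N.Normal → M.Normal →
    N ≤ M → ∀ (ω : L → (integralClosure ℤ ℂ) ⧸ 𝔐) (d : ℕ), Pos 𝔐 ℓ π μ M ω →
    DKU 𝔐 ℓ d π μ M ω ≠ 0 → Pool.Agent.DPG.STB 𝔐 π μ N ω → Pool.Agent.DPG.SPP 𝔐 π μ N M ω →
    ∃ (L' : Type) (_ : Group L') (_ : Fintype L') (π' : L' →* K) (μ' : π'.ker →* ℂˣ)
      (d' : ℕ) (ω' : L' → (integralClosure ℤ ℂ) ⧸ 𝔐), Function.Surjective π' ∧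
      π'.ker ≤ Subgroup.center L' ∧ Function.Injective μ' ∧ Pos 𝔐 ℓ π' μ' M ω' ∧
      DKU 𝔐 ℓ d' π' μ' M ω' ≠ 0 ∧ Pool.Agent.DPG.STB 𝔐 π' μ' N ω' ∧
      Pool.Agent.DPG.SPP 𝔐 π' μ' N M ω'

/-! ### The quotient by the centre -/

/-- BSA: stability of the blocks of the image of `N`. -/
def Stmt_BSA : Prop :=
  ∀ (X K : Type) [Group X] [Fintype X] [Group K] [Fintype K]
    (𝔐 : Ideal (integralClosure ℤ ℂ)), 𝔐.IsMaximal → ∀ π : X →* K, ∀ (μ : π.ker →* ℂˣ)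
    (N M : Subgroup X), N.Normal → π.ker ≤ N → N ≤ M →
    ∀ ω : X → (integralClosure ℤ ℂ) ⧸ 𝔐, OutN 𝔐 N M ω →
    Pool.Agent.DPG.STB 𝔐 π μ (N.map π) ω

/-- BSB: the support of the blocks of the image of `N`. -/
def Stmt_BSB : Prop :=
  ∀ (X K : Type) [Group X] [Fintype X] [Group K] [Fintype K]
    (𝔐 : Ideal (integralClosure ℤ ℂ)), 𝔐.IsMaximal → ∀ π : X →* K, ∀ (μ : π.ker →* ℂˣ)
    (N M : Subgroup X), N.Normal → π.ker ≤ N → N ≤ M →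
    ∀ ω : X → (integralClosure ℤ ℂ) ⧸ 𝔐, OutN 𝔐 N M ω →
    Pool.Agent.DPG.SPP 𝔐 π μ (N.map π) (M.map π) ω

/-- GRA: the largest normal `ℓ`-subgroup of the quotient by the centre. -/
def Stmt_GRA : Prop :=
  ∀ (X K : Type) [Group X] [Finite X] [Group K] [Finite K] (ℓ : ℕ) [Fact ℓ.Prime] (π : X →* K),
    Function.Surjective π → π.ker = Subgroup.center X → pCore ℓ X ≤ Subgroup.center X →
    pCore ℓ K = ⊥

/-- GRB: the images of `N` and `M`. -/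
def Stmt_GRB : Prop :=
  ∀ (X K : Type) [Group X] [Finite X] [Group K] [Finite K] (ℓ : ℕ) [Fact ℓ.Prime] (π : X →* K),
    Function.Surjective π → π.ker = Subgroup.center X → ∀ N : Subgroup X, N.Normal →
    Subgroup.center X < N →
    (∀ N' : Subgroup X, N'.Normal → Subgroup.center X < N' → N ≤ N') →
    (∃ x ∈ N, ∃ y ∈ N, x * y * x⁻¹ * y⁻¹ ∉ Subgroup.center X) →
    (N.map π).Normal ∧ N.map π ≠ ⊥ ∧
    (∀ N' : Subgroup K, N'.Normal → N' ≠ ⊥ → N.map π ≤ N') ∧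
    (∃ a ∈ N.map π, ∃ b ∈ N.map π, a * b ≠ b * a) ∧
    Subgroup.centralizer (N.map π : Set K) = ⊥ ∧
    (IsSimpleGroup (N.map π) → IsSimpleGroup (N ⧸ (Subgroup.center X).subgroupOf N)) ∧
    ∀ M : Subgroup X, N ≤ M → (∀ x ∈ M, x ^ ℓ ∈ N → x ∈ N) → N.map π ≤ M.map π ∧
      ¬ ℓ ∣ (N.map π).relIndex (M.map π)

/-! ### The unconditional theorem -/

/-- UCC: the class is closed. -/
def Stmt_UCC : Prop := ∀ (ℓ : ℕ) [Fact ℓ.Prime], GC (UC ℓ)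

/-- OUI: the index of a normal subgroup and the outer automorphism group. -/
def Stmt_OUI : Prop :=
  ∀ (X : Type) [Group X] [Finite X] (N : Subgroup X), N.Normal → Subgroup.center X ≤ N →
    (∀ x, (∀ y ∈ N, x * y * x⁻¹ * y⁻¹ ∈ Subgroup.center X) → x ∈ Subgroup.center X) →
    N.index ∣ (MulAut.conj : (N ⧸ (Subgroup.center X).subgroupOf N) →*
      MulAut (N ⧸ (Subgroup.center X).subgroupOf N)).range.index

/-- BAG: the commutator subgroup of `N`. -/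
def Stmt_BAG : Prop :=
  ∀ (X : Type) [Group X] [Finite X] (ℓ : ℕ) [Fact ℓ.Prime], pCore ℓ X ≤ Subgroup.center X →
    ∀ N : Subgroup X, N.Normal → Subgroup.center X ≤ N → N ≤ ⁅N, N⁆ ⊔ Subgroup.center X →
    (∀ Q : Subgroup (N ⧸ (Subgroup.center X).subgroupOf N), IsPGroup ℓ Q → IsCyclic Q) →
    ⁅N, N⁆.Normal ∧ N = ⁅N, N⁆ ⊔ Subgroup.center X ∧ pCore ℓ ↥⁅N, N⁆ = ⊥ ∧
    (∀ Q : Subgroup ↥⁅N, N⁆, IsPGroup ℓ Q → IsCyclic Q) ∧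
    padicValNat ℓ (Nat.card N) ≤
      padicValNat ℓ (Nat.card ↥⁅N, N⁆) + padicValNat ℓ (Nat.card (pCore ℓ X))

/-- BAS: Dade's conjecture in the case of cyclic Sylow `ℓ`-subgroups of `N / Z(X)`. -/
def Stmt_BAS : Prop :=
  ∀ (X : Type) [Group X] [Finite X] (ℓ : ℕ) [Fact ℓ.Prime], pCore ℓ X ≤ Subgroup.center X →
    ∀ N : Subgroup X, N.Normal → Subgroup.center X ≤ N → N ≤ ⁅N, N⁆ ⊔ Subgroup.center X →
    (∀ Q : Subgroup (N ⧸ (Subgroup.center X).subgroupOf N), IsPGroup ℓ Q → IsCyclic Q) →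
    ¬ ℓ ∣ N.index → DadeHolds ℓ X

end Pool.Agent.DPK
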