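import Mathlib
import Pool.Agent.DPK.StmtsD
import Pool.Agent.Lib_helper13.CentSdp

/-!
# BAG: the commutator subgroup of `N`
-/

namespace Pool.Agent.DPK

open Pool.Agent.DP Pool.Agent.DPC Pool.Agent.DPM Pool.Agent.DPN Pool.Agent.DPT Pool.Agent.DPF
open Pool.Agent.Lib_helper13
open Representation
open Pool.Agent.Lib_helper13.Dade (pCore DadeHolds dadeSum)

namespace BAG

theorem val_le {ℓ a b : ℕ} [Fact ℓ.Prime] (h : a ∣ b) (hb : b ≠ 0) :
    padicValNat ℓ a ≤ padicValNat ℓ b :=
  (padicValNat_dvd_iff_le hb).mp (pow_padicValNat_dvd.trans h)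

/-- The `ℓ`-part of the order of an abelian normal subgroup. -/
theorem val_center {X : Type} [Group X] [Finite X] (ℓ : ℕ) [Fact ℓ.Prime] :
    padicValNat ℓ (Nat.card (Subgroup.center X)) ≤ padicValNat ℓ (Nat.card (pCore ℓ X)) := by
  have hprime : ℓ.Prime := Fact.out
  obtain ⟨S⟩ : Nonempty (Sylow ℓ (Subgroup.center X)) := inferInstance
  have hS : (S : Subgroup (Subgroup.center X)).Normal := by
    constructor
    intro n hn g
    have h1 : g * n * g⁻¹ = n := by
      have h2 : g * n = n * g := Subtype.ext (Subgroup.mem_center_iff.mp n.2 g)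
      rw [h2, mul_inv_cancel_right]
    rw [h1]
    exact hn
  have hc : (S : Subgroup (Subgroup.center X)).Characteristic :=
    Sylow.characteristic_of_normal S hS
  have h1 : ((S : Subgroup (Subgroup.center X)).map (Subgroup.center X).subtype).Normal :=
    ConjAct.normal_of_characteristic_of_normal
  have h2 : IsPGroup ℓ ((S : Subgroup (Subgroup.center X)).map (Subgroup.center X).subtype) :=
    S.isPGroup'.map _
  have h3 : (S : Subgroup (Subgroup.center X)).map (Subgroup.center X).subtype ≤ pCore ℓ X :=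
    le_sSup ⟨h1, h2⟩
  have h4 : Nat.card ((S : Subgroup (Subgroup.center X)).map (Subgroup.center X).subtype) =
      Nat.card S :=
    (Nat.card_congr ((S : Subgroup (Subgroup.center X)).equivMapOfInjective _
      (Subgroup.center X).subtype_injective).toEquiv).symm
  have h5 := val_le (ℓ := ℓ) (Subgroup.card_dvd_of_le h3) Nat.card_pos.ne'
  have h6 : padicValNat ℓ (Nat.card S) = padicValNat ℓ (Nat.card (Subgroup.center X)) := by
    rw [S.card_eq_multiplicity, padicValNat.prime_pow, Nat.factorization_def _ hprime]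
  rw [h4, h6] at h5
  exact h5

open scoped commutatorElement in
/-- The commutator subgroup of `N` is perfect. -/
theorem perfect {X : Type} [Group X] (N : Subgroup X)
    (hN : N ≤ ⁅N, N⁆ ⊔ Subgroup.center X) : ⁅N, N⁆ ≤ ⁅⁅N, N⁆, ⁅N, N⁆⁆ := by
  rw [Subgroup.commutator_le]
  intro a ha b hb
  obtain ⟨k, hk, z, hz, rfl⟩ := Subgroup.mem_sup_of_normal_right.mp (hN ha)
  obtain ⟨k', hk', z', hz', rfl⟩ := Subgroup.mem_sup_of_normal_right.mp (hN hb)
  have h1 : ⁅k * z, k' * z'⁆ = ⁅k, k'⁆ := by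
    rw [Subgroup.mem_center_iff] at hz hz'
    have hz1 : ∀ g, g * z⁻¹ = z⁻¹ * g := fun g => by
      rw [mul_inv_eq_iff_eq_mul, mul_assoc, hz g, inv_mul_cancel_left]
    rw [commutatorElement_def, commutatorElement_def, mul_inv_rev, mul_inv_rev]
    have h2 : k * z * (k' * z') * (z⁻¹ * k⁻¹) * (z'⁻¹ * k'⁻¹) =
        k * (z * (k' * z')) * (z⁻¹ * k⁻¹) * (z'⁻¹ * k'⁻¹) := by
      group
    rw [h2, ← hz (k' * z')]
    have h3 : k * (k' * z' * z) * (z⁻¹ * k⁻¹) * (z'⁻¹ * k'⁻¹) =
        k * k' * (z' * k⁻¹) * (z'⁻¹ * k'⁻¹) := by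
      group
    rw [h3, ← hz' k⁻¹]
    group
  rw [h1]
  exact Subgroup.commutator_mem_commutator hk hk'

/-- A homomorphism from the commutator subgroup to an abelian group is trivial. -/
theorem hom_trivial {X : Type} [Group X] (K : Subgroup X) (hK : K ≤ ⁅K, K⁆) {A : Type}
    [CommGroup A] (V : K →* A) (x : K) : V x = 1 := by
  have h1 : (x : X) ∈ (commutator K).map K.subtype := by
    rw [K.map_subtype_commutator]
    exact hK x.2
  obtain ⟨y, hy, hyx⟩ := h1
  have h2 : y = x := Subtype.ext hyx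
  rw [← h2]
  exact Abelianization.commutator_subset_ker V hy

/-- The map from a subgroup of `K ≤ N` to `N / Z(X)`. -/
def toQuot {X : Type} [Group X] (N K : Subgroup X) (hKN : K ≤ N) (Q : Subgroup K) :
    Q →* N ⧸ (Subgroup.center X).subgroupOf N :=
  ((QuotientGroup.mk' ((Subgroup.center X).subgroupOf N)).comp (Subgroup.inclusion hKN)).comp
    Q.subtype

theorem toQuot_ker {X : Type} [Group X] (N K : Subgroup X) (hKN : K ≤ N) (Q : Subgroup K)
    (x : Q) : x ∈ (toQuot N K hKN Q).ker ↔ ((x : K) : X) ∈ Subgroup.center X := by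
  rw [MonoidHom.mem_ker]
  change ((Subgroup.inclusion hKN (x : K) : N) : N ⧸ (Subgroup.center X).subgroupOf N) = 1 ↔ _
  rw [QuotientGroup.eq_one_iff, Subgroup.mem_subgroupOf]
  rfl

theorem key {X : Type} [Group X] [Finite X] (ℓ : ℕ) [Fact ℓ.Prime] (N K : Subgroup X)
    (hKN : K ≤ N) (hK : K ≤ ⁅K, K⁆)
    (hQ : ∀ Q : Subgroup (N ⧸ (Subgroup.center X).subgroupOf N), IsPGroup ℓ Q → IsCyclic Q)
    (P : Sylow ℓ K) :
    IsCyclic P ∧ ∀ x : K, x ∈ P → (x : X) ∈ Subgroup.center X → x = 1 := by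
  have hprime : ℓ.Prime := Fact.out
  set f := toQuot N K hKN (P : Subgroup K) with hf
  have h1 : IsPGroup ℓ f.range := by
    have h2 : IsPGroup ℓ (⊤ : Subgroup P) := P.isPGroup'.to_subgroup _
    have h3 := h2.map f
    rwa [← MonoidHom.range_eq_map] at h3
  have h2 : IsCyclic f.range := hQ _ h1
  have h3 : f.rangeRestrict.ker ≤ Subgroup.center P := by
    intro x hx
    have h4 : x ∈ f.ker := by
      rw [MonoidHom.mem_ker] at hx ⊢
      have h5 := congrArg Subtype.val hx
      exact h5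
    rw [toQuot_ker] at h4
    rw [Subgroup.mem_center_iff]
    intro g
    apply Subtype.ext
    apply Subtype.ext
    exact Subgroup.mem_center_iff.mp h4 _
  have h4 : IsMulCommutative P := f.rangeRestrict.isMulCommutative_of_isCyclic_of_ker_le_center h3
  let _ : CommGroup P :=
    { (inferInstance : Group P) with mul_comm := h4.is_comm.comm }
  have h5 : ∀ x : K, x ∈ P → (x : X) ∈ Subgroup.center X → x = 1 := by
    intro x hx hxc
    have hkey : ∀ (k : ℕ) (g₀ : K), g₀⁻¹ * x ^ k * g₀ ∈ (P : Subgroup K) →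
        g₀⁻¹ * x ^ k * g₀ = x ^ k := by
      intro k g₀ _
      have h6 : x ^ k * g₀ = g₀ * x ^ k := by
        apply Subtype.ext
        have h7 : (x : X) ^ k ∈ Subgroup.center X := Subgroup.pow_mem _ hxc k
        have h8 := Subgroup.mem_center_iff.mp h7 (g₀ : X)
        exact h8.symm
      rw [mul_assoc, h6, inv_mul_cancel_left]
    have h6 := MonoidHom.transfer_eq_pow (MonoidHom.id P) x hkey
    rw [hom_trivial K hK] at h6
    have h7 : x ^ (P : Subgroup K).index = 1 := by
      have h8 := congrArg (fun y : P => (y : K)) h6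
      exact h8.symm
    obtain ⟨n, hn⟩ := P.isPGroup' ⟨x, hx⟩
    have hn' : x ^ ℓ ^ n = 1 := by
      have h8 := congrArg (fun y : P => (y : K)) hn
      exact h8
    have h9 : ¬ ℓ ∣ (P : Subgroup K).index := P.not_dvd_index
    have h10 : Nat.Coprime (ℓ ^ n) (P : Subgroup K).index :=
      Nat.Coprime.pow_left n ((Nat.Prime.coprime_iff_not_dvd hprime).mpr h9)
    have h11 : orderOf x ∣ 1 := by
      rw [← h10.gcd_eq_one]
      exact Nat.dvd_gcd (orderOf_dvd_of_pow_eq_one hn') (orderOf_dvd_of_pow_eq_one h7)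
    exact orderOf_eq_one_iff.mp (Nat.dvd_one.mp h11)
  refine ⟨?_, h5⟩
  have h6 : Function.Injective f.rangeRestrict := by
    rw [injective_iff_map_eq_one]
    intro x hx
    have h7 : x ∈ f.ker := by
      rw [MonoidHom.mem_ker]
      have h8 := congrArg Subtype.val hx
      exact h8
    rw [toQuot_ker] at h7
    exact Subtype.ext (h5 x x.2 h7)
  exact isCyclic_of_injective f.rangeRestrict h6

end BAG

theorem BAG_thm : Stmt_BAG := by
  intro X _ _ ℓ _ hcore N hN hZN hNK hQ
  have hKn : (⁅N, N⁆ : Subgroup X).Normal := Subgroup.commutator_normal N N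
  have hKN : ⁅N, N⁆ ≤ N := Subgroup.commutator_le_right N N
  have hK := BAG.perfect N hNK
  have hkey := BAG.key ℓ N ⁅N, N⁆ hKN hK hQ
  have hNeq : N = ⁅N, N⁆ ⊔ Subgroup.center X := le_antisymm hNK (sup_le hKN hZN)
  refine ⟨hKn, hNeq, ?_, ?_, ?_⟩
  · have hch : (pCore ℓ ↥⁅N, N⁆).Characteristic :=
      Subgroup.characteristic_iff_map_eq.mpr fun φ => pCore_equiv ℓ φ
    have h1 : ((pCore ℓ ↥⁅N, N⁆).map (⁅N, N⁆ : Subgroup X).subtype).Normal :=
      ConjAct.normal_of_characteristic_of_normal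
    have h0 : IsPGroup ℓ (pCore ℓ ↥⁅N, N⁆) := isPGroup_pCore ℓ
    have h2 : IsPGroup ℓ ((pCore ℓ ↥⁅N, N⁆).map (⁅N, N⁆ : Subgroup X).subtype) := h0.map _
    have h3 : (pCore ℓ ↥⁅N, N⁆).map (⁅N, N⁆ : Subgroup X).subtype ≤ pCore ℓ X :=
      le_sSup ⟨h1, h2⟩
    obtain ⟨P, hP⟩ := h0.exists_le_sylow
    rw [eq_bot_iff]
    intro x hx
    rw [Subgroup.mem_bot]
    exact (hkey P).2 x (hP hx) (hcore (h3 ⟨x, hx, rfl⟩))
  · intro Q hQp
    obtain ⟨P, hP⟩ := hQp.exists_le_sylow
    have h1 := (hkey P).1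
    exact isCyclic_of_injective (Subgroup.inclusion hP) (Subgroup.inclusion_injective hP)
  · have h1 : Nat.card N ∣ Nat.card ↥⁅N, N⁆ * Nat.card (Subgroup.center X) := by
      have h2 : Nat.card N = Nat.card ↥⁅N, N⁆ * (⁅N, N⁆ : Subgroup X).relIndex N := by
        have h3 := Subgroup.card_mul_index ((⁅N, N⁆ : Subgroup X).subgroupOf N)
        rw [Nat.card_congr (Subgroup.subgroupOfEquivOfLe hKN).toEquiv] at h3
        exact h3.symm
      have h4 : (⁅N, N⁆ : Subgroup X).relIndex N =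
          (⁅N, N⁆ : Subgroup X).relIndex (Subgroup.center X) := by
        have h5 := Subgroup.relIndex_sup_left (K := ⁅N, N⁆) (H := Subgroup.center X)
        rw [← hNeq] at h5
        exact h5
      rw [h2, h4]
      exact mul_dvd_mul_left _ (Subgroup.relIndex_dvd_card _ _)
    have h2 := BAG.val_le (ℓ := ℓ) h1 (mul_ne_zero Nat.card_pos.ne' Nat.card_pos.ne')
    rw [padicValNat.mul Nat.card_pos.ne' Nat.card_pos.ne'] at h2
    exact h2.trans (Nat.add_le_add_left (BAG.val_center ℓ) _)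

end Pool.Agent.DPK
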