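import Mathlib
import Pool.Agent.DPK.StmtsD
import Pool.Agent.DPX.AllX
import Pool.Agent.DPT.DZS

/-!
# BAS: Dade's conjecture in the case of cyclic Sylow subgroups of the section
-/

set_option autoImplicit false

namespace Pool.Agent.DPK

open Pool.Agent.DP Pool.Agent.DPC Pool.Agent.DPM Pool.Agent.DPN Pool.Agent.DPT Pool.Agent.DPF
open Pool.Agent.Lib_helper13
open Representation
open Pool.Agent.Lib_helper13.Dade (pCore DadeHolds dadeSum)

namespace BAS

/-- The central function at the identity. -/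
theorem central_one {G : Type} [Group G] [Finite G] {χ : G → ℂ} (hχ : IsIrr χ) :
    Dade.central χ 1 = 1 := by
  have := Fintype.ofFinite G
  have h1 : (∑ᶠ (x : G) (_ : IsConj x 1), χ x) = χ 1 := by
    rw [finsum_eq_single _ (1 : G)]
    · rw [finsum_eq_single _ (IsConj.refl 1)]
      intro h hne
      exact absurd (Subsingleton.elim _ _) hne
    · intro x hx
      have h2 : ¬ IsConj x 1 := fun h => hx (isConj_one_left.mp h)
      have h3 : IsEmpty (IsConj x 1) := ⟨h2⟩
      exact finsum_of_isEmpty _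
  rw [Dade.central, h1, div_self hχ.one_ne_zero]

/-- The identity is not in a maximal ideal. -/
theorem not_congr {𝔐 : Ideal (integralClosure ℤ ℂ)} (h : 𝔐.IsMaximal) :
    ¬ Dade.CongrMod 𝔐 1 0 := by
  rintro ⟨m, hm, hm'⟩
  have h1 : m = 1 := by
    apply Subtype.ext
    rw [hm']
    simp
  rw [h1] at hm
  exact h.ne_top ((Ideal.eq_top_iff_one _).mpr hm)

/-- The numbers of characters depend only on the block. -/
theorem kd_eq {G : Type} [Group G] {𝔐 : Ideal (integralClosure ℤ ℂ)} {χ χ' : G → ℂ}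
    (h : Dade.SameBlock 𝔐 χ' χ) (ℓ d : ℕ) (S : Subgroup G) :
    Dade.kd 𝔐 ℓ χ d S = Dade.kd 𝔐 ℓ χ' d S := by
  have h1 : ∀ θ : S → ℂ, Dade.InducesTo 𝔐 S θ χ ↔ Dade.InducesTo 𝔐 S θ χ' := by
    intro θ
    constructor
    · intro h1 g
      obtain ⟨m, hm, hm'⟩ := h1 g
      obtain ⟨n, hn, hn'⟩ := h g
      refine ⟨m - n, 𝔐.sub_mem hm hn, ?_⟩
      push_cast
      rw [hm', hn']
      ring
    · intro h1 g
      obtain ⟨m, hm, hm'⟩ := h1 g
      obtain ⟨n, hn, hn'⟩ := h g
      refine ⟨m + n, 𝔐.add_mem hm hn, ?_⟩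
      push_cast
      rw [hm', hn']
      ring
  rw [Dade.kd, Dade.kd]
  simp only [h1]

/-- The alternating sums depend only on the block. -/
theorem dadeSum_eq {G : Type} [Group G] {𝔐 : Ideal (integralClosure ℤ ℂ)} {χ χ' : G → ℂ}
    (h : Dade.SameBlock 𝔐 χ' χ) (ℓ d : ℕ) : dadeSum 𝔐 ℓ χ d = dadeSum 𝔐 ℓ χ' d := by
  rw [dadeSum, dadeSum]
  simp only [kd_eq h]

/-- A normal subgroup, the conjugation action and the quotient map. -/
theorem clG_normal {X : Type} [Group X] (K : Subgroup X) [K.Normal] :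
    ClG K.subtype (MulAut.conjNormal (H := K)) (QuotientGroup.mk' K) where
  inj := Subtype.val_injective
  act := fun y a => by
    change ((MulAut.conjNormal y a : K) : X) = y * a * y⁻¹
    exact MulAut.conjNormal_apply y a
  ker := fun y => by
    rw [QuotientGroup.mk'_apply, QuotientGroup.eq_one_iff, Subgroup.range_subtype]

end BAS

open BAS in
theorem BAS_thm (h1 : Stmt_BAG) : Stmt_BAS := by
  intro X _ _ ℓ hℓ hcore N hN hZN hNK hcyc hidx 𝔐 h𝔐 hℓ𝔐 χ _ hpos d
  obtain ⟨χ', e, hχ', hsame, hdef, hlt⟩ := hpos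
  obtain ⟨hK, hNeq, hKcore, hKcyc, hval⟩ := h1 X ℓ hcore N hN hZN hNK hcyc
  have := Fintype.ofFinite X
  set K : Subgroup X := ⁅N, N⁆ with hKdef
  have := Fintype.ofFinite K
  have hχI : IsIrr χ' := hχ'
  obtain ⟨ξ, hξ, hip⟩ := CLG.exists_under K.subtype hχI
  -- the defect of `ξ`
  have hd : ¬ Dade.HasDefect ℓ ξ 0 := by
    rintro ⟨n, hn, hv⟩
    obtain ⟨m, hm, hv'⟩ := hdef
    have hdvd : n ∣ m := DZS.deg_dvd (clG_normal K) hχI hξ hip hm hn
    have hm0 : m ≠ 0 := by
      rintro rfl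
      exact hχI.one_ne_zero (by rw [hm, Nat.cast_zero])
    have h2 : padicValNat ℓ n ≤ padicValNat ℓ m := by
      obtain ⟨r, rfl⟩ := hdvd
      have h3 := (Nat.mul_ne_zero_iff.mp hm0)
      rw [padicValNat.mul h3.1 h3.2]
      omega
    have h3 : padicValNat ℓ (Nat.card X) = padicValNat ℓ (Nat.card N) := by
      rw [← Subgroup.card_mul_index N, padicValNat.mul Nat.card_pos.ne'
        Subgroup.index_ne_zero_of_finite, padicValNat.eq_zero_of_not_dvd hidx, add_zero]
    have h4 : e ≤ padicValNat ℓ (Nat.card (pCore ℓ X)) := by omega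
    have h5 : ℓ ^ e ∣ Nat.card (pCore ℓ X) :=
      (pow_dvd_pow ℓ h4).trans pow_padicValNat_dvd
    exact absurd (Nat.le_of_dvd Nat.card_pos h5) (not_le.mpr hlt)
  rw [dadeSum_eq hsame]
  refine DPX.mainX1' ℓ hℓ.out X K ?_ hKcore ?_ 𝔐 h𝔐 hℓ𝔐 ξ hξ hd 1 ?_ ?_ χ' hχ' ?_ d
  · intro x
    exact Or.inl fun k hk => hK.conj_mem k hk x
  · intro h
    apply hidx
    have h2 : Subgroup.normalizer (K : Set X) = ⊤ := Subgroup.normalizer_eq_top_iff.mpr hK
    rw [h2, Subgroup.relIndex_top_right] at h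
    refine h.trans (Subgroup.index_dvd_of_le ?_)
    rw [hNeq]
    refine sup_le_sup_left ?_ _
    exact Subgroup.center_le_centralizer _
  · rw [central_one hξ]
    exact not_congr h𝔐
  · intro Q hQ _
    exact hKcyc Q hQ
  · rw [finsum_eq_sum_of_fintype]
    intro h
    apply hip
    rw [ip]
    have h2 : ∑ g : K, resj K.subtype χ' g * ξ g⁻¹ = 0 := h
    rw [h2, zero_div]

end Pool.Agent.DPK
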