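import Mathlib
import Pool.Agent.DPK.StmtsD
import Pool.Agent.DPT.STB
import Pool.Agent.Lib_helper13.Good

/-!
# BSA: stability of the blocks of the image of a normal subgroup
-/

namespace Pool.Agent.DPK

open Pool.Agent.DP Pool.Agent.DPC Pool.Agent.DPM Pool.Agent.DPN Pool.Agent.DPT Pool.Agent.DPF
open Pool.Agent.Lib_helper13
open Representation

namespace BSA

variable {X : Type} [Group X] [Fintype X]

/-- The sum over the group is the weight of the restriction to `N`. -/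
theorem sc_eq (𝔐 : Ideal (integralClosure ℤ ℂ)) (N : Subgroup X) {f : X → ℂ}
    (h : ∀ x, x ∉ N → f x = 0) (u : X → ℤ) :
    Pool.Agent.DPG.sc 𝔐 f u =
      red 𝔐 (wt (fun s : N => f s) (fun s : N => ((u (s : X) : ℤ) : ℂ))) := by
  classical
  have h1 : ∑ x : X, ((u x : ℤ) : ℂ) * f x = ∑ s : N, ((u (s : X) : ℤ) : ℂ) * f s := by
    symm
    refine Fintype.sum_of_injective (fun s : N => (s : X)) Subtype.val_injective _ _ ?_
      (fun s => rfl)
    intro x hx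
    rw [h x (fun h2 => hx ⟨⟨x, h2⟩, rfl⟩), mul_zero]
  rw [Pool.Agent.DPG.sc, wt, h1]
  rfl

omit [Fintype X] in
/-- Conjugacy in `N`. -/
theorem conjInd_eq (N : Subgroup X) (s g : N) :
    conjInd s g = cjT N (s : X) (g : X) := by
  classical
  rw [cjT, conjInd]
  refine STB.ite_eq ?_
  constructor
  · intro h
    obtain ⟨t, ht⟩ := isConj_iff.mp h.symm
    exact ⟨t, t.2, by rw [← ht]; rfl⟩
  · rintro ⟨t, ht, h⟩
    refine (isConj_iff.mpr ⟨⟨t, ht⟩, ?_⟩ : IsConj g s).symm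
    apply Subtype.ext
    exact h.symm

/-- The central function on the group `N`. -/
theorem cen_eq (𝔐 : Ideal (integralClosure ℤ ℂ)) (N : Subgroup X) {f : X → ℂ}
    (h : ∀ x, x ∉ N → f x = 0) (g : N) :
    cen 𝔐 (MonoidHom.id N) (fun s : N => f s) g = cgT 𝔐 N f (g : X) := by
  rw [STB.cgT_eq 𝔐 N N h, cen]
  congr 2
  funext s
  exact conjInd_eq N s g

/-- The scalar of an invariant function is determined by the central function. -/
theorem sc_pair (𝔐 : Ideal (integralClosure ℤ ℂ)) (N : Subgroup X) {f : X → ℂ}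
    (h : IrrOn N f) {u : X → ℤ} (hu : ∀ s ∈ N, ∀ x, u (s * x * s⁻¹) = u x) :
    Pool.Agent.DPG.sc 𝔐 f u = pair 𝔐 (fun s : N => ((u (s : X) : ℤ) : ℂ))
      (cen 𝔐 (MonoidHom.id N) (fun s : N => f s)) := by
  rw [sc_eq 𝔐 N h.2]
  refine red_wt_eq_pair 𝔐 (MonoidHom.id N) h.1 (fun s : N => ((u (s : X) : ℤ) : ℂ)) ?_ ?_
  · intro g x
    have h1 := hu (g : X) g.2 (x : X)
    change ((u ((g : X) * (x : X) * (g : X)⁻¹) : ℤ) : ℂ) = _
    rw [h1]
  · intro x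
    exact isIntegral_algebraMap (R := ℤ) (A := ℂ) (x := u (x : X))

/-- A conjugate of a character of a normal subgroup. -/
theorem irrOn_conj {N : Subgroup X} [N.Normal] {f : X → ℂ} (h : IrrOn N f) (g : X) :
    IrrOn N (fun x => f (g * x * g⁻¹)) := by
  refine ⟨?_, ?_⟩
  · have h1 := h.1.comp_mulEquiv (MulAut.conjNormal g : MulAut N)
    have h2 : (fun s : N => f s) ∘ (MulAut.conjNormal g : MulAut N) =
        fun s : N => f (g * (s : X) * g⁻¹) := by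
      funext s
      change f (((MulAut.conjNormal g : MulAut N) s : N) : X) = _
      rw [MulAut.conjNormal_apply]
    rw [h2] at h1
    exact h1
  · intro x hx
    refine h.2 _ fun h3 => hx ?_
    have h4 := Subgroup.Normal.conj_mem ‹N.Normal› _ h3 g⁻¹
    have h5 : g⁻¹ * (g * x * g⁻¹) * g⁻¹⁻¹ = x := by group
    rwa [h5] at h4

/-- The scalar of a conjugate of an invariant function. -/
theorem sc_conj (𝔐 : Ideal (integralClosure ℤ ℂ)) {f : X → ℂ} (u : X → ℤ) (l : X) :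
    Pool.Agent.DPG.sc 𝔐 f (fun x => u (l * x * l⁻¹)) =
      Pool.Agent.DPG.sc 𝔐 (fun x => f (l⁻¹ * x * l⁻¹⁻¹)) u := by
  rw [Pool.Agent.DPG.sc, Pool.Agent.DPG.sc]
  have h1 : ∑ x, ((u (l * x * l⁻¹) : ℤ) : ℂ) * f x =
      ∑ x, ((u x : ℤ) : ℂ) * f (l⁻¹ * x * l⁻¹⁻¹) := by
    refine Fintype.sum_equiv (MulAut.conj l).toEquiv _ _ fun x => ?_
    change _ = ((u (l * x * l⁻¹) : ℤ) : ℂ) * f (l⁻¹ * (l * x * l⁻¹) * l⁻¹⁻¹)
    have h2 : l⁻¹ * (l * x * l⁻¹) * l⁻¹⁻¹ = x := by group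
    rw [h2]
  rw [h1]
  simp

end BSA

theorem BSA_thm : Stmt_BSA := by
  intro X K _ _ _ _ 𝔐 _ π μ N M hN hk _ ω hO f hf u hu1 _ l
  have hcm : (N.map π).comap π = N := Subgroup.comap_map_eq_self hk
  rw [Pool.Agent.DPG.Cvd, hcm] at hf
  obtain ⟨hf1, -, hf3⟩ := hf
  have := hN
  have hsx : sx (cgT 𝔐 N f) = ⊤ := by
    refine (hO f hf1 fun x hx => ?_).1
    rw [← hf3 x (Subgroup.mem_map_of_mem π hx), cgT, cg]
    congr 2
    exact Finset.sum_congr rfl fun y _ => by rw [STB.cjT_top]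
  have hu : ∀ s ∈ N, ∀ x, u (s * x * s⁻¹) = u x := by
    intro s hs x
    refine hu1 s ?_ x
    rw [hcm]
    exact hs
  rw [BSA.sc_conj, BSA.sc_pair 𝔐 N (BSA.irrOn_conj hf1 l⁻¹) hu, BSA.sc_pair 𝔐 N hf1 hu]
  congr 1
  funext g
  have h1 : cgT 𝔐 N (fun x => f (l⁻¹ * x * l⁻¹⁻¹)) (g : X) = cgT 𝔐 N f (g : X) := by
    rw [STB.cgT_move]
    have h2 : l⁻¹ ∈ sx (cgT 𝔐 N f) := by
      rw [hsx]
      trivial
    exact mem_sx.mp h2 g
  rw [BSA.cen_eq 𝔐 N hf1.2 g, ← h1]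
  exact BSA.cen_eq 𝔐 N (BSA.irrOn_conj hf1 l⁻¹).2 g

end Pool.Agent.DPK
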