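import Mathlib
import Pool.Agent.DPK.StmtsD
import Pool.Agent.DPT.STB

/-!
# BSB: the support of the blocks of the image of a normal subgroup
-/

namespace Pool.Agent.DPK

open Pool.Agent.DP Pool.Agent.DPC Pool.Agent.DPM Pool.Agent.DPN Pool.Agent.DPT Pool.Agent.DPF
open Pool.Agent.Lib_helper13
open Representation

namespace BSB

variable {X : Type} [Group X] [Fintype X]

/-- The sum over the group is the sum over `N`. -/
theorem sc_eq (𝔐 : Ideal (integralClosure ℤ ℂ)) (N : Subgroup X) {f : X → ℂ}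
    (h : ∀ x, x ∉ N → f x = 0) (u : X → ℤ) :
    Pool.Agent.DPG.sc 𝔐 f u = red 𝔐 (wS N f (fun z => ((u z : ℤ) : ℂ))) := by
  classical
  have h1 : ∑ x : X, ((u x : ℤ) : ℂ) * f x = ∑ s : N, ((u (s : X) : ℤ) : ℂ) * f s := by
    symm
    refine Fintype.sum_of_injective (fun s : N => (s : X)) Subtype.val_injective _ _ ?_
      (fun s => rfl)
    intro x hx
    rw [h x (fun h2 => hx ⟨⟨x, h2⟩, rfl⟩), mul_zero]
  rw [Pool.Agent.DPG.sc, wS, wt, h1]
  rfl

end BSB

theorem BSB_thm : Stmt_BSB := by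
  intro X K _ _ _ _ 𝔐 _ π μ N M _ hk hNM ω hO f hf x hx
  have hcm : (N.map π).comap π = N := Subgroup.comap_map_eq_self hk
  have hcM : (M.map π).comap π = M := Subgroup.comap_map_eq_self (hk.trans hNM)
  have hxM : x ∈ M := by
    rw [← hcM]
    exact hx
  have hmem : ∀ y, π y ∈ N.map π ↔ y ∈ N := by
    intro y
    have h : y ∈ (N.map π).comap π ↔ y ∈ N := by rw [hcm]
    exact h
  rw [Pool.Agent.DPG.Cvd, hcm] at hf
  obtain ⟨hf1, -, hf3⟩ := hf
  have h4 : ∀ x ∈ N, cgT 𝔐 ⊤ f x = ω x := by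
    intro x hx
    rw [← hf3 x (Subgroup.mem_map_of_mem π hx), cgT, cg]
    congr 2
    exact Finset.sum_congr rfl fun y _ => by rw [STB.cjT_top]
  obtain ⟨u, v, hu, hv, hsu, hsv, hne⟩ := (hO f hf1 h4).2 x hxM
  refine ⟨u, v, ?_, ?_, ?_, ?_, ?_⟩
  · rw [hcm]
    exact hu
  · rw [hcm]
    exact hv
  · intro z hz
    by_contra h
    exact hz ((hmem _).mpr (hsu z h))
  · intro z hz
    by_contra h
    exact hz ((hmem _).mpr (hsv z h))
  · rw [BSB.sc_eq 𝔐 N hf1.2]
    exact hne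

end Pool.Agent.DPK
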