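import Pool.Agent.DPK.Stmts
import Pool.Agent.DPN.CONS

/-!
# CONSr: only the characters with the same defect as `θ` contribute (groups of a class)
-/

namespace Pool.Agent.DPK

open Pool.Agent.DP Pool.Agent.DPC Pool.Agent.DPM Pool.Agent.DPN Pool.Agent.Lib_helper13
open Representation
open Pool.Agent.Lib_helper13.Dade (pCore DadeHolds dadeSum)

/-- CONS: only the characters with the same defect as `θ` contribute. -/
theorem CONSr_thm (Cl : ∀ (Y : Type) [Group Y], Prop) (_hC : GC Cl) (h1 : Stmt_TDMr Cl) :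
    Stmt_CONSr Cl := by
  classical
  intro A T H X _ _ _ _ _ _ _ _ 𝔐 ℓ _ hmax hℓ j c p hcl hp hcore hCl hHQ θ hθ hinv a d ha hda i ω m hm
  rcases lt_or_gt_of_ne hda with hd | hd
  · refine Finset.sum_eq_zero fun V _ => ?_
    rw [CONS.small 𝔐 ℓ hcl hθ ha hd i {ω} V, mul_zero, mul_zero]
  · obtain ⟨Γ, L, _, _, _, _, e, q, r, E, U, μ, π, htw⟩ := TWC_thm A T H j c p hcl hp θ hθ hinv
    obtain ⟨F, hF1, hF2, hF3⟩ :=
      TWF_thm A T H Γ L X j c p hcl hp θ hθ hinv e q r E U μ π htw i
    have htdm := h1 L H 𝔐 ℓ hmax hℓ π htw.πs hcore hCl hHQ U μ htw.Uc htw.πk htw.cyc htw.inj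
      (d - a + padicValNat ℓ (Nat.card U)) (by omega) m hm {c | ∀ g, pair 𝔐 (F g) c = ω g}
    rw [← htdm]
    refine Finset.sum_congr rfl fun V _ => ?_
    obtain ⟨_, _, _, _, _, _, hdef, hcnt⟩ :=
      TWN_thm A T H Γ L ℓ j c p hcl hp θ hθ hinv e q r E U μ π htw V
    have key : Nat.card {ψ : ↥(V.comap p) → ℂ // IsIrr ψ ∧
          ip (fun a : A => ext0 ψ (j a)) θ ≠ 0 ∧ (HasDefect ℓ ψ d ∧
          cen 𝔐 (i.comp (V.comap p).subtype) ψ ∈ ({ω} : Set _))} =
        Nat.card {η : ↥(V.comap π) → ℂ // IsIrr η ∧ OvL U μ _ η ∧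
          (HasDefect ℓ η (d - a + padicValNat ℓ (Nat.card U)) ∧
          cen 𝔐 (V.comap π).subtype η ∈ {c | ∀ g, pair 𝔐 (F g) c = ω g})} := by
      apply hcnt (fun ψ => HasDefect ℓ ψ d ∧
          cen 𝔐 (i.comp (V.comap p).subtype) ψ ∈ ({ω} : Set _))
        (fun η => HasDefect ℓ η (d - a + padicValNat ℓ (Nat.card U)) ∧
          cen 𝔐 (V.comap π).subtype η ∈ {c | ∀ g, pair 𝔐 (F g) c = ω g})
      intro ψ η hψ hip hη hov hcor
      obtain ⟨d1, hd1⟩ := hψ.exists_defect (ℓ := ℓ)
      obtain ⟨d2, hd2⟩ := hη.exists_defect (ℓ := ℓ)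
      have h2 := hdef ψ η a d1 d2 hη hcor ha hd1 hd2
      have h3 : ∀ g, cen 𝔐 (i.comp (V.comap p).subtype) ψ g =
          pair 𝔐 (F g) (cen 𝔐 (V.comap π).subtype η) := by
        intro g
        have h4 := hF3 V ψ η hψ hη hov hcor g
        have h5 := red_wt_eq_pair 𝔐 (V.comap π).subtype hη (F g) (hF1 g) (hF2 g)
        rw [← h5]
        unfold cen
        exact congrArg (red 𝔐) h4
      refine and_congr ?_ ?_
      · constructor
        · intro h6
          have h7 : d1 = d := hd1.unique h6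
          have h8 : d - a + padicValNat ℓ (Nat.card U) = d2 := by omega
          rw [h8]
          exact hd2
        · intro h6
          have h7 : d2 = d - a + padicValNat ℓ (Nat.card U) := hd2.unique h6
          have h8 : d = d1 := by omega
          rw [h8]
          exact hd1
      · rw [Set.mem_singleton_iff, Set.mem_ofPred_eq]
        constructor
        · intro h6 g
          rw [← h3 g, h6]
        · intro h6
          funext g
          rw [h3 g, h6 g]
    congr 2
    exact congrArg (Nat.cast (R := ℚ)) key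

end Pool.Agent.DPK
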