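import Mathlib
import Pool.Agent.DPK.StmtsD

/-!
# Dade's conjecture for the groups of a class: almost simple sections with cyclic Sylow subgroups
-/

namespace Pool.Agent.DPK

open Pool.Agent.DP Pool.Agent.DPC Pool.Agent.DPM Pool.Agent.DPN Pool.Agent.DPT Pool.Agent.DPF
open Pool.Agent.Lib_helper13
open Representation
open Pool.Agent.Lib_helper13.Dade (pCore DadeHolds dadeSum)

/-- The class of the groups `Y` such that every almost simple group `A` (with socle `S`) which is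
an image of a subgroup of `Y` has cyclic Sylow `ℓ`-subgroups if `ℓ` divides the order of `S`. -/
def UD (ℓ : ℕ) (Y : Type) [Group Y] : Prop :=
  ∀ (H : Subgroup Y) (A : Type) [Group A] (f : H →* A), Function.Surjective f →
    ∀ S : Subgroup A, S.Normal → IsSimpleGroup S → (∃ a ∈ S, ∃ b ∈ S, a * b ≠ b * a) →
    Subgroup.centralizer (S : Set A) = ⊥ → ℓ ∣ Nat.card S →
    ∀ Q : Subgroup A, IsPGroup ℓ Q → IsCyclic Q

/-- UDC: the class is closed. -/
def Stmt_UDC : Prop := ∀ (ℓ : ℕ) [Fact ℓ.Prime], GC (UD ℓ)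

/-- CYS: cyclic Sylow `ℓ`-subgroups and normal simple subgroups. -/
def Stmt_CYS : Prop :=
  ∀ (A : Type) [Group A] [Finite A] (ℓ : ℕ) [Fact ℓ.Prime] (S P : Subgroup A), S.Normal →
    IsSimpleGroup S → (∃ a ∈ S, ∃ b ∈ S, a * b ≠ b * a) → ℓ ∣ Nat.card S →
    (∀ Q : Subgroup A, IsPGroup ℓ Q → IsCyclic Q) → S ≤ P →
    (∀ x ∈ P, ∃ k : ℕ, x ^ ℓ ^ k ∈ S) → ¬ ℓ ∣ P.index → ¬ ℓ ∣ S.index

/-- CYQ: the quotients by the centre. -/
def Stmt_CYQ : Prop :=
  ∀ (X : Type) [Group X] [Finite X] (ℓ : ℕ) [Fact ℓ.Prime] (N : Subgroup X), N.Normal →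
    Subgroup.center X ≤ N →
    (∀ Q : Subgroup (X ⧸ Subgroup.center X), IsPGroup ℓ Q → IsCyclic Q) →
    ∀ Q : Subgroup (N ⧸ (Subgroup.center X).subgroupOf N), IsPGroup ℓ Q → IsCyclic Q

end Pool.Agent.DPK
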