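import Mathlib
import Pool.Agent.DPK.StmtsE

/-!
# CYQ: the quotients by the centre
-/

namespace Pool.Agent.DPK

theorem CYQ_thm : Stmt_CYQ := by
  intro X _ _ ℓ _ N hN hZN h Q hQ
  have hle : (Subgroup.center X).subgroupOf N ≤ (Subgroup.center X).comap N.subtype := le_rfl
  let f : (N ⧸ (Subgroup.center X).subgroupOf N) →* (X ⧸ Subgroup.center X) :=
    QuotientGroup.map _ _ N.subtype hle
  have hf : Function.Injective f := by
    rw [injective_iff_map_eq_one]
    intro a ha
    obtain ⟨n, rfl⟩ := QuotientGroup.mk_surjective a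
    rw [QuotientGroup.eq_one_iff, Subgroup.mem_subgroupOf]
    have h1 : f (QuotientGroup.mk n) = QuotientGroup.mk (n : X) := rfl
    rw [h1, QuotientGroup.eq_one_iff] at ha
    exact ha
  have h2 : IsCyclic (Q.map f) := h (Q.map f) (hQ.map f)
  let e : Q ≃* Q.map f := Q.equivMapOfInjective f hf
  exact isCyclic_of_injective e.toMonoidHom e.injective

end Pool.Agent.DPK
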