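import Mathlib
import Pool.Agent.DPK.StmtsE

/-!
# CYS: cyclic Sylow `ℓ`-subgroups and normal simple subgroups
-/

set_option autoImplicit false

namespace Pool.Agent.DPK

open Pool.Agent.DP Pool.Agent.DPC Pool.Agent.DPM Pool.Agent.DPN Pool.Agent.DPT Pool.Agent.DPF
open Pool.Agent.Lib_helper13
open Representation

open scoped commutatorElement in
/-- CYS: cyclic Sylow `ℓ`-subgroups and normal simple subgroups. -/
theorem CYS_thm : Stmt_CYS := by
  classical
  intro A _ _ ℓ _ S P hS hsim hna hℓS hcyc hSP hP hPi
  -- the Sylow subgroups of `P` are cyclic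
  obtain ⟨Q⟩ : Nonempty (Sylow ℓ P) := inferInstance
  have hQ : IsCyclic Q := by
    have h1 : IsCyclic (Subgroup.map P.subtype (Q : Subgroup P)) :=
      hcyc _ (Q.isPGroup'.map P.subtype)
    have e := Subgroup.equivMapOfInjective (Q : Subgroup P) P.subtype P.subtype_injective
    exact isCyclic_of_surjective e.symm e.symm.surjective
  -- `S` is perfect
  have hperf : commutator S = ⊤ := by
    rcases (inferInstance : (commutator S).Normal).eq_bot_or_eq_top with h | h
    · exfalso
      obtain ⟨a, ha, b, hb, hab⟩ := hna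
      apply hab
      have h1 : ⁅(⟨a, ha⟩ : S), (⟨b, hb⟩ : S)⁆ ∈ commutator S := by
        rw [commutator_def]
        exact Subgroup.commutator_mem_commutator (Subgroup.mem_top _) (Subgroup.mem_top _)
      rw [h, Subgroup.mem_bot, commutatorElement_eq_one_iff_mul_comm] at h1
      exact congrArg Subtype.val h1
    · exact h
  have hle : S.subgroupOf P ≤ commutator P := by
    have h1 : S.subgroupOf P = (⊤ : Subgroup S).map (Subgroup.inclusion hSP) := by
      ext x
      constructor
      · intro hx
        exact ⟨⟨x, Subgroup.mem_subgroupOf.mp hx⟩, Subgroup.mem_top _, rfl⟩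
      · rintro ⟨y, -, rfl⟩
        exact Subgroup.mem_subgroupOf.mpr y.2
    rw [h1, ← hperf, commutator_def, Subgroup.map_commutator]
    exact Subgroup.commutator_mono le_top le_top
  have hdvd : ℓ ∣ Nat.card (commutator P) := by
    have h1 : Nat.card (S.subgroupOf P) = Nat.card S :=
      Nat.card_congr (Subgroup.subgroupOfEquivOfLe hSP).toEquiv
    exact (h1 ▸ hℓS).trans (Subgroup.card_dvd_of_le hle)
  have hidx : ¬ ℓ ∣ (commutator P).index :=
    (Sylow.not_dvd_card_commutator_or_not_dvd_index_commutator Q).resolve_left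
      fun h => h hdvd
  -- `P` is perfect
  have hpow : ∀ (N : Subgroup P) [N.Normal], S.subgroupOf P ≤ N → IsPGroup ℓ (P ⧸ N) := by
    intro N _ hSN x
    obtain ⟨y, rfl⟩ := QuotientGroup.mk'_surjective N x
    obtain ⟨k, hk⟩ := hP y y.2
    refine ⟨k, ?_⟩
    rw [← map_pow, QuotientGroup.mk'_apply, QuotientGroup.eq_one_iff]
    exact hSN (Subgroup.mem_subgroupOf.mpr hk)
  have htop : commutator P = ⊤ := by
    obtain ⟨n, hn⟩ := (hpow (commutator P) hle).exists_card_eq
    rw [← Subgroup.index_eq_one]
    rw [Subgroup.index, hn] at hidx ⊢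
    rcases Nat.eq_zero_or_pos n with h | h
    · rw [h, pow_zero]
    · exact absurd (dvd_pow_self ℓ h.ne') hidx
  -- the quotient is trivial
  haveI hSn : (S.subgroupOf P).Normal := hS.subgroupOf P
  haveI : Group.IsPerfect P := ⟨htop⟩
  have hnil : Group.IsNilpotent (P ⧸ S.subgroupOf P) :=
    (hpow (S.subgroupOf P) le_rfl).isNilpotent
  have hsub : Subsingleton (P ⧸ S.subgroupOf P) := by
    by_contra h
    rw [not_subsingleton_iff_nontrivial] at h
    exact Group.IsPerfect.not_isNilpotent (P ⧸ S.subgroupOf P) hnil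
  have hPS : P ≤ S := by
    rw [← Subgroup.subgroupOf_eq_top]
    rw [← Subgroup.index_eq_one, Subgroup.index]
    exact Nat.card_unique
  rw [le_antisymm hSP hPS]
  exact hPi

end Pool.Agent.DPK
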