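import Mathlib
import Pool.Agent.DPK.Stmts
import Pool.Agent.DPT.DDS

/-!
# DDSr: the sum over all chains of `K` (groups of a class)
-/

set_option linter.unusedSectionVars false

namespace Pool.Agent.DPK

open Pool.Agent.DP Pool.Agent.DPC Pool.Agent.DPM Pool.Agent.DPN Pool.Agent.DPT
  Pool.Agent.Lib_helper13
open Representation
open Pool.Agent.Lib_helper13.Dade (pCore DadeHolds dadeSum)

open Classical in
theorem DDSr_thm (Cl : ∀ (Y : Type) [Group Y], Prop) (hCl : GC Cl) (h1 : Stmt_ISOL)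
    (h2 : Stmt_CHC) (h3 : Stmt_DZC) (h4 : Stmt_BTC) (h5 : Stmt_MINX) (h6 : Stmt_DEFA)
    (h7 : Stmt_SUMM) : Stmt_DDSr Cl := by
  intro L K _ _ _ _ 𝔐 ℓ _ hmax hℓ π hπs hUc hcyc μ hinj hClK hHQ M hMn ω d hne0
  have hcore : pCore ℓ K = ⊥ := DDS.CS_core ℓ _ hne0
  have hne := hne0
  rw [DDS.CS_top] at hne
  simp only [DDS.WF_eq] at hne
  -- split according to the central function
  have hfin : (⋃ σ ∈ Ch ℓ (⊥ : Subgroup K), {x : L → (integralClosure ℤ ℂ) ⧸ 𝔐 |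
      ∃ ψ : ↥((stb σ).comap π) → ℂ, IsIrr ψ ∧
      cen 𝔐 ((stb σ).comap π).subtype ψ = x}).Finite := by
    apply Set.Finite.biUnion (Finset.finite_toSet _)
    intro τ _
    exact finite_cen 𝔐 _
  have hC : ∀ σ ∈ Ch ℓ (⊥ : Subgroup K), ∀ ψ : ↥((stb σ).comap π) → ℂ, IsIrr ψ →
      cen 𝔐 ((stb σ).comap π).subtype ψ ∈ hfin.toFinset := by
    intro σ hσ ψ hψ
    rw [Set.Finite.mem_toFinset, Set.mem_iUnion₂]
    exact ⟨σ, hσ, ψ, hψ, rfl⟩
  have hsplit : ∑ σ ∈ Ch ℓ (⊥ : Subgroup K), (-1 : ℚ) ^ σ.card * ((Nat.card (stb σ) : ℚ) *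
      Nat.card {η : ↥((stb σ).comap π) → ℂ // IsIrr η ∧ (OvL π.ker μ _ η ∧
        HasDefect ℓ η d ∧ ∀ g, π g ∈ M → cen 𝔐 ((stb σ).comap π).subtype η g = ω g)}) =
      ∑ x ∈ hfin.toFinset, ∑ σ ∈ Ch ℓ (⊥ : Subgroup K),
        ((-1 : ℚ) ^ σ.card * (Nat.card (stb σ) : ℚ)) *
        Nat.card {η : ↥((stb σ).comap π) → ℂ // IsIrr η ∧ (OvL π.ker μ _ η ∧
          HasDefect ℓ η d ∧ ∀ g, π g ∈ M → cen 𝔐 ((stb σ).comap π).subtype η g = ω g) ∧
          cen 𝔐 ((stb σ).comap π).subtype η = x} := by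
    rw [Finset.sum_comm]
    refine Finset.sum_congr rfl fun σ hσ => ?_
    rw [TD.card_split (fun η : ↥((stb σ).comap π) → ℂ => OvL π.ker μ _ η ∧
        HasDefect ℓ η d ∧ ∀ g, π g ∈ M → cen 𝔐 ((stb σ).comap π).subtype η g = ω g)
      (fun η => cen 𝔐 ((stb σ).comap π).subtype η) hfin.toFinset (hC σ hσ)]
    rw [Nat.cast_sum, Finset.mul_sum, Finset.mul_sum]
    refine Finset.sum_congr rfl fun x _ => ?_
    rw [mul_assoc]
  rw [hsplit] at hne
  obtain ⟨x, -, hx'⟩ := Finset.exists_ne_zero_of_sum_ne_zero hne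
  have hxM : ∀ g, π g ∈ M → x g = ω g := by
    by_contra hxn
    apply hx'
    refine Finset.sum_eq_zero fun σ hσ => ?_
    have hempty : IsEmpty {η : ↥((stb σ).comap π) → ℂ // IsIrr η ∧ (OvL π.ker μ _ η ∧
          HasDefect ℓ η d ∧ ∀ g, π g ∈ M → cen 𝔐 ((stb σ).comap π).subtype η g = ω g) ∧
          cen 𝔐 ((stb σ).comap π).subtype η = x} := by
      constructor
      rintro ⟨η, -, ⟨-, -, h2⟩, h3⟩
      apply hxn
      rw [← h3]
      exact h2
    rw [@Nat.card_of_isEmpty _ hempty, Nat.cast_zero, mul_zero]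
  have hx : ∑ σ ∈ Ch ℓ (⊥ : Subgroup K),
        ((-1 : ℚ) ^ σ.card * (Nat.card (stb σ) : ℚ)) *
        Nat.card {η : ↥((stb σ).comap π) → ℂ // IsIrr η ∧ OvL π.ker μ _ η ∧
          HasDefect ℓ η d ∧ cen 𝔐 ((stb σ).comap π).subtype η = x} ≠ 0 := by
    intro h0
    apply hx'
    rw [← h0]
    refine Finset.sum_congr rfl fun σ _ => ?_
    congr 2
    refine Nat.card_congr (Equiv.subtypeEquivRight fun η => ?_)
    constructor
    · rintro ⟨h1, ⟨h2, h3, -⟩, h4⟩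
      exact ⟨h1, h2, h3, h4⟩
    · rintro ⟨h1, h2, h3, h4⟩
      refine ⟨h1, ⟨h2, h3, ?_⟩, h4⟩
      rw [h4]
      exact hxM
  -- the values of the central function on the kernel
  have hUS : ∀ σ ∈ Ch ℓ (⊥ : Subgroup K), π.ker ≤ (stb σ).comap π := by
    intro σ _ u hu
    rw [Subgroup.mem_comap, MonoidHom.mem_ker.mp hu]
    exact one_mem _
  have hcU : ∀ u ∈ π.ker, ∀ y : L, u * y = y * u := fun u hu y =>
    (Subgroup.mem_center_iff.1 (hUc hu) y).symm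
  have hcu : ∀ (u : L) (h : u ∈ π.ker), x u = red 𝔐 ((μ ⟨u, h⟩ : ℂˣ) : ℂ) := by
    intro u hu
    obtain ⟨τ, hτC, hτ⟩ := Finset.exists_ne_zero_of_sum_ne_zero hx
    have h3 := right_ne_zero_of_mul hτ
    have h4 : Nonempty {η : ↥((stb τ).comap π) → ℂ // IsIrr η ∧ OvL π.ker μ _ η ∧
          HasDefect ℓ η d ∧ cen 𝔐 ((stb τ).comap π).subtype η = x} := by
      by_contra hne
      apply h3
      rw [not_nonempty_iff] at hne
      rw [Nat.card_of_isEmpty, Nat.cast_zero]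
    obtain ⟨η, hη, hov, _, hce⟩ := h4
    have huS : u ∈ (stb τ).comap π := hUS τ hτC hu
    have h5 := PSDB.cen_central 𝔐 ((stb τ).comap π).subtype
      (Subgroup.subtype_injective _) η (y₀ := ⟨u, huS⟩) (by
        intro g
        show g * u * g⁻¹ = u
        rw [← hcU u hu g, mul_inv_cancel_right])
    have h6 : (((stb τ).comap π).subtype ⟨u, huS⟩ : L) = u := rfl
    rw [h6, hce] at h5
    rw [h5]
    congr 1
    have h7 := hov ⟨u, huS⟩ 1 hu
    rw [mul_one] at h7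
    rw [h7, mul_div_assoc, div_self hη.one_ne_zero, mul_one]
  -- isolation
  obtain ⟨L', iL', fL', q', d', c', hq's, hq'U, hq'p, hd', hsum, hlast⟩ :=
    h1 L (Finset (Subgroup K)) 𝔐 ℓ hmax hℓ π.ker μ hUc hcyc hinj (Ch ℓ (⊥ : Subgroup K))
      (fun σ => (-1 : ℚ) ^ σ.card * (Nat.card (stb σ) : ℚ)) (fun σ => (stb σ).comap π) hUS
      d x hx
  -- the projection of the quotient
  let π' : L' →* K := q'.liftOfSurjective hq's ⟨π, hq'U⟩
  have hπ' : ∀ l, π' (q' l) = π l := fun l => MonoidHom.liftOfRightInverse_comp_apply _ _ _ _ l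
  have hπ's : Function.Surjective π' := by
    intro k
    obtain ⟨l, hl⟩ := hπs k
    exact ⟨q' l, by rw [hπ', hl]⟩
  have hπ'k : π'.ker = π.ker.map q' := by
    ext l'
    obtain ⟨l, rfl⟩ := hq's l'
    rw [MonoidHom.mem_ker, hπ', ← MonoidHom.mem_ker, Subgroup.mem_map]
    constructor
    · intro h
      exact ⟨l, h, rfl⟩
    · rintro ⟨u, hu, hul⟩
      have h6 : u⁻¹ * l ∈ q'.ker := by
        rw [MonoidHom.mem_ker, map_mul, map_inv, hul, inv_mul_cancel]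
      have h7 := π.ker.mul_mem hu (hq'U h6)
      rwa [mul_inv_cancel_left] at h7
  have hcent : π'.ker ≤ Subgroup.center L' := by
    rw [hπ'k]
    rintro _ ⟨u, hu, rfl⟩
    rw [Subgroup.mem_center_iff]
    intro g
    obtain ⟨l, rfl⟩ := hq's g
    rw [← map_mul, ← map_mul, Subgroup.mem_center_iff.mp (hUc hu) l]
  have hmap : ∀ V : Subgroup K, (V.comap π).map q' = V.comap π' := by
    intro V
    ext l'
    obtain ⟨l, rfl⟩ := hq's l'
    rw [Subgroup.mem_comap, hπ', Subgroup.mem_map]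
    constructor
    · rintro ⟨u, hu, hul⟩
      rw [Subgroup.mem_comap] at hu
      rwa [← hπ', ← hul, hπ']
    · intro h
      exact ⟨l, h, rfl⟩
  obtain ⟨h8, h9, h10⟩ := h2 L' K ℓ π' hπ's hcent hcore
  have h11 : KK 𝔐 ℓ d' (pCore ℓ L') c' ≠ 0 := by
    have h12 := h10 (fun S => Nat.card S * cnt 𝔐 ℓ d' S.subtype c')
    rw [KK, h12]
    have h13 : ∑ σ ∈ Ch ℓ (⊥ : Subgroup K), (-1 : ℚ) ^ σ.card *
        ((Nat.card ↥((stb σ).comap π') : ℚ) * cnt 𝔐 ℓ d' ((stb σ).comap π').subtype c') =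
        (Nat.card π'.ker : ℚ) * ∑ σ ∈ Ch ℓ (⊥ : Subgroup K),
          (-1 : ℚ) ^ σ.card * (Nat.card (stb σ) : ℚ) *
            cnt 𝔐 ℓ d' (((stb σ).comap π).map q').subtype c' := by
      rw [Finset.mul_sum]
      refine Finset.sum_congr rfl fun σ _ => ?_
      rw [TD.card_comap π' hπ's, hmap, Nat.cast_mul]
      ring
    rw [h13]
    refine mul_ne_zero ?_ hsum
    exact Nat.cast_ne_zero.mpr Nat.card_pos.ne'
  have h14 : (Subgroup.center L').index ≤ Nat.card K := by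
    have h13 : π'.ker.index = Nat.card K := by
      rw [Subgroup.index_ker, MonoidHom.range_eq_top.mpr hπ's]
      exact Nat.card_congr Subgroup.topEquiv.toEquiv
    rw [← h13]
    exact Nat.le_of_dvd (Nat.pos_of_ne_zero Subgroup.index_ne_zero_of_finite)
      (Subgroup.index_dvd_of_le hcent)
  have h15 : DadeHolds ℓ L' := hHQ L' (hCl.up L' K π' hcent hClK) h8 h14
  obtain ⟨-, χ', hχ', -, hχ'c, hχ'd⟩ := h3 L' 𝔐 ℓ hmax hℓ h8 h15 d' c' h11
  -- inflation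
  obtain ⟨hχ₀, hc₀⟩ := DDS.infl 𝔐 hq's hlast hχ' hχ'c
  obtain ⟨e, n, hn, hen⟩ := hχ'.exists_defect (ℓ := ℓ)
  have h16 : e ≤ padicValNat ℓ (Nat.card π'.ker) := by
    have h17 := hχ'd e ⟨n, hn, hen⟩
    rw [h9] at h17
    exact (Nat.pow_le_pow_iff_right (Fact.out : ℓ.Prime).one_lt).mp h17
  have h17 : padicValNat ℓ (Nat.card π.ker) = padicValNat ℓ (Nat.card π'.ker) +
      padicValNat ℓ (Nat.card q'.ker) := by
    have h18 := TD.card_comap q' hq's (π.ker.map q')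
    rw [Subgroup.comap_map_eq_self hq'U] at h18
    rw [h18, hπ'k, mul_comm, padicValNat.mul Nat.card_pos.ne' Nat.card_pos.ne']
  have h18 : padicValNat ℓ (Nat.card L) = padicValNat ℓ (Nat.card L') +
      padicValNat ℓ (Nat.card q'.ker) := by
    have h19 := TD.card_comap q' hq's (⊤ : Subgroup L')
    rw [Subgroup.comap_top, Subgroup.card_top, Subgroup.card_top] at h19
    rw [h19, mul_comm, padicValNat.mul Nat.card_pos.ne' Nat.card_pos.ne']
  have h19 : HasDefect ℓ (fun l : L => χ' (q' l)) (e + padicValNat ℓ (Nat.card q'.ker)) := by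
    refine ⟨n, ?_, ?_⟩
    · show χ' (q' 1) = n
      rw [map_one, hn]
    · omega
  have h20 : padicValNat ℓ (Nat.card π.ker) ≤ e + padicValNat ℓ (Nat.card q'.ker) :=
    DLO.defect_ge h6 ℓ π.ker hUc hχ₀ h19
  have h21 : e + padicValNat ℓ (Nat.card q'.ker) = padicValNat ℓ (Nat.card π.ker) := by omega
  rw [h21] at h19
  -- the Sylow subgroup of the kernel
  obtain ⟨h22, h23, -⟩ := h2 L K ℓ π hπs hUc hcore
  have h24 : pCore ℓ L ≤ π.ker := CHC.core_le_ker hπs hcore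
  have h25 : padicValNat ℓ (Nat.card (pCore ℓ L)) = padicValNat ℓ (Nat.card π.ker) := by
    rw [h23, padicValNat.prime_pow]
  have h26 : ∀ u ∈ π.ker, ∀ k : ℕ, u ^ ℓ ^ k = 1 → u ∈ pCore ℓ L := by
    intro u hu k hk
    refine CHC.le_core_of_central (D := Subgroup.zpowers u) ?_
      (by rw [Subgroup.zpowers_le]; exact hUc hu) (Subgroup.mem_zpowers u)
    rintro ⟨y, hy⟩
    obtain ⟨j, rfl⟩ := Subgroup.mem_zpowers_iff.mp hy
    refine ⟨k, Subtype.ext ?_⟩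
    change (u ^ j) ^ ℓ ^ k = 1
    rw [← zpow_natCast, ← zpow_mul, mul_comm, zpow_mul, zpow_natCast, hk, one_zpow]
  obtain ⟨χ₁, hχ₁, hd₁, hc₁, hov₁⟩ := DDS.exists_over h4 h5 hmax hℓ hUc h24
    (isPGroup_pCore ℓ) h25 h26 μ hχ₀ h19 (by rw [hc₀]; exact hcu)
  -- the restriction
  have hNn : (M.comap π).Normal := hMn.comap π
  have hUM : π.ker ≤ M.comap π := by
    intro u hu
    rw [Subgroup.mem_comap, MonoidHom.mem_ker.mp hu]
    exact M.one_mem
  obtain ⟨θ, hθ, hθd, hθo, hθc⟩ := DDS.exists_restr h6 h7 𝔐 hNn hUM hUc μ hχ₁ hd₁ hov₁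
  refine ⟨ext0 θ, ⟨STB.irrOn_ext0 hθ, ?_⟩, (DDS.ovK_iff π μ M θ).mpr hθo, ?_⟩
  · rw [STB.ext0_coe]
    exact hθd
  · intro g hg
    rw [← STB.cen_eq, hθc g hg, hc₁, hc₀, hxM g hg]

end Pool.Agent.DPK
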