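import Mathlib
import Pool.Agent.DPK.Stmts
import Pool.Agent.DPN.Base

/-!
# DKVr: the chain sums vanish for the groups of a class for which Dade's conjecture is known
-/

set_option autoImplicit false
set_option linter.unusedVariables false

namespace Pool.Agent.DPK

open Pool.Agent.DP Pool.Agent.DPC Pool.Agent.DPM Pool.Agent.DPN Pool.Agent.DPT Pool.Agent.DPF
open Pool.Agent.Lib_helper13
open Representation
open Pool.Agent.Lib_helper13.Dade (pCore DadeHolds dadeSum)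

theorem DKVr_thm (Cl : ∀ (Y : Type) [Group Y], Prop) (hC : GC Cl) (h1 : Stmt_MIXP) :
    Stmt_DKVr Cl := by
  intro Y X _ _ _ _ 𝔐 ℓ hp hmax hℓ n hCl hHR hn Z hZc hZp d hd i P
  obtain ⟨F, hF⟩ := h1 Y X 𝔐 ℓ d Z i P
  rw [hF]
  refine Finset.sum_eq_zero fun ω _ => ?_
  by_contra hK
  have hZn : Z.Normal := by
    refine ⟨fun x hx g => ?_⟩
    have h2 := Subgroup.mem_center_iff.1 (hZc hx) g
    rw [h2, mul_inv_cancel_right]
    exact hx
  have hle : Z ≤ pCore ℓ Y := Pool.Agent.DPM.FINA.le_pCore ℓ Z hZn hZp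
  have hnorm : (pCore ℓ Y).Normal := pCore_normal ℓ
  have hpp : IsPGroup ℓ (pCore ℓ Y) := isPGroup_pCore ℓ
  by_cases hne : Z = pCore ℓ Y
  · have hc : pCore ℓ Y ≤ Subgroup.center Y := by
      rw [← hne]
      exact hZc
    rw [hne] at hK hd
    obtain ⟨h2, -⟩ := all_DZC Y 𝔐 ℓ hmax hℓ hc (hHR Y hCl hc hn) d ω hK
    obtain ⟨k, hk⟩ := hpp.exists_card_eq
    rw [hk, padicValNat.prime_pow] at hd
    rw [hk] at h2
    exact absurd h2 (not_le.2 ((Nat.pow_lt_pow_iff_right hp.out.one_lt).2 hd))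
  · exact hK (KK_eq_zero 𝔐 d hpp (lt_of_le_of_ne hle hne) ω)

end Pool.Agent.DPK
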