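import Mathlib
import Pool.Agent.DPK.Stmts
import Pool.Agent.DPN.FAM

/-!
# FAMr: existence of families of reduced data, for the groups of a class
-/

set_option autoImplicit false
set_option linter.unusedVariables false

namespace Pool.Agent.DPK

open Pool.Agent.DP Pool.Agent.DPC Pool.Agent.DPM Pool.Agent.DPN Pool.Agent.DPT Pool.Agent.DPF
open Pool.Agent.Lib_helper13
open Representation
open Pool.Agent.Lib_helper13.Dade (pCore DadeHolds dadeSum)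

theorem FAMr_thm (Cl : ∀ (Y : Type) [Group Y], Prop) (hC : GC Cl) (h1 : Stmt_RDXr Cl)
    (h2 : Stmt_WFP) (h3 : Stmt_RRN) : Stmt_FAMr Cl := by
  intro O X H _ _ _ _ _ _ 𝔐 ℓ _ hM hℓ j c p h hcore hCl hQ a Z Λ
  classical
  have := Pool.Agent.DPN.FAM.finite_idx h 𝔐 ℓ a Z Λ
  obtain ⟨W, iW, fW, π, hπ, hc, hl, hx⟩ := h2 (Pool.Agent.DPN.FAM.Idx h 𝔐 ℓ a Z Λ) H
    (fun x => ↥(stb x.1.1)) (fun x => ↥(YS j x.1.1)) 𝔐 ℓ hM hℓ (fun _ => a)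
    (fun x => jS h x.1.1) (fun x => pS p j x.1.1) (fun x => x.1.2)
    (fun x => x.2.fp.1)
    (fun x => h1 (stb x.1.1) (YS j x.1.1) H 𝔐 ℓ hM hℓ (jS h x.1.1) (cS h x.1.1)
      (pS p j x.1.1) (clG_S h x.1.1) x.2.fp.1 hcore hCl hQ x.1.2 x.2.irr x.2.fp.2 a x.2.df)
  choose μ' Lm' hR using hx
  let μ : ∀ τ : Finset (Subgroup O), (stb τ → ℂ) → (π.ker →* ℂˣ) := fun τ θ =>
    if hp : Pr h 𝔐 ℓ a Z Λ τ θ then μ' ⟨⟨τ, θ⟩, hp⟩ else 1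
  let Lm : ∀ τ : Finset (Subgroup O), (stb τ → ℂ) → (YS j τ → ℤ) → W →
      (integralClosure ℤ ℂ) ⧸ 𝔐 := fun τ θ =>
    if hp : Pr h 𝔐 ℓ a Z Λ τ θ then Lm' ⟨⟨τ, θ⟩, hp⟩ else 0
  obtain ⟨R, hRR⟩ := h3 O X H W 𝔐 ℓ hM hℓ j c p h a Z Λ π hπ hc hl μ Lm (by
    intro τ θ hp
    have e1 : μ τ θ = μ' ⟨⟨τ, θ⟩, hp⟩ := dif_pos hp
    have e2 : Lm τ θ = Lm' ⟨⟨τ, θ⟩, hp⟩ := dif_pos hp
    rw [e1, e2]
    exact hR ⟨⟨τ, θ⟩, hp⟩)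
  exact ⟨W, iW, fW, π, R, μ, Lm, hRR⟩

end Pool.Agent.DPK
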