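import Mathlib
import Pool.Agent.DPN.FINN
import Pool.Agent.DPK.Stmts

/-!
# FINNr: the quotients without normal `ℓ`-subgroups, for the groups of a class
-/

namespace Pool.Agent.DPK

open Pool.Agent.DP Pool.Agent.DPC Pool.Agent.DPM Pool.Agent.DPN Pool.Agent.DPT Pool.Agent.DPF
open Pool.Agent.Lib_helper13
open Representation
open Pool.Agent.Lib_helper13.Dade (pCore DadeHolds dadeSum)

namespace FINNr

theorem sub_zero {O X H : Type} [Group O] [Fintype O] [Group X] [Fintype X] [Group H] [Fintype H]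
    (Cl : ∀ (Y : Type) [Group Y], Prop) (hGC : GC Cl) (h2 : Stmt_DKVr Cl)
    (𝔐 : Ideal (integralClosure ℤ ℂ)) (ℓ : ℕ) [Fact ℓ.Prime] (hM : 𝔐.IsMaximal)
    (hl : (ℓ : integralClosure ℤ ℂ) ∈ 𝔐) (j : O →* X) (c : X →* MulAut O) (p : X →* H)
    (h : ClG j c p) (hp : Function.Surjective p) (n : ℕ) (hCX : Cl X) (hn : HR Cl ℓ n)
    (hC : Subgroup.center X ≤ j.range) (hi : (Subgroup.center X).index ≤ n + 1)
    (Z : Subgroup O) (hZ : IsPGroup ℓ Z) (hZj : Z.map j ≤ Subgroup.center X) (d : ℕ)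
    (P : Set (X → (integralClosure ℤ ℂ) ⧸ 𝔐)) (hd : padicValNat ℓ (Nat.card Z) < d)
    (V : Subgroup H) (hV : V ≠ ⊤) :
    DK 𝔐 ℓ d ((Z.map j).subgroupOf (V.comap p)) (V.comap p).subtype P = 0 := by
  have hCY : Subgroup.center X ≤ V.comap p := by
    intro x hx
    rw [Subgroup.mem_comap, (h.ker x).mpr (hC hx)]
    exact V.one_mem
  have hCc : (Subgroup.center X).subgroupOf (V.comap p) ≤ Subgroup.center (V.comap p) := by
    intro x hx
    rw [Subgroup.mem_center_iff]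
    intro y
    apply Subtype.ext
    exact Subgroup.mem_center_iff.mp (Subgroup.mem_subgroupOf.mp hx) y
  have hidx : (Subgroup.center (V.comap p)).index ≤ n := by
    have e1 : (Subgroup.center (V.comap p)).index ∣
        ((Subgroup.center X).subgroupOf (V.comap p)).index := Subgroup.index_dvd_of_le hCc
    have e2 : (Subgroup.center X).relIndex (V.comap p) * (V.comap p).index =
        (Subgroup.center X).index := Subgroup.relIndex_mul_index hCY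
    have e3 : (V.comap p).index = V.index := Subgroup.index_comap_of_surjective V hp
    have e4 : V.index ≠ 0 := Subgroup.index_ne_zero_of_finite
    have e5 : V.index ≠ 1 := fun h5 => hV (Subgroup.index_eq_one.mp h5)
    have e6 : (Subgroup.center X).relIndex (V.comap p) ≠ 0 := by
      change ((Subgroup.center X).subgroupOf (V.comap p)).index ≠ 0
      exact Subgroup.index_ne_zero_of_finite
    have e7 : (Subgroup.center (V.comap p)).index ≤ (Subgroup.center X).relIndex (V.comap p) :=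
      Nat.le_of_dvd (Nat.pos_of_ne_zero e6) e1
    rw [e3] at e2
    have e8 : 2 ≤ V.index := by omega
    have e9 : (Subgroup.center X).relIndex (V.comap p) * 2 ≤ (Subgroup.center X).index := by
      rw [← e2]
      exact Nat.mul_le_mul_left _ e8
    omega
  have hZY : Z.map j ≤ V.comap p := hZj.trans hCY
  refine h2 (V.comap p) X 𝔐 ℓ hM hl n (hGC.sub hCX _) hn hidx ((Z.map j).subgroupOf (V.comap p)) ?_ ?_ d ?_ _ P
  · intro x hx
    apply hCc
    exact Subgroup.mem_subgroupOf.mpr (hZj (Subgroup.mem_subgroupOf.mp hx))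
  · exact (hZ.map j).comap_subtype
  · have e1 : Nat.card ((Z.map j).subgroupOf (V.comap p)) = Nat.card Z := by
      rw [Nat.card_congr (Subgroup.subgroupOfEquivOfLe hZY).toEquiv]
      exact (Nat.card_congr (Z.equivMapOfInjective j h.inj).toEquiv).symm
    rw [e1]
    exact hd

end FINNr

open Pool.Agent.DPN.FINN FINNr in
open Classical in
/-- FINNr -/
theorem FINNr_thm (Cl : ∀ (Y : Type) [Group Y], Prop) (hGC : GC Cl) (h1 : Stmt_FF)
    (h2 : Stmt_DKVr Cl) (h3 : Stmt_FAMr Cl) (h4 : Stmt_ABQ) (h5 : Stmt_SUPG) (h6 : Stmt_NUX)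
    (h7 : Stmt_YFFr Cl) (h8 : Stmt_FOU) (h9 : Stmt_PHN) (h10 : Stmt_FNAr Cl) (h11 : Stmt_FNB) :
    Stmt_FINNr Cl := by
  intro O X H _ _ _ _ _ _ 𝔐 ℓ _ hM hl j c p h hp hH n hCX hn hC hi hHn Z hZ hZj d ω hd hne
  obtain ⟨m, hm⟩ := (MOBX_thm H).1
  have hm1 : m ⊤ = 1 := ((MOBX_thm H).2 m hm).1
  have hHQ : HR Cl ℓ (Nat.card H) := hn.mono hHn
  have hCH : Cl H := hGC.im X H p hp hCX
  -- the sum is not zero
  have hFF := h1 O X H 𝔐 ℓ j c p h hp hH Z m hm d {ω}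
  have hL : ∑ V, m V * DK 𝔐 ℓ d ((Z.map j).subgroupOf (V.comap p)) (V.comap p).subtype {ω} =
      DK 𝔐 ℓ d (Z.map j) (MonoidHom.id X) {ω} := by
    rw [Finset.sum_eq_single (⊤ : Subgroup H)]
    · rw [hm1, one_mul]
      exact DK_top 𝔐 ℓ d ((⊤ : Subgroup H).comap p) (Subgroup.comap_top p) (Z.map j) {ω}
    · intro V _ hV
      rw [FINNr.sub_zero Cl hGC h2 𝔐 ℓ hM hl j c p h hp n hCX hn hC hi Z hZ hZj d {ω} hd V hV, mul_zero]
    · intro h'
      exact absurd (Finset.mem_univ _) h'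
  rw [hL] at hFF
  have hne' := hne
  rw [hFF] at hne'
  obtain ⟨τ₀, hτ₀, k1⟩ := Finset.exists_ne_zero_of_sum_ne_zero hne'
  obtain ⟨θ₀, hθ₀, k2⟩ := Finset.exists_ne_zero_of_sum_ne_zero (right_ne_zero_of_mul k1)
  have k3 := right_ne_zero_of_mul k2
  rw [Finset.mem_filter, mem_irrF] at hθ₀
  obtain ⟨hirr₀, hFP₀⟩ := hθ₀
  have hPr := h10 O X H 𝔐 ℓ hM hl j c p h hH hCH hHQ Z d ω m hm τ₀ hτ₀ θ₀ hirr₀ hFP₀ k3
  have hPr₀ := hPr τ₀ hτ₀ θ₀ hirr₀ hFP₀ k3
  obtain ⟨W, _, _, π, R, μ, Lm, hF⟩ := h3 O X H 𝔐 ℓ hM hl j c p h hH hCH hHQ d Z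
    (cen 𝔐 (stb τ₀).subtype θ₀)
  obtain ⟨hR, hRi, hRg⟩ := h4 O X H W 𝔐 ℓ hM hl j c p h d Z _ π R μ Lm hF τ₀ θ₀ hPr₀ m hm ω k3
  haveI : R.Normal := hF.Rn
  obtain ⟨V, hVR, hVc, hVn, hV2, hVx, hVm⟩ := h5 W ℓ R hR hRi hRg
  by_cases hs : Function.Surjective (π.comp V.subtype)
  · refine ⟨?_, ?_, ?_⟩
    · haveI := hVn
      exact Group.nilpotent_of_surjective (π.comp V.subtype) hs
    · intro h'
      exact hVc (h'.trans (Subgroup.card_dvd_of_surjective (π.comp V.subtype) hs))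
    · obtain ⟨x, y, hxy⟩ := hV2
      refine ⟨(π.comp V.subtype) x, (π.comp V.subtype) y, ?_⟩
      have e1 := congrArg (Subgroup.map (π.comp V.subtype)) hxy
      rw [MonoidHom.map_closure, Set.image_pair, ← MonoidHom.range_eq_map,
        MonoidHom.range_eq_top.mpr hs] at e1
      exact e1
  · exfalso
    obtain ⟨ν, hν⟩ := h6 O X H W 𝔐 ℓ hM hl j c p h d Z _ π R μ Lm hF τ₀ θ₀ hPr₀
    -- the index set of the pairs
    let I : Finset ((τ : Finset (Subgroup O)) × (stb τ → ℂ)) :=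
      (Ch ℓ Z).sigma (fun τ => (irrF (stb τ)).filter
        (fun θ => Pr h 𝔐 ℓ d Z (cen 𝔐 (stb τ₀).subtype θ₀) τ θ))
    let s : ((τ : Finset (Subgroup O)) × (stb τ → ℂ)) → ℂ :=
      fun i => (-1 : ℂ) ^ i.1.card * (Nat.card (stb i.1) : ℂ)
    have hI : ∀ i ∈ I, Pr h 𝔐 ℓ d Z (cen 𝔐 (stb τ₀).subtype θ₀) i.1 i.2 := by
      intro i hi'
      exact (Finset.mem_filter.mp (Finset.mem_sigma.mp hi').2).2
    have hsig : ∀ g : (τ : Finset (Subgroup O)) → (stb τ → ℂ) → ℂ,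
        ∑ τ ∈ Ch ℓ Z, (-1 : ℂ) ^ τ.card * ∑ θ ∈ irrF (stb τ) with
          Pr h 𝔐 ℓ d Z (cen 𝔐 (stb τ₀).subtype θ₀) τ θ, (Nat.card (stb τ) : ℂ) * g τ θ =
        ∑ i ∈ I, s i * g i.1 i.2 := by
      intro g
      rw [Finset.sum_sigma]
      refine Finset.sum_congr rfl fun τ _ => ?_
      rw [Finset.mul_sum]
      refine Finset.sum_congr rfl fun θ _ => ?_
      change _ = ((-1 : ℂ) ^ τ.card * (Nat.card (stb τ) : ℂ)) * g τ θ
      rw [mul_assoc]
    have hRV : ∀ x y : V, x * y * x⁻¹ * y⁻¹ ∈ R.subgroupOf V :=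
      fun x y => Subgroup.mem_subgroupOf.mpr (hR x y)
    -- the relations
    have r1 : ∀ x y : V, Subgroup.closure {x, y} = ⊤ → ∑ i ∈ I, s i *
        ((ν i.1 i.2 ⟨(x : W) * y * (x : W)⁻¹ * (y : W)⁻¹, hR x y⟩ : ℂˣ) : ℂ)⁻¹ = 0 := by
      refine h8 V _ I (R.subgroupOf V) hRV s (fun i => (ν i.1 i.2).comp (rV V R)) ?_
        (fun x y => Subgroup.closure {x, y} = ⊤) ?_
      · intro i hi' v r r' hr
        refine hν.inv i.1 i.2 (hI i hi') (v : W) _ _ ?_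
        exact congrArg Subtype.val hr
      · intro χ hχ
        have e1 := h7 O X H W 𝔐 ℓ hM hl j c p h hp n hCX hn hC hi d Z hZ hZj hd _ π R μ Lm hF τ₀ θ₀
          hPr₀ ν hν hR V hVR hVc hVm hs χ hχ
        rw [hsig (fun τ θ => ∑ x : V, ∑ y : V, (if Subgroup.closure {x, y} = ⊤ then
          ((χ ⟨x * y * x⁻¹ * y⁻¹, Subgroup.mem_subgroupOf.mpr (hR x y)⟩ : ℂˣ) : ℂ)⁻¹ *
          ((ν τ θ ⟨(x : W) * y * (x : W)⁻¹ * (y : W)⁻¹, hR x y⟩ : ℂˣ) : ℂ)⁻¹ else 0))] at e1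
        exact e1
    have r2 : ∀ x y : W, Subgroup.closure {x, y} ⊔ R = ⊤ →
        ∑ i ∈ I, s i * ((ν i.1 i.2 ⟨x * y * x⁻¹ * y⁻¹, hR x y⟩ : ℂˣ) : ℂ)⁻¹ = 0 :=
      h11 W _ I R hR V hVR hVx s (fun i => ν i.1 i.2)
        (fun i hi' => hν.inv i.1 i.2 (hI i hi')) r1
    obtain ⟨b, hb⟩ := h9 O X H W 𝔐 ℓ hM hl j c p h d Z _ π R μ Lm hF τ₀ θ₀ hPr₀ ν hν m hm ω
    have hk0 : (Nat.card π.ker : ℂ) ≠ 0 := by
      have : Nat.card π.ker ≠ 0 := Nat.card_pos.ne'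
      exact_mod_cast this
    apply hne
    have key : (Nat.card π.ker : ℂ) *
        ((DK 𝔐 ℓ d (Z.map j) (MonoidHom.id X) {ω} : ℚ) : ℂ) = 0 := by
      rw [hFF, Rat.cast_sum, Finset.mul_sum]
      have e1 : ∀ τ ∈ Ch ℓ Z, (Nat.card π.ker : ℂ) * (((-1 : ℚ) ^ τ.card *
          ∑ θ ∈ irrF (stb τ) with FP h τ θ, (Nat.card (stb τ) : ℚ) * ∑ V, m V *
            ((Nat.card V : ℚ) * NT 𝔐 ℓ d (jS h τ) (pS p j τ) θ (YS j τ).subtype {ω} V) : ℚ) : ℂ) =
          (-1 : ℂ) ^ τ.card * ∑ θ ∈ irrF (stb τ) with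
            Pr h 𝔐 ℓ d Z (cen 𝔐 (stb τ₀).subtype θ₀) τ θ, (Nat.card (stb τ) : ℂ) *
              ((Nat.card π.ker : ℂ) * ((∑ V, m V * ((Nat.card V : ℚ) *
                NT 𝔐 ℓ d (jS h τ) (pS p j τ) θ (YS j τ).subtype {ω} V) : ℚ) : ℂ)) := by
        intro τ hτ
        have e2 : ∑ θ ∈ irrF (stb τ) with
            Pr h 𝔐 ℓ d Z (cen 𝔐 (stb τ₀).subtype θ₀) τ θ, (Nat.card (stb τ) : ℂ) *
              ((Nat.card π.ker : ℂ) * ((∑ V, m V * ((Nat.card V : ℚ) *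
                NT 𝔐 ℓ d (jS h τ) (pS p j τ) θ (YS j τ).subtype {ω} V) : ℚ) : ℂ)) =
            ∑ θ ∈ irrF (stb τ) with FP h τ θ, (Nat.card (stb τ) : ℂ) *
              ((Nat.card π.ker : ℂ) * ((∑ V, m V * ((Nat.card V : ℚ) *
                NT 𝔐 ℓ d (jS h τ) (pS p j τ) θ (YS j τ).subtype {ω} V) : ℚ) : ℂ)) := by
          apply Finset.sum_subset
          · intro θ hθ
            rw [Finset.mem_filter] at hθ ⊢
            exact ⟨hθ.1, hθ.2.fp⟩
          · intro θ hθ hθ'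
            rw [Finset.mem_filter] at hθ hθ'
            by_cases hz : ∑ V, m V * ((Nat.card V : ℚ) *
                NT 𝔐 ℓ d (jS h τ) (pS p j τ) θ (YS j τ).subtype {ω} V) = 0
            · rw [hz, Rat.cast_zero, mul_zero, mul_zero]
            · exact absurd ⟨hθ.1, hPr τ hτ θ (mem_irrF.mp hθ.1) hθ.2 hz⟩ hθ'
        rw [e2, Rat.cast_mul, Rat.cast_sum, Rat.cast_pow, Rat.cast_neg, Rat.cast_one,
          mul_left_comm, Finset.mul_sum]
        refine congrArg _ (Finset.sum_congr rfl fun θ _ => ?_)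
        rw [Rat.cast_mul, Rat.cast_natCast, mul_left_comm]
      rw [Finset.sum_congr rfl e1, hsig]
      have e3 : ∀ i ∈ I, s i * ((Nat.card π.ker : ℂ) * ((∑ V, m V * ((Nat.card V : ℚ) *
          NT 𝔐 ℓ d (jS h i.1) (pS p j i.1) i.2 (YS j i.1).subtype {ω} V) : ℚ) : ℂ)) =
          ∑ x : W, ∑ y : W, (if Subgroup.closure {x, y} ⊔ R = ⊤ then b x y * (s i *
            ((ν i.1 i.2 ⟨x * y * x⁻¹ * y⁻¹, hR x y⟩ : ℂˣ) : ℂ)⁻¹) else 0) := by
        intro i hi'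
        rw [hb i.1 i.2 (hI i hi'), Finset.mul_sum]
        refine Finset.sum_congr rfl fun x _ => ?_
        rw [Finset.mul_sum]
        refine Finset.sum_congr rfl fun y _ => ?_
        rw [dif_pos (hR x y)]
        by_cases hc : Subgroup.closure {x, y} ⊔ R = ⊤
        · rw [if_pos hc, if_pos hc, mul_left_comm]
        · rw [if_neg hc, if_neg hc, mul_zero]
      rw [Finset.sum_congr rfl e3, Finset.sum_comm]
      refine Finset.sum_eq_zero fun x _ => ?_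
      rw [Finset.sum_comm]
      refine Finset.sum_eq_zero fun y _ => ?_
      by_cases hc : Subgroup.closure {x, y} ⊔ R = ⊤
      · simp only [if_pos hc]
        rw [← Finset.mul_sum, r2 x y hc, mul_zero]
      · simp only [if_neg hc]
        exact Finset.sum_const_zero
    have k4 := (mul_eq_zero.mp key).resolve_left hk0
    exact_mod_cast k4

end Pool.Agent.DPK
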