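import Mathlib
import Pool.Agent.DPK.Stmts
import Pool.Agent.DPN.FNA

/-!
# FNAr: the pairs which contribute, for the groups of a class
-/

namespace Pool.Agent.DPK

open Pool.Agent.DP Pool.Agent.DPC Pool.Agent.DPM Pool.Agent.DPN Pool.Agent.Lib_helper13
open Representation
open Pool.Agent.Lib_helper13.Dade (pCore DadeHolds dadeSum)

open Pool.Agent.DPN.FNA in
theorem FNAr_thm (Cl : ∀ (Y : Type) [Group Y], Prop) (_hC : GC Cl) (h1 : Stmt_CONSr Cl)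
    (h2 : Stmt_BEQ) : Stmt_FNAr Cl := by
  intro O X H _ _ _ _ _ _ 𝔐 ℓ _ h𝔐 hℓ j c p h hcore hCl hHR Z d ω m hm τ₀ hτ₀ θ₀ hθ₀ hFP₀ hne₀
    τ hτ θ hθ hFP hne
  have hdf : HasDefect ℓ θ d := by
    obtain ⟨a, ha⟩ := hθ.exists_defect (ℓ := ℓ)
    by_cases hda : d = a
    · rw [hda]
      exact ha
    · exfalso
      exact hne (h1 (stb τ) (YS j τ) H X 𝔐 ℓ h𝔐 hℓ (jS h τ) (cS h τ) (pS p j τ) (clG_S h τ)
        hFP.1 hcore hCl hHR θ hθ hFP.2 a d ha hda (YS j τ).subtype ω m hm)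
  have hk := key 𝔐 ℓ h d ω m τ θ hθ hne
  have hk₀ := key 𝔐 ℓ h d ω m τ₀ θ₀ hθ₀ hne₀
  have hinv := (h2 O X H 𝔐 ℓ h𝔐 hℓ j c p h Z τ₀ hτ₀ θ₀ hθ₀).1 hFP₀
  have hcn := (h2 O X H 𝔐 ℓ h𝔐 hℓ j c p h Z τ hτ θ hθ).2 τ₀ hτ₀ θ₀ hθ₀ hinv
    (fun o => (hk o).symm.trans (hk₀ o))
  exact ⟨hτ, hθ, hdf, hcn, hFP⟩

end Pool.Agent.DPK
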