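import Mathlib
import Pool.Agent.DPK.StmtsD
import Pool.Agent.Lib_helper13.CentSdp

/-!
# GRA: the largest normal `ℓ`-subgroup of the quotient by the centre
-/

set_option autoImplicit false

namespace Pool.Agent.DPK

open Pool.Agent.DP Pool.Agent.DPC Pool.Agent.DPM Pool.Agent.DPN Pool.Agent.DPT Pool.Agent.DPF
open Pool.Agent.Lib_helper13
open Representation
open Pool.Agent.Lib_helper13.Dade (pCore DadeHolds dadeSum)

namespace GRA

theorem val_le {ℓ : ℕ} [Fact ℓ.Prime] {a b : ℕ} (h : a ∣ b) (hb : b ≠ 0) :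
    padicValNat ℓ a ≤ padicValNat ℓ b :=
  (padicValNat_dvd_iff_le hb).mp (dvd_trans pow_padicValNat_dvd h)

/-- The `ℓ`-part of the order of a nilpotent normal subgroup. -/
theorem val_nil {X : Type} [Group X] [Finite X] (ℓ : ℕ) [Fact ℓ.Prime] (M : Subgroup X)
    (hM : M.Normal) (hn : Group.IsNilpotent M) :
    padicValNat ℓ (Nat.card M) ≤ padicValNat ℓ (Nat.card (pCore ℓ X)) := by
  have hprime : ℓ.Prime := Fact.out
  obtain ⟨S⟩ : Nonempty (Sylow ℓ M) := inferInstance
  have hS : (S : Subgroup M).Normal :=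
    ((Group.isNilpotent_of_finite_tfae (G := M)).out 0 3 rfl rfl).mp hn ℓ ‹_› S
  have hc : (S : Subgroup M).Characteristic := Sylow.characteristic_of_normal S hS
  have h1 : ((S : Subgroup M).map M.subtype).Normal := ConjAct.normal_of_characteristic_of_normal
  have h2 : IsPGroup ℓ ((S : Subgroup M).map M.subtype) := S.isPGroup'.map _
  have h3 : (S : Subgroup M).map M.subtype ≤ pCore ℓ X := le_sSup ⟨h1, h2⟩
  have h4 : Nat.card ((S : Subgroup M).map M.subtype) = Nat.card S :=
    (Nat.card_congr ((S : Subgroup M).equivMapOfInjective _ M.subtype_injective).toEquiv).symm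
  have h5 := val_le (ℓ := ℓ) (Subgroup.card_dvd_of_le h3) Nat.card_pos.ne'
  have h6 : padicValNat ℓ (Nat.card S) = padicValNat ℓ (Nat.card M) := by
    rw [S.card_eq_multiplicity, padicValNat.prime_pow, Nat.factorization_def _ hprime]
  rw [h4, h6] at h5
  exact h5

theorem card_eq {X : Type} [Group X] (C M : Subgroup X) (hCM : C ≤ M) :
    Nat.card M = Nat.card C * C.relIndex M := by
  have h1 := Subgroup.card_mul_index (C.subgroupOf M)
  rw [Nat.card_congr (Subgroup.subgroupOfEquivOfLe hCM).toEquiv] at h1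
  exact h1.symm

end GRA

theorem GRA_thm : Stmt_GRA := by
  classical
  intro X K _ _ _ _ ℓ _ π hπ hker hcore
  have hprime : ℓ.Prime := Fact.out
  have hOn : (pCore ℓ K).Normal := pCore_normal ℓ
  have hO : IsPGroup ℓ (pCore ℓ K) := isPGroup_pCore ℓ
  have hYn : ((pCore ℓ K).comap π).Normal := hOn.comap π
  have hk : (π.subgroupComap (pCore ℓ K)).ker ≤ Subgroup.center ↥((pCore ℓ K).comap π) := by
    intro x hx
    have h1 : π (x : X) = 1 := congrArg Subtype.val (MonoidHom.mem_ker.mp hx)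
    have h2 : (x : X) ∈ Subgroup.center X := by
      rw [← hker]
      exact h1
    rw [Subgroup.mem_center_iff] at h2 ⊢
    intro y
    exact Subtype.ext (h2 y)
  have hOnil : Group.IsNilpotent (pCore ℓ K) := hO.isNilpotent
  have hYnil : Group.IsNilpotent ↥((pCore ℓ K).comap π) :=
    Subgroup.isNilpotent_of_ker_le_center _ hk
  have h1 := GRA.val_nil ℓ _ hYn hYnil
  have hZY : π.ker ≤ (pCore ℓ K).comap π := by
    intro x hx
    rw [Subgroup.mem_comap, MonoidHom.mem_ker.mp hx]
    exact one_mem _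
  have h2 := GRA.card_eq π.ker ((pCore ℓ K).comap π) hZY
  have h3 : π.ker.relIndex ((pCore ℓ K).comap π) = Nat.card (pCore ℓ K) := by
    rw [← MonoidHom.comap_bot, Subgroup.relIndex_comap, Subgroup.map_comap_eq_self_of_surjective hπ,
      Subgroup.relIndex_bot_left]
  rw [h3] at h2
  have h4 : pCore ℓ X ≤ π.ker := by
    rw [hker]
    exact hcore
  have h5 := GRA.val_le (ℓ := ℓ) (Subgroup.card_dvd_of_le h4) Nat.card_pos.ne'
  have h6 : padicValNat ℓ (Nat.card ((pCore ℓ K).comap π)) =
      padicValNat ℓ (Nat.card π.ker) + padicValNat ℓ (Nat.card (pCore ℓ K)) := by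
    rw [h2, padicValNat.mul Nat.card_pos.ne' Nat.card_pos.ne']
  obtain ⟨n, hn⟩ := IsPGroup.iff_card.mp hO
  have h7 : padicValNat ℓ (Nat.card (pCore ℓ K)) = n := by
    rw [hn, padicValNat.prime_pow]
  have h8 : n = 0 := by omega
  rw [h8, pow_zero] at hn
  exact Subgroup.card_eq_one.mp hn

end Pool.Agent.DPK
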