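import Mathlib
import Pool.Agent.DPK.StmtsD

/-!
# GRB: the images of `N` and `M` in the quotient by the centre
-/

set_option autoImplicit false

namespace Pool.Agent.DPK

open Pool.Agent.DP Pool.Agent.DPC Pool.Agent.DPM Pool.Agent.DPN Pool.Agent.DPT Pool.Agent.DPF
open Pool.Agent.Lib_helper13
open Representation

namespace GRB

/-- A prime does not divide the index if there are no elements of order `ℓ` in the quotient. -/
theorem not_dvd {X : Type} [Group X] [Finite X] (ℓ : ℕ) [Fact ℓ.Prime] (C M : Subgroup X)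
    (hC : C.Normal) (h : ∀ x ∈ M, x ^ ℓ ∈ C → x ∈ C) : ¬ ℓ ∣ C.relIndex M := by
  have hprime : ℓ.Prime := Fact.out
  intro hd
  have h1 : ℓ ∣ Nat.card (M ⧸ C.subgroupOf M) := hd
  obtain ⟨q, hq⟩ := exists_prime_orderOf_dvd_card' ℓ h1
  obtain ⟨x, rfl⟩ := QuotientGroup.mk_surjective q
  have h2 : ((x ^ ℓ : M) : M ⧸ C.subgroupOf M) = 1 := by
    rw [QuotientGroup.mk_pow, ← hq, pow_orderOf_eq_one]
  rw [QuotientGroup.eq_one_iff, Subgroup.mem_subgroupOf, Subgroup.coe_pow] at h2
  have h3 : ((x : M) : M ⧸ C.subgroupOf M) = 1 := by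
    rw [QuotientGroup.eq_one_iff, Subgroup.mem_subgroupOf]
    exact h x x.2 h2
  rw [h3, orderOf_one] at hq
  exact hprime.one_lt.ne hq

end GRB

theorem GRB_thm : Stmt_GRB := by
  intro X K _ _ _ _ ℓ _ π hπ hk N hN hlt hmin hab
  have hle : π.ker ≤ N := by
    rw [hk]
    exact hlt.le
  have hNn : (N.map π).Normal := hN.map π hπ
  obtain ⟨x, hx, y, hy, hxy⟩ := hab
  have hab' : π x * π y ≠ π y * π x := by
    intro h
    apply hxy
    rw [← hk, MonoidHom.mem_ker, map_mul, map_mul, map_mul, map_inv, map_inv, h]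
    group
  have hmin' : ∀ N' : Subgroup K, N'.Normal → N' ≠ ⊥ → N.map π ≤ N' := by
    intro N' hN' hne
    rw [Subgroup.map_le_iff_le_comap]
    apply hmin _ (hN'.comap π)
    rw [← hk]
    refine lt_of_le_of_ne (Subgroup.ker_le_comap π N') ?_
    intro h
    apply hne
    rw [eq_bot_iff]
    intro z hz
    obtain ⟨w, rfl⟩ := hπ z
    have hw : w ∈ π.ker := by
      rw [h]
      exact hz
    rw [Subgroup.mem_bot]
    exact hw
  refine ⟨hNn, ?_, hmin', ⟨π x, Subgroup.mem_map_of_mem π hx, π y, Subgroup.mem_map_of_mem π hy,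
    hab'⟩, ?_, ?_, ?_⟩
  · intro h
    apply hab'
    have h1 : π x ∈ N.map π := Subgroup.mem_map_of_mem π hx
    rw [h, Subgroup.mem_bot] at h1
    rw [h1, one_mul, mul_one]
  · by_contra hne
    have h1 := hmin' (Subgroup.centralizer (N.map π : Set K)) inferInstance hne
    have h2 := h1 (Subgroup.mem_map_of_mem π hx)
    rw [Subgroup.mem_centralizer_iff] at h2
    exact hab' (h2 (π y) (Subgroup.mem_map_of_mem π hy)).symm
  · intro hs
    have hker : (π.subgroupMap N).ker = (Subgroup.center X).subgroupOf N := by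
      ext z
      rw [MonoidHom.mem_ker, Subgroup.mem_subgroupOf, ← hk, MonoidHom.mem_ker]
      constructor
      · intro h
        exact congrArg Subtype.val h
      · intro h
        exact Subtype.ext h
    have e : (N ⧸ (Subgroup.center X).subgroupOf N) ≃* N.map π :=
      (QuotientGroup.quotientMulEquivOfEq hker.symm).trans
        (QuotientGroup.quotientKerEquivOfSurjective _ (π.subgroupMap_surjective N))
    exact (MulEquiv.isSimpleGroup_congr e).mpr hs
  · intro M hNM hM
    refine ⟨Subgroup.map_mono hNM, ?_⟩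
    rw [Subgroup.relIndex_map_map, sup_eq_left.mpr hle, sup_eq_left.mpr (hle.trans hNM)]
    exact GRB.not_dvd ℓ N M hN hM

end Pool.Agent.DPK
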