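import Pool.Agent.DPK.StmtsD
import Pool.Agent.DPT.BLM

/-!
# OSR: characters whose central functions agree on the elements of order prime to `ℓ`
-/

set_option autoImplicit false
set_option linter.unusedSectionVars false

namespace Pool.Agent.DPK

open Pool.Agent.DP Pool.Agent.DPC Pool.Agent.DPM Pool.Agent.DPN Pool.Agent.DPT Pool.Agent.DPF
open Pool.Agent.Lib_helper13
open Representation

/-- OSR: characters whose central functions agree on the elements of order prime to `ℓ`. -/
theorem OSR_thm (h1 : Pool.Agent.DPX.Stmt_VALX) (h2 : Pool.Agent.DPX.Stmt_IDOX)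
    (h3 : Pool.Agent.DPX.Stmt_OSIX) : Stmt_OSR := by
  classical
  intro T _ _ 𝔐 ℓ _ hmax hℓ χ χ' hχ hχ' hag
  by_contra hcon
  obtain ⟨O, hO⟩ := h1 𝔐 ℓ hmax hℓ
  obtain ⟨eh, he1, he2, he3, -⟩ := h2 𝔐 ℓ hmax hℓ O hO T χ hχ
  let ε : T → ℂ := fun x => (eh x : ℂ)
  have hεO : ∀ g, ε g ∈ O := fun g => (eh g).2
  have hεc : ∀ g x, ε (g * x * g⁻¹) = ε x := by
    intro g x
    exact congrArg (fun t : O => (t : ℂ)) (he1 g x)
  have hw1 : wt χ ε = 1 := by
    have h : wt χ ε =
        if cen 𝔐 (MonoidHom.id T) χ = cen 𝔐 (MonoidHom.id T) χ then 1 else 0 := he3 χ hχ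
    rw [h, if_pos rfl]
  have hw0 : wt χ' ε = 0 := by
    have h : wt χ' ε =
        if cen 𝔐 (MonoidHom.id T) χ' = cen 𝔐 (MonoidHom.id T) χ then 1 else 0 := he3 χ' hχ'
    rw [h, if_neg (fun h => hcon h.symm)]
  have hd : ∀ g, ℓ ∣ orderOf g → ε g = 0 := by
    intro g hg
    have h4 := h3 T 𝔐 ℓ hmax hℓ χ hχ g⁻¹ (by rw [orderOf_inv]; exact hg)
    have h5 : ε g = _ := he2 g
    rw [h5, div_eq_zero_iff]
    left
    rw [← h4]
  obtain ⟨F, hF⟩ := exists_lift_class ε hεc
  have hexp : ∀ ψ : T → ℂ, wt ψ ε = ∑ K : ConjClasses T, F K *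
      wt ψ (fun y => if ConjClasses.mk (id y) = K then 1 else 0) := by
    intro ψ
    have e1 : ε = fun y => F (ConjClasses.mk (id y)) := by
      funext y
      exact (hF y).symm
    rw [e1]
    exact wt_comp_classes id ψ F
  have hdiff : (1 : ℂ) = ∑ K : ConjClasses T, F K *
      (wt χ (fun y => if ConjClasses.mk (id y) = K then 1 else 0) -
        wt χ' (fun y => if ConjClasses.mk (id y) = K then 1 else 0)) := by
    have e1 : wt χ ε - wt χ' ε = 1 := by rw [hw1, hw0, sub_zero]
    refine e1.symm.trans ?_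
    rw [hexp, hexp, ← Finset.sum_sub_distrib]
    exact Finset.sum_congr rfl fun K _ => (mul_sub _ _ _).symm
  have hlt : O.valuation (∑ K : ConjClasses T, F K *
      (wt χ (fun y => if ConjClasses.mk (id y) = K then 1 else 0) -
        wt χ' (fun y => if ConjClasses.mk (id y) = K then 1 else 0))) < 1 := by
    refine Valuation.map_sum_lt O.valuation one_ne_zero fun K _ => ?_
    obtain ⟨x, rfl⟩ := ConjClasses.mk_surjective K
    rw [hF]
    by_cases hx : ℓ ∣ orderOf x
    · rw [hd x hx, zero_mul, map_zero]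
      exact zero_lt_one
    · have hind : (fun y : T => if ConjClasses.mk (id y) = ConjClasses.mk x then (1 : ℂ) else 0) =
          fun y => conjInd y x := by
        funext y
        exact conjInd_eq ConjClasses.mk_eq_mk_iff_isConj
      rw [hind]
      have h6 : red 𝔐 (wt χ (fun y => conjInd y x)) = red 𝔐 (wt χ' (fun y => conjInd y x)) :=
        hag x hx
      rw [red_eq_iff 𝔐 (BLM.isIntegral_wt_ind hχ x) (BLM.isIntegral_wt_ind hχ' x)] at h6
      obtain ⟨m, hm, hm'⟩ := h6
      rw [← hm', map_mul]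
      have h7 : O.valuation (m : ℂ) < 1 := (hO.max m).1 hm
      have h8 : O.valuation (ε x) ≤ 1 := (O.valuation_le_one_iff _).2 (hεO x)
      calc O.valuation (ε x) * O.valuation (m : ℂ) ≤ 1 * O.valuation (m : ℂ) :=
            mul_le_mul_left h8 _
        _ < 1 := by rw [one_mul]; exact h7
  rw [← hdiff, map_one] at hlt
  exact lt_irrefl _ hlt

end Pool.Agent.DPK
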