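import Mathlib
import Pool.Agent.DPK.StmtsD

/-!
# OUI: the index of a normal subgroup and the outer automorphism group
-/

set_option autoImplicit false

namespace Pool.Agent.DPK

open Pool.Agent.DP Pool.Agent.DPC Pool.Agent.DPM Pool.Agent.DPN Pool.Agent.DPT Pool.Agent.DPF
open Pool.Agent.Lib_helper13
open Representation
open Pool.Agent.Lib_helper13.Dade (pCore DadeHolds dadeSum)

namespace OUI

variable {X : Type} [Group X] (N : Subgroup X)

theorem map_eq (hN : N.Normal) (x : X) :
    ((Subgroup.center X).subgroupOf N).map (MulAut.conjNormal (H := N) x : N ≃* N) =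
      (Subgroup.center X).subgroupOf N := by
  ext y
  rw [Subgroup.mem_map]
  constructor
  · rintro ⟨z, hz, rfl⟩
    rw [Subgroup.mem_subgroupOf] at hz ⊢
    have h1 : ((MulAut.conjNormal x z : N) : X) = x * z * x⁻¹ := MulAut.conjNormal_apply x z
    show ((MulAut.conjNormal x z : N) : X) ∈ Subgroup.center X
    rw [h1]
    exact (inferInstance : (Subgroup.center X).Normal).conj_mem _ hz x
  · intro hy
    rw [Subgroup.mem_subgroupOf] at hy
    refine ⟨y, Subgroup.mem_subgroupOf.mpr hy, ?_⟩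
    apply Subtype.ext
    show ((MulAut.conjNormal x y : N) : X) = y
    rw [MulAut.conjNormal_apply, Subgroup.mem_center_iff.mp hy x, mul_inv_cancel_right]

/-- The action of `X` on `N / Z(X)`. -/
noncomputable def act (hN : N.Normal) : X →* MulAut (N ⧸ (Subgroup.center X).subgroupOf N) where
  toFun x := QuotientGroup.congr _ _ (MulAut.conjNormal (H := N) x : N ≃* N) (map_eq N hN x)
  map_one' := by
    apply MulEquiv.ext
    intro q
    obtain ⟨y, rfl⟩ := QuotientGroup.mk'_surjective _ q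
    show QuotientGroup.mk' _ (MulAut.conjNormal (1 : X) y) = QuotientGroup.mk' _ y
    rw [map_one]
    rfl
  map_mul' := by
    intro a b
    apply MulEquiv.ext
    intro q
    obtain ⟨y, rfl⟩ := QuotientGroup.mk'_surjective _ q
    show QuotientGroup.mk' _ (MulAut.conjNormal (a * b) y) =
      QuotientGroup.mk' _ (MulAut.conjNormal a (MulAut.conjNormal b y))
    rw [map_mul]
    rfl

theorem act_mk (hN : N.Normal) (x : X) (y : N) :
    act N hN x (QuotientGroup.mk y) = QuotientGroup.mk (MulAut.conjNormal (H := N) x y) := rfl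

theorem ker_le (hN : N.Normal) (hZ : Subgroup.center X ≤ N)
    (h : ∀ x, (∀ y ∈ N, x * y * x⁻¹ * y⁻¹ ∈ Subgroup.center X) → x ∈ Subgroup.center X) :
    (act N hN).ker ≤ N := by
  intro x hx
  apply hZ
  apply h
  intro y hy
  have h1 : act N hN x = 1 := hx
  have h2 := act_mk N hN x ⟨y, hy⟩
  rw [h1, MulAut.one_apply, QuotientGroup.eq, Subgroup.mem_subgroupOf] at h2
  have h3 : (((⟨y, hy⟩ : N)⁻¹ * MulAut.conjNormal (H := N) x ⟨y, hy⟩ : N) : X) =
      y⁻¹ * (x * y * x⁻¹) := by
    rw [Subgroup.coe_mul, MulAut.conjNormal_apply]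
    rfl
  rw [h3] at h2
  have h4 := (inferInstance : (Subgroup.center X).Normal).conj_mem _ h2 y
  have h5 : y * (y⁻¹ * (x * y * x⁻¹)) * y⁻¹ = x * y * x⁻¹ * y⁻¹ := by group
  rwa [h5] at h4

theorem map_act (hN : N.Normal) : N.map (act N hN) =
    (MulAut.conj : (N ⧸ (Subgroup.center X).subgroupOf N) →*
      MulAut (N ⧸ (Subgroup.center X).subgroupOf N)).range := by
  have h1 : ∀ n : N, act N hN n = MulAut.conj (n : N ⧸ (Subgroup.center X).subgroupOf N) := by
    intro n
    apply MulEquiv.ext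
    intro q
    obtain ⟨y, rfl⟩ := QuotientGroup.mk'_surjective _ q
    have h2 : MulAut.conjNormal (H := N) (n : X) y = n * y * n⁻¹ := by
      apply Subtype.ext
      rw [MulAut.conjNormal_apply]
      rfl
    show QuotientGroup.mk' _ (MulAut.conjNormal (n : X) y) =
      (n : N ⧸ (Subgroup.center X).subgroupOf N) * QuotientGroup.mk' _ y *
        (n : N ⧸ (Subgroup.center X).subgroupOf N)⁻¹
    rw [h2]
    rfl
  ext f
  rw [Subgroup.mem_map, MonoidHom.mem_range]
  constructor
  · rintro ⟨n, hn, rfl⟩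
    exact ⟨((⟨n, hn⟩ : N) : N ⧸ (Subgroup.center X).subgroupOf N), (h1 ⟨n, hn⟩).symm⟩
  · rintro ⟨q, rfl⟩
    obtain ⟨n, rfl⟩ := QuotientGroup.mk'_surjective _ q
    exact ⟨n, n.2, h1 n⟩

end OUI

open OUI in
theorem OUI_thm : Stmt_OUI := by
  intro X _ _ N hN hZ h
  rw [← map_act N hN, Subgroup.index_map, sup_eq_left.mpr (ker_le N hN hZ h)]
  exact Dvd.intro _ rfl

end Pool.Agent.DPK
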