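import Mathlib
import Pool.Agent.DPK.Stmts
import Pool.Agent.DPT.OUT1

/-!
# A normal subgroup with quotient in the class (OUT1), for the groups of a class
-/

namespace Pool.Agent.DPK

open Pool.Agent.DP Pool.Agent.DPC Pool.Agent.DPM Pool.Agent.DPN Pool.Agent.DPT Pool.Agent.Lib_helper13
open Representation
open Pool.Agent.Lib_helper13.Dade (pCore DadeHolds dadeSum)

open Pool.Agent.DPT.OUT1 in
theorem OUT1r_thm (Cl : ∀ (Y : Type) [Group Y], Prop) (_ : GC Cl) (h1 : Stmt_OUTFr Cl)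
    (h2 : Stmt_FINNr Cl) (h3 : Stmt_OUTN) (h4 : Stmt_OUTG) (h5 : Stmt_STBr Cl) (h6 : Stmt_KEYN)
    (h7 : Stmt_SUMM) : Stmt_OUT1r Cl := by
  intro X _ _ 𝔐 ℓ _ hM hℓ hc hCX hQ d ω hd hK N hN hlt
  have hprime : 𝔐.IsPrime := hM.isPrime
  have hPn := PP_normal ℓ N
  have hNP := le_PP ℓ N
  have hfin : Fintype (X ⧸ PP ℓ N) := Fintype.ofFinite _
  have hcP : pCore ℓ X ≤ PP ℓ N := hc.trans (hlt.le.trans hNP)
  have hmap : ((pCore ℓ X).subgroupOf (PP ℓ N)).map (PP ℓ N).subtype = pCore ℓ X :=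
    Subgroup.map_subgroupOf_eq_of_le hcP
  have hi : (Subgroup.center X).index ≠ 0 := Subgroup.index_ne_zero_of_finite
  have hlt' : N.index < (Subgroup.center X).index := Subgroup.index_strictAnti hlt
  have hle : (PP ℓ N).index ≤ N.index :=
    Nat.le_of_dvd (Nat.pos_of_ne_zero Subgroup.index_ne_zero_of_finite)
      (Subgroup.index_dvd_of_le hNP)
  have hd' : padicValNat ℓ (Nat.card ((pCore ℓ X).subgroupOf (PP ℓ N))) < d := by
    rw [Nat.card_congr (Subgroup.subgroupOfEquivOfLe hcP).toEquiv]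
    exact hd
  have hK' : DK 𝔐 ℓ d (((pCore ℓ X).subgroupOf (PP ℓ N)).map (PP ℓ N).subtype)
      (MonoidHom.id X) {ω} ≠ 0 := by
    rw [hmap, DK_eq]
    exact hK
  have hr : Subgroup.center X ≤ (PP ℓ N).subtype.range := by
    rw [Subgroup.range_subtype]
    exact hlt.le.trans hNP
  have hcard : Nat.card (X ⧸ PP ℓ N) ≤ (Subgroup.center X).index - 1 := by
    rw [← Subgroup.index_eq_card]
    omega
  have hZp : IsPGroup ℓ ((pCore ℓ X).subgroupOf (PP ℓ N)) :=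
    (isPGroup_pCore (G := X) ℓ).comap_subtype
  have hcore := core_quot ℓ N (PP ℓ N) rfl
  have hF := h2 (PP ℓ N) X (X ⧸ PP ℓ N) 𝔐 ℓ hM hℓ (PP ℓ N).subtype
    (MulAut.conjNormal (H := PP ℓ N)) (QuotientGroup.mk' (PP ℓ N)) (clG X (PP ℓ N))
    (QuotientGroup.mk'_surjective _) hcore ((Subgroup.center X).index - 1) hCX hQ hr
    (by omega) hcard ((pCore ℓ X).subgroupOf (PP ℓ N)) hZp (by rw [hmap]; exact hc) d ω hd' hK'
  obtain ⟨W, _, _, π, R, μ, Lm, τ, θ, hFam, hPr, hω, hcom, -⟩ := h1 (PP ℓ N) X (X ⧸ PP ℓ N)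
    𝔐 ℓ hM hℓ (PP ℓ N).subtype
    (MulAut.conjNormal (H := PP ℓ N)) (QuotientGroup.mk' (PP ℓ N)) (clG X (PP ℓ N))
    (QuotientGroup.mk'_surjective _) hcore ((Subgroup.center X).index - 1) hCX hQ hr
    (by omega) hcard ((pCore ℓ X).subgroupOf (PP ℓ N)) hZp (by rw [hmap]; exact hc) d ω hd' hK'
  obtain ⟨χ, hχ, hχθ⟩ := exists_irr_of_mult 𝔐 hPr.irr
    (exists_irr_of_chain 𝔐 hℓ (mem_Ch.1 hPr.ch) hPr.irr)
  obtain ⟨ξ, hξ, hip, hcg⟩ := exists_xi h7 𝔐 hN hNP hχ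
  have hag : ∀ x ∈ N, cgT 𝔐 ⊤ ξ x = ω x := by
    intro x hx
    rw [hcg x hx]
    have e1 := hω ⟨x, hNP hx⟩
    have hf : ∀ g y : PP ℓ N, conjInd ((PP ℓ N).subtype (g * y * g⁻¹)) x =
        conjInd ((PP ℓ N).subtype y) x := by
      intro g y
      rw [map_mul, map_mul, map_inv, conjInd_conj]
    have e2 := red_wt_eq_pair 𝔐 (MonoidHom.id (PP ℓ N)) hχ
      (fun o => conjInd ((PP ℓ N).subtype o) x) hf (fun o => isIntegral_conjInd _ _)
    have e3 := red_wt_eq_pair 𝔐 (stb τ).subtype hPr.irr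
      (fun o => conjInd ((PP ℓ N).subtype o) x) hf (fun o => isIntegral_conjInd _ _)
    rw [hχθ] at e2
    refine Eq.trans e2 (Eq.trans e3.symm ?_)
    exact e1.symm
  have hst := h5 X 𝔐 ℓ hM hℓ ((Subgroup.center X).index - 1) hCX hQ (by omega) (pCore ℓ X) N hc
    (isPGroup_pCore (G := X) ℓ) hN d hd ω hK ξ hξ hag
  have hRn := hFam.Rn
  refine h4 X ℓ N (PP ℓ N) ((R.map π).comap (QuotientGroup.mk' (PP ℓ N))) hN hPn
    ((hRn.map π hFam.πs).comap _) hNP ?_ (pow_mem ℓ N) ?_ ?_ ?_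
  · intro x hx
    have h : QuotientGroup.mk' (PP ℓ N) x = 1 := (QuotientGroup.eq_one_iff x).2 hx
    rw [Subgroup.mem_comap, h]
    exact one_mem _
  · intro x y
    obtain ⟨w, hw⟩ := hFam.πs (QuotientGroup.mk' (PP ℓ N) x)
    obtain ⟨w', hw'⟩ := hFam.πs (QuotientGroup.mk' (PP ℓ N) y)
    rw [Subgroup.mem_comap, map_mul, map_mul, map_mul, map_inv, map_inv, ← hw, ← hw']
    refine Subgroup.mem_map.2 ⟨_, hcom w w', ?_⟩
    rw [map_mul, map_mul, map_mul, map_inv, map_inv]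
  · intro x hx
    have h := ne_zero_of_core hF.2.1 (QuotientGroup.mk' (PP ℓ N)) x (by
      rw [← map_pow]
      exact (QuotientGroup.eq_one_iff _).2 hx)
    exact (QuotientGroup.eq_one_iff x).1 h
  · intro x hx
    obtain ⟨r, hr1, hr2⟩ := Subgroup.mem_map.1 (Subgroup.mem_comap.1 hx)
    exact core h3 h6 X 𝔐 ℓ hM hℓ N (PP ℓ N) hN hPn hNP (pow_mem ℓ N) (X ⧸ PP ℓ N) W
      (QuotientGroup.mk' (PP ℓ N)) (MulAut.conjNormal (H := PP ℓ N)) (clG X (PP ℓ N)) d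
      ((pCore ℓ X).subgroupOf (PP ℓ N)) π R μ Lm τ θ hFam hPr χ hχ hχθ ξ hξ hip
      (by rw [hst]; exact le_top) x r hr1 hr2.symm

end Pool.Agent.DPK
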