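import Mathlib
import Pool.Agent.DPK.Stmts
import Pool.Agent.DPT.OUT2

/-!
# Dade's conjecture for the groups of a class: a normal subgroup with quotient in the class which
lies in the support of the block (OUT2r)
-/

namespace Pool.Agent.DPK

open Pool.Agent.DP Pool.Agent.DPC Pool.Agent.DPM Pool.Agent.DPN Pool.Agent.DPT Pool.Agent.DPF
open Pool.Agent.Lib_helper13
open Representation
open Pool.Agent.Lib_helper13.Dade (pCore DadeHolds dadeSum)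

open Pool.Agent.DPT.OUT1 Pool.Agent.DPT.OUT2 in
theorem OUT2r_thm (Cl : ∀ (Y : Type) [Group Y], Prop) (hC : GC Cl) (h1 : Stmt_OUTFr Cl)
    (h2 : Stmt_FINNr Cl) (h3 : Stmt_OUTM) (h4 : Stmt_OUTS) (h5 : Stmt_OUTH) (h6 : Stmt_STBr Cl)
    (h7 : Stmt_KEYN) (h8 : Stmt_CVX) (h9 : Stmt_SUMM) : Stmt_OUT2r Cl := by
  intro X _ _ 𝔐 ℓ _ hM hℓ hc hX hQ d ω hd hK N hN hlt
  have hprime : 𝔐.IsPrime := hM.isPrime
  have hPn := PP_normal ℓ N
  have hNP := le_PP ℓ N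
  have hfin : Fintype (X ⧸ PP ℓ N) := Fintype.ofFinite _
  have hcP : pCore ℓ X ≤ PP ℓ N := hc.trans (hlt.le.trans hNP)
  have hmap : ((pCore ℓ X).subgroupOf (PP ℓ N)).map (PP ℓ N).subtype = pCore ℓ X :=
    Subgroup.map_subgroupOf_eq_of_le hcP
  have hi : (Subgroup.center X).index ≠ 0 := Subgroup.index_ne_zero_of_finite
  have hlt' : N.index < (Subgroup.center X).index := Subgroup.index_strictAnti hlt
  have hle : (PP ℓ N).index ≤ N.index :=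
    Nat.le_of_dvd (Nat.pos_of_ne_zero Subgroup.index_ne_zero_of_finite)
      (Subgroup.index_dvd_of_le hNP)
  have hd' : padicValNat ℓ (Nat.card ((pCore ℓ X).subgroupOf (PP ℓ N))) < d := by
    rw [Nat.card_congr (Subgroup.subgroupOfEquivOfLe hcP).toEquiv]
    exact hd
  have hK' : DK 𝔐 ℓ d (((pCore ℓ X).subgroupOf (PP ℓ N)).map (PP ℓ N).subtype)
      (MonoidHom.id X) {ω} ≠ 0 := by
    rw [hmap, DK_eq]
    exact hK
  have hr : Subgroup.center X ≤ (PP ℓ N).subtype.range := by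
    rw [Subgroup.range_subtype]
    exact hlt.le.trans hNP
  have hcard : Nat.card (X ⧸ PP ℓ N) ≤ (Subgroup.center X).index - 1 := by
    rw [← Subgroup.index_eq_card]
    omega
  have hZp : IsPGroup ℓ ((pCore ℓ X).subgroupOf (PP ℓ N)) :=
    (isPGroup_pCore (G := X) ℓ).comap_subtype
  have hcore := core_quot ℓ N (PP ℓ N) rfl
  have hF := h2 (PP ℓ N) X (X ⧸ PP ℓ N) 𝔐 ℓ hM hℓ (PP ℓ N).subtype
    (MulAut.conjNormal (H := PP ℓ N)) (QuotientGroup.mk' (PP ℓ N)) (clG X (PP ℓ N))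
    (QuotientGroup.mk'_surjective _) hcore ((Subgroup.center X).index - 1) hX hQ hr
    (by omega) hcard ((pCore ℓ X).subgroupOf (PP ℓ N)) hZp (by rw [hmap]; exact hc) d ω hd' hK'
  obtain ⟨W, _, _, π, R, μ, Lm, τ, θ, hFam, hPr, hω, hcom, -⟩ := h1 (PP ℓ N) X (X ⧸ PP ℓ N)
    𝔐 ℓ hM hℓ (PP ℓ N).subtype
    (MulAut.conjNormal (H := PP ℓ N)) (QuotientGroup.mk' (PP ℓ N)) (clG X (PP ℓ N))
    (QuotientGroup.mk'_surjective _) hcore ((Subgroup.center X).index - 1) hX hQ hr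
    (by omega) hcard ((pCore ℓ X).subgroupOf (PP ℓ N)) hZp (by rw [hmap]; exact hc) d ω hd' hK'
  obtain ⟨χ, hχ, hχθ⟩ := exists_irr_of_mult 𝔐 hPr.irr
    (exists_irr_of_chain 𝔐 hℓ (mem_Ch.1 hPr.ch) hPr.irr)
  obtain ⟨ξ₁, hξ₁, hip, hcg⟩ := exists_xi h9 𝔐 hN hNP hχ
  have hag : ∀ x ∈ N, cgT 𝔐 ⊤ ξ₁ x = ω x := by
    intro x hx
    rw [hcg x hx]
    have e1 := hω ⟨x, hNP hx⟩
    have hf : ∀ g y : PP ℓ N, conjInd ((PP ℓ N).subtype (g * y * g⁻¹)) x =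
        conjInd ((PP ℓ N).subtype y) x := by
      intro g y
      rw [map_mul, map_mul, map_inv, conjInd_conj]
    have e2 := red_wt_eq_pair 𝔐 (MonoidHom.id (PP ℓ N)) hχ
      (fun o => conjInd ((PP ℓ N).subtype o) x) hf (fun o => isIntegral_conjInd _ _)
    have e3 := red_wt_eq_pair 𝔐 (stb τ).subtype hPr.irr
      (fun o => conjInd ((PP ℓ N).subtype o) x) hf (fun o => isIntegral_conjInd _ _)
    rw [hχθ] at e2
    refine Eq.trans e2 (Eq.trans e3.symm ?_)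
    exact e1.symm
  have hstab : ∀ ξ : X → ℂ, IrrOn N ξ → (∀ x ∈ N, cgT 𝔐 ⊤ ξ x = ω x) →
      sx (cgT 𝔐 N ξ) = ⊤ := fun ξ hξ hag' =>
    h6 X 𝔐 ℓ hM hℓ ((Subgroup.center X).index - 1) hX hQ (by omega) (pCore ℓ X) N hc
      (isPGroup_pCore (G := X) ℓ) hN d hd ω hK ξ hξ hag'
  have hst := hstab ξ₁ hξ₁ hag
  have hRn := hFam.Rn
  -- the two elements for `x` in the inverse image of `R`
  have hel : ∀ x ∈ (R.map π).comap (QuotientGroup.mk' (PP ℓ N)), ∃ y y',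
      x⁻¹ * y ∈ PP ℓ N ∧ x * y' ∈ PP ℓ N ∧
      (∀ o ∈ PP ℓ N, ∃ n ∈ N, o * y * o⁻¹ = n * y * n⁻¹) ∧
      (∀ o ∈ PP ℓ N, ∃ n ∈ N, o * y' * o⁻¹ = n * y' * n⁻¹) ∧
      red 𝔐 (wt χ (fun o => ((conv (clO (PP ℓ N) y) (clO (PP ℓ N) y') (o : X) : ℤ) : ℂ))) ≠
        0 := by
    intro x hx
    obtain ⟨r, hr1, hr2⟩ := Subgroup.mem_map.1 (Subgroup.mem_comap.1 hx)
    exact Pool.Agent.DPT.OUT2.core h3 h7 X 𝔐 ℓ hM hℓ N (PP ℓ N) hN hPn hNP (pow_mem ℓ N) (X ⧸ PP ℓ N) W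
      (QuotientGroup.mk' (PP ℓ N)) (MulAut.conjNormal (H := PP ℓ N)) (clG X (PP ℓ N)) d
      ((pCore ℓ X).subgroupOf (PP ℓ N)) π R μ Lm τ θ hFam hPr χ hχ hχθ ξ₁ hξ₁ hip
      (by rw [hst]; exact le_top) x r hr1 hr2.symm
  obtain ⟨M, hMn, hNM, hMQ, hMℓ, hMm, hMO, hMH⟩ := h5 X ℓ N (PP ℓ N)
    ((R.map π).comap (QuotientGroup.mk' (PP ℓ N))) hN hPn ((hRn.map π hFam.πs).comap _) hNP
    (by
      intro x hx
      have h : QuotientGroup.mk' (PP ℓ N) x = 1 := (QuotientGroup.eq_one_iff x).2 hx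
      rw [Subgroup.mem_comap, h]
      exact one_mem _)
    (pow_mem ℓ N)
    (by
      intro x y
      obtain ⟨w, hw⟩ := hFam.πs (QuotientGroup.mk' (PP ℓ N) x)
      obtain ⟨w', hw'⟩ := hFam.πs (QuotientGroup.mk' (PP ℓ N) y)
      rw [Subgroup.mem_comap, map_mul, map_mul, map_mul, map_inv, map_inv, ← hw, ← hw']
      refine Subgroup.mem_map.2 ⟨_, hcom w w', ?_⟩
      rw [map_mul, map_mul, map_mul, map_inv, map_inv])
    (by
      intro x hx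
      have h := ne_zero_of_core hF.2.1 (QuotientGroup.mk' (PP ℓ N)) x (by
        rw [← map_pow]
        exact (QuotientGroup.eq_one_iff _).2 hx)
      exact (QuotientGroup.eq_one_iff x).1 h)
    (by
      intro x hx
      obtain ⟨y, -, hy1, -, hy2, -, -⟩ := hel x hx
      exact ⟨y, hy1, comm_of hN hy2⟩)
  refine ⟨M, hMn, hNM, hMℓ, hMH, ?_⟩
  intro ξ hξ hagξ
  refine ⟨hstab ξ hξ hagξ, ?_⟩
  intro x hx
  obtain ⟨y, y', hy1, hy2, hy3, hy4, hy5⟩ := hel x (hMQ hx)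
  obtain ⟨u, v, hu1, hv1, hu2, hv2, huv⟩ := h4 X 𝔐 ℓ hM hℓ N (PP ℓ N) hN hPn hNP (pow_mem ℓ N)
    χ hχ ξ₁ hξ₁ hip x (hMO x hx) (hMm x hx) y y' hy1 hy2 hy3 hy4 hy5
  have hu1' : ∀ a ∈ N, ∀ z, u (a * z * a⁻¹) = u z := fun a ha z => hu1 a (hNP ha) z
  have hv1' : ∀ a ∈ N, ∀ z, v (a * z * a⁻¹) = v z := fun a ha z => hv1 a (hNP ha) z
  refine ⟨u, v, hu1', hv1', hu2, hv2, ?_⟩
  have hsame := same h8 𝔐 ℓ hM hℓ N hN hξ hξ₁ (fun z hz => (hagξ z hz).trans (hag z hz).symm)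
    hst (fun z => ((conv u v z : ℤ) : ℂ))
    (fun a ha z => by
      have := conv_inv N hu1' hv1' a ha z
      simp only [this])
    (fun z => isIntegral_algebraMap (R := ℤ) (x := conv u v z))
  rw [hsame]
  exact huv

end Pool.Agent.DPK
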