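import Mathlib
import Pool.Agent.DPK.Stmts
import Pool.Agent.DPT.PSO

/-!
# PS1r: the sum over the chains of a normal subgroup vanishes if there are no characters of minimal
defect (for the groups of a class)
-/

namespace Pool.Agent.DPK

open Pool.Agent.DP Pool.Agent.DPC Pool.Agent.DPM Pool.Agent.DPN Pool.Agent.DPT
open Pool.Agent.Lib_helper13
open Representation
open Pool.Agent.Lib_helper13.Dade (pCore DadeHolds dadeSum)

theorem PS1r_thm (Cl : ∀ (Y : Type) [Group Y], Prop) (hC : GC Cl) (h1 : Stmt_PSNr Cl)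
    (h2 : Stmt_CHI) : Stmt_PS1r Cl := by
  intro L K H _ _ _ _ _ _ 𝔐 ℓ _ hM hℓ π hπ hc hcyc μ hμ hCl hQ M hMn p hp hpk P hP ω hPos d
  rw [PSO.PHU_eq h2]
  by_contra hne
  exact PSO.not_GdF hPos
    (h1 ℓ K hCl hQ L H 𝔐 hM hℓ π hπ hc hcyc μ hμ M hMn p hpk (PSO.hh hP) ω d hne)

end Pool.Agent.DPK
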