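import Mathlib
import Pool.Agent.DPK.Stmts
import Pool.Agent.DPF.PS3

/-!
# PS3r: the sums over the chains of `M` vanish for the subgroups which contain `M`, for a class
-/

set_option autoImplicit false

namespace Pool.Agent.DPK

open Pool.Agent.DP Pool.Agent.DPC Pool.Agent.DPM Pool.Agent.DPN Pool.Agent.DPT Pool.Agent.DPF
open Pool.Agent.Lib_helper13
open Representation
open Pool.Agent.Lib_helper13.Dade (pCore DadeHolds dadeSum)

open Pool.Agent.DPF.PS3 in
/-- PS3r: the sum over the chains of a normal subgroup vanishes for the subgroups which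
contain `M`. -/
theorem PS3r_thm (Cl : ∀ (Y : Type) [Group Y], Prop) (hC : GC Cl) (h1 : Stmt_PS2r Cl) :
    Stmt_PS3r Cl := by
  intro L K H _ _ _ _ _ _ 𝔐 ℓ _ h𝔐 hℓ π hπ hZ μ M _ p hp hpM P hP ω hω V hCK hV d
  have hMS : M ≤ V.comap p := fun x hx => by
    rw [Subgroup.mem_comap, (hpM x).2 hx]
    exact V.one_mem
  classical
  obtain ⟨F, hF, hsum⟩ := split π M (V.comap p) 𝔐 ℓ d hMS μ ω
  rw [hsum]
  refine Finset.sum_eq_zero fun ω' hω' => ?_
  obtain ⟨h2, h3⟩ := hF ω' hω'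
  refine h1 ↥((V.comap p).comap π) ↥(V.comap p) ↥V 𝔐 ℓ h𝔐 hℓ (π.subgroupComap (V.comap p)) ?_
    ?_ (muS π (V.comap p) μ) (hC.sub hCK (V.comap p)) hV (M.subgroupOf (V.comap p))
    (p.subgroupComap V) ?_ ?_
    (P.subgroupOf V) (sylAb hP V) ω' (pos π M (V.comap p) 𝔐 ℓ hMS μ ω hω ω' h2 h3) d
  · intro y
    obtain ⟨x, hx⟩ := hπ y
    refine ⟨⟨x, ?_⟩, Subtype.ext hx⟩
    rw [Subgroup.mem_comap, hx]
    exact y.2
  · intro z hz
    rw [Subgroup.mem_center_iff]
    intro g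
    have h4 : (z : L) ∈ π.ker := congrArg Subtype.val hz
    exact Subtype.ext ((Subgroup.mem_center_iff.1 (hZ h4)) g)
  · intro y
    obtain ⟨x, hx⟩ := hp y
    refine ⟨⟨x, ?_⟩, Subtype.ext hx⟩
    rw [Subgroup.mem_comap, hx]
    exact y.2
  · intro k
    rw [Subgroup.mem_subgroupOf, ← hpM]
    constructor
    · intro h
      exact congrArg Subtype.val h
    · intro h
      exact Subtype.ext h

end Pool.Agent.DPK
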