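import Mathlib
import Pool.Agent.DPK.Stmts
import Pool.Agent.DPT.PSN
import Pool.Agent.DPT.TWQ
import Pool.Agent.DPT.CBB
import Pool.Agent.DPT.CII

set_option linter.unusedSectionVars false
set_option linter.unusedVariables false

/-!
# Module DPK_PSNr: the sums over the chains of the normal subgroups (for the groups of a class)
-/

namespace Pool.Agent.DPK

open Pool.Agent.DP Pool.Agent.DPC Pool.Agent.DPM Pool.Agent.DPN Pool.Agent.DPT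
open Pool.Agent.Lib_helper13
open Representation
open Pool.Agent.Lib_helper13.Dade (pCore DadeHolds dadeSum)

namespace PSNr

/-- The images of the subgroups of a central extension of a member of the class. -/
theorem mem_sec {Cl : ∀ (Y : Type) [Group Y], Prop} (hC : GC Cl) {L K K' : Type} [Group L]
    [Finite L] [Group K] [Group K'] (π : L →* K) (hπ : π.ker ≤ Subgroup.center L) (hK : Cl K)
    (T : Subgroup L) (κ : T →* K') (hκ : Function.Surjective κ) : Cl K' :=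
  hC.im T K' κ hκ (hC.sub (hC.up L K π hπ hK) T)

open Pool.Agent.DPT.TWQ in
/-- TWQ for the groups of a class. -/
theorem TWQr {Cl : ∀ (Y : Type) [Group Y], Prop} (hC : GC Cl) (h1 : Stmt_TWC) (h2 : Stmt_TWN)
    (h3 : Stmt_TWG) (h4 : Stmt_CHG) (h5 : Stmt_HHS) (h6 : Stmt_DEFM) :
    ∀ (L K H : Type) [Group L] [Fintype L] [Group K] [Fintype K] [Group H] [Finite H]
    (𝔐 : Ideal (integralClosure ℤ ℂ)) (ℓ : ℕ) [Fact ℓ.Prime], 𝔐.IsMaximal →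
    (ℓ : integralClosure ℤ ℂ) ∈ 𝔐 → ∀ π : L →* K, Function.Surjective π →
    π.ker ≤ Subgroup.center L → ∀ (μ : π.ker →* ℂˣ) (M Q : Subgroup K), M.Normal → Q.Normal →
    IsPGroup ℓ Q → Q ≠ ⊥ → Q ⊓ M = ⊥ → ∀ f : K →* H, (∀ x, f x = 1 ↔ x ∈ M) → HH ℓ H → Cl K →
    (∀ (K' : Type) [Group K'] [Fintype K'], Cl K' → Nat.card K' < Nat.card K → PL ℓ K') →
    ∀ ν : L → ℂ, IrrOn (Q.comap π) ν → OvK π μ ν → M.comap π ≤ sx ν →
    ∀ (ω : L → (integralClosure ℤ ℂ) ⧸ 𝔐) (d : ℕ),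
    CS ℓ M (WN 𝔐 ℓ d π Q M ν ω) ≠ 0 → GdF 𝔐 ℓ π μ M ω := by
  classical
  intro L K H _ _ _ _ _ _ 𝔐 ℓ _ hmax hℓ π hπ hπc μ M Q hM hQ hQp hQne hQM f hf hH hK hIH ν hν
    hνμ hMν ω d hCS
  have hn : (Q.comap π).Normal := hQ.comap π
  have hNS : Q.comap π ≤ sx ν := le_sx hν
  have hn' : ((Q.comap π).subgroupOf (sx ν)).Normal := Subgroup.normal_subgroupOf
  have hk : ∀ x : sx ν, QuotientGroup.mk' ((Q.comap π).subgroupOf (sx ν)) x = 1 ↔
      (x : L) ∈ Q.comap π := by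
    intro x
    rw [QuotientGroup.mk'_apply, QuotientGroup.eq_one_iff, Subgroup.mem_subgroupOf]
  let hfin : Fintype (↥(sx ν) ⧸ (Q.comap π).subgroupOf (sx ν)) := Fintype.ofFinite _
  exact main (K' := ↥(sx ν) ⧸ (Q.comap π).subgroupOf (sx ν)) h1 h2 h3 h4 h5 h6 hmax hℓ hπ hπc hM
    hQ hQp hQM f hf hH (hIH _ (mem_sec hC π hπc hK (sx ν)
      (QuotientGroup.mk' ((Q.comap π).subgroupOf (sx ν))) (QuotientGroup.mk'_surjective _))
      (card_lt hπ hQne hNS _ (QuotientGroup.mk'_surjective _) hk)) hν hνμ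
    hMν (QuotientGroup.mk' ((Q.comap π).subgroupOf (sx ν))) (QuotientGroup.mk'_surjective _) hk d
    hCS

open Pool.Agent.DPT.CBB in
/-- CBB for the groups of a class. -/
theorem CBBr {Cl : ∀ (Y : Type) [Group Y], Prop} (hGC : GC Cl) (h1 : Stmt_SPLM) (h2 : Stmt_CHG)
    (h3 : Stmt_CHI) (h4 : Stmt_DGM) (h5 : Stmt_ZST) (h6 : Stmt_HHS) :
    ∀ (L K H : Type) [Group L] [Fintype L] [Group K] [Fintype K] [Group H] [Finite H]
    (𝔐 : Ideal (integralClosure ℤ ℂ)) (ℓ : ℕ) [Fact ℓ.Prime], 𝔐.IsMaximal →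
    (ℓ : integralClosure ℤ ℂ) ∈ 𝔐 → ∀ π : L →* K, Function.Surjective π →
    π.ker ≤ Subgroup.center L → ∀ (μ : π.ker →* ℂˣ) (Q M M₀ : Subgroup K) (ν : L → ℂ),
    LN ℓ π μ Q M M₀ ν → Q ≠ ⊥ → ∀ f : K →* H, (∀ x, f x = 1 ↔ x ∈ M) → HH ℓ H → Cl K →
    (∀ (K' : Type) [Group K'] [Fintype K'], Cl K' → Nat.card K' < Nat.card K → PL ℓ K') →
    ∀ (ω : L → (integralClosure ℤ ℂ) ⧸ 𝔐) (d : ℕ),
    CS ℓ M (WN 𝔐 ℓ d π Q M ν ω) ≠ 0 → GdF 𝔐 ℓ π μ M₀ ω := by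
  intro L K H _ _ _ _ _ _ 𝔐 ℓ _ hmax hℓ π hπ hcen μ Q M M₀ ν hLN hQ f hf hH hK hPL ω d hne
  classical
  -- the outer chain
  have hspl := h1 K ℓ M₀ M hLN.M0n hLN.Mn hLN.le (WN 𝔐 ℓ d π Q M ν ω)
  unfold CS at hne
  rw [hspl] at hne
  obtain ⟨c, hc, hcne⟩ := Finset.exists_ne_zero_of_sum_ne_zero hne
  rw [Finset.mem_filter, OutC, Finset.mem_filter, mem_Ch] at hc
  obtain ⟨⟨hc1, hc2⟩, hc3⟩ := hc
  have hin : innerS ℓ ⊥ M₀ (WN 𝔐 ℓ d π Q M ν ω) c ≠ 0 := right_ne_zero_of_mul hcne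
  obtain ⟨hRp, hRM, hRn, hstb⟩ := DZA.outer h5 ℓ M₀ hLN.M0n c hc1 hc2
  obtain ⟨C, hC⟩ : ∃ C, C = cN M₀ (tp ⊥ c) := ⟨_, rfl⟩
  have hCs : stb c ⊓ M₀ = C := by rw [hC, hstb]
  have hCM : C ≤ M₀ := hCs ▸ inf_le_right
  obtain ⟨T, hTd⟩ : ∃ T : Subgroup L, T = (stb c).comap π ⊓ sx ν := ⟨_, rfl⟩
  have hT : T ≤ sx ν := hTd ▸ inf_le_right
  have hTs : ∀ t ∈ T, π t ∈ stb c := by
    intro t ht
    rw [hTd] at ht
    exact ht.1
  have hQT : Q.comap π ≤ T := by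
    intro x hx
    rw [hTd]
    refine ⟨?_, CAX.le_sx hLN hx⟩
    change π x ∈ stb c
    rw [mem_stb']
    have hcom : ∀ y ∈ M, π x * y * (π x)⁻¹ = y := by
      intro y hy
      have e1 : π x * y * (π x)⁻¹ * y⁻¹ ∈ Q ⊓ M := by
        refine ⟨?_, ?_⟩
        · have e2 := Q.mul_mem hx (hLN.Qn.conj_mem _ (Q.inv_mem hx) y)
          have e3 : π x * (y * (π x)⁻¹ * y⁻¹) = π x * y * (π x)⁻¹ * y⁻¹ := by group
          rwa [e3] at e2
        · exact M.mul_mem (hLN.Mn.conj_mem _ hy _) (M.inv_mem hy)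
      rw [hLN.QM, Subgroup.mem_bot, mul_inv_eq_one] at e1
      exact e1
    intro D hD y
    constructor
    · intro hy
      rw [hcom y (hc3 D hD hy)]
      exact hy
    · intro hy
      have e1 : y ∈ M := by
        have e2 := hLN.Mn.conj_mem _ (hc3 D hD hy) (π x)⁻¹
        have e3 : (π x)⁻¹ * (π x * y * (π x)⁻¹) * (π x)⁻¹⁻¹ = y := by group
        rwa [e3] at e2
      rwa [hcom y e1] at hy
  have hCT : C.comap π ≤ T := by
    intro x hx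
    rw [← hCs] at hx
    rw [hTd]
    exact ⟨hx.1, (hLN.st x (hLN.le hx.2)).mp hx.2⟩
  have hTC : ∀ t : T, π t ∈ M₀ → π t ∈ C := by
    intro t ht
    rw [← hCs]
    exact ⟨hTs t t.2, ht⟩
  obtain ⟨L2, K2, _, _, _, _, q, κ, π2, ν2, hQD⟩ := exists_QD hLN hT
  have hs2 : Function.Surjective π2 := by
    intro y
    obtain ⟨t, rfl⟩ := hQD.κs y
    exact ⟨q t, hQD.comp t⟩
  -- the summands
  obtain ⟨WT, hWTd⟩ : ∃ WT : Subgroup T → ℚ, ∀ P, WT P =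
      (Nat.card ↥(P.map T.subtype) : ℚ) * Nat.card {ψ : L → ℂ // ID ℓ (P.map T.subtype) d ψ ∧
        iS (Q.comap π) ψ ν ≠ 0 ∧ ∀ g, π g ∈ M → cgT 𝔐 ⊤ ψ g = ω g} := ⟨_, fun _ => rfl⟩
  have hWT : ∀ S : Subgroup K, WN 𝔐 ℓ d π Q M ν ω (stb c ⊓ S) =
      WT (S.comap (π.comp T.subtype)) := by
    intro S
    have e : (S.comap (π.comp T.subtype)).map T.subtype = (stb c ⊓ S).comap π ⊓ sx ν := by
      ext x
      rw [mem_map_sub]
      constructor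
      · rintro ⟨hx, hS⟩
        exact ⟨⟨hTs x hx, hS⟩, hT hx⟩
      · rintro ⟨⟨e1, e2⟩, e3⟩
        exact ⟨by rw [hTd]; exact ⟨e1, e3⟩, e2⟩
    rw [hWTd, e]
    rfl
  have hchi := h3 K ℓ C (fun S => WN 𝔐 ℓ d π Q M ν ω (stb c ⊓ S))
  have e1 : innerS ℓ ⊥ M₀ (WN 𝔐 ℓ d π Q M ν ω) c =
      CS ℓ C (fun S => WT (S.comap (π.comp T.subtype))) := by
    unfold innerS
    rw [← hC, hchi]
    congr 1
    funext S
    exact hWT S
  -- the chains of the quotient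
  obtain ⟨C2, hC2⟩ : ∃ C2, C2 = (C.comap (π.comp T.subtype)).map κ := ⟨_, rfl⟩
  have hCn : ∀ t : T, ∀ y ∈ C, (π.comp T.subtype) t * y * ((π.comp T.subtype) t)⁻¹ ∈ C := by
    intro t y hy
    rw [← hCs] at hy ⊢
    exact ⟨(stb c).mul_mem ((stb c).mul_mem (hTs t t.2) hy.1) ((stb c).inv_mem (hTs t t.2)),
      hLN.M0n.conj_mem _ hy.2 _⟩
  have hCQ : ∀ x ∈ C, x ∈ Q → x = 1 := by
    intro x hx hxQ
    have e2 : x ∈ Q ⊓ M := ⟨hxQ, hLN.le (hCM hx)⟩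
    rw [hLN.QM] at e2
    exact Subgroup.mem_bot.mp e2
  have hchg := h2 ↥T K K2 ℓ (π.comp T.subtype) (by
      intro t ht
      rw [Subgroup.mem_center_iff]
      intro s
      apply Subtype.ext
      have e2 : (t : L) ∈ Subgroup.center L := hcen ht
      exact Subgroup.mem_center_iff.mp e2 s) C (by
      intro y hy
      obtain ⟨x, rfl⟩ := hπ y
      exact ⟨⟨x, hCT hy⟩, rfl⟩) hCn κ hQD.κs (by
      intro t ht ht'
      exact hCQ _ ht ((hQD.κk t).mp ht')) (by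
      intro t ht _
      rw [hQD.κk t]
      have e2 : π t = 1 := ht
      rw [e2]
      exact Q.one_mem) WT
  rw [e1, hchg, ← hC2] at hin
  -- some character
  obtain ⟨σ, hσ, hσne⟩ := Finset.exists_ne_zero_of_sum_ne_zero hin
  have hWσ : WT ((stb σ).comap κ) ≠ 0 := right_ne_zero_of_mul hσne
  rw [hWTd] at hWσ
  have hcd : Nat.card {ψ : L → ℂ // ID ℓ (((stb σ).comap κ).map T.subtype) d ψ ∧
        iS (Q.comap π) ψ ν ≠ 0 ∧ ∀ g, π g ∈ M → cgT 𝔐 ⊤ ψ g = ω g} ≠ 0 := by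
    intro e2
    apply hWσ
    rw [e2, Nat.cast_zero, mul_zero]
  have hnonempty := (Nat.card_ne_zero.mp hcd).1
  obtain ⟨ψ₀, hψ₀, hψi, hψω⟩ := hnonempty
  have hSx : ∀ (S2 : Subgroup K2) (x : L), x ∉ sx ν → x ∉ (S2.comap κ).map T.subtype := by
    intro S2 x hx hx'
    exact hx (hT (mem_map_sub.mp hx').1)
  have hω0 : ∀ g, π g ∈ M → π g ∉ M₀ → ω g = 0 := by
    intro g hg hg'
    rw [← hψω g hg]
    exact cgT_zero 𝔐 hLN (fun x hx => hψ₀.1.2 x (hSx _ x hx)) hg hg'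
  obtain ⟨d2, hd2⟩ : ∃ d2, d = d2 + padicValNat ℓ (Nat.card q.ker) := by
    obtain ⟨θ, hθ, -⟩ := E_of_over hLN hQD hQT hT (stb σ) hψ₀.1 hψi
    have e2 := hψ₀
    rw [hθ] at e2
    have e3 := (E_irr hQD (stb σ)).mp e2.1
    obtain ⟨d2, hd2⟩ := e3.1.exists_defect (ℓ := ℓ)
    have e4 := (E_id (ℓ := ℓ) hQD (stb σ)).mpr ⟨e3, hd2⟩
    exact ⟨d2, e2.2.unique e4.2⟩
  -- the functions
  obtain ⟨F, hF⟩ : ∃ F : L → L2 → ℂ, ∀ g, F g =
      if π g ∈ M₀ then pu q (fun t : T => cjT ⊤ (t : L) g) else fun _ => 0 :=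
    ⟨_, fun _ => rfl⟩
  obtain ⟨w, hw⟩ : ∃ w : L → (integralClosure ℤ ℂ) ⧸ 𝔐, ∀ g, w g =
      if π g ∈ M₀ then ω g else 0 := ⟨_, fun _ => rfl⟩
  have hzero : ∀ (S : Subgroup L2) (θ : L2 → ℂ), red 𝔐 (wS S θ (fun _ => 0)) = 0 := by
    intro S θ
    unfold wS wt
    rw [Finset.sum_eq_zero (fun x _ => zero_mul _), zero_div, red_zero]
  have hW2 : ∀ S2 : Subgroup K2, WT (S2.comap κ) =
      (Nat.card κ.ker : ℚ) * WC 𝔐 ℓ d2 π2 ν2 F w S2 := by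
    intro S2
    rw [hWTd]
    have e2 := card_E hLN hQD hQT hT S2 hd2 (fun ψ => ∀ g, π g ∈ M → cgT 𝔐 ⊤ ψ g = ω g)
      (fun θ => ∀ g, red 𝔐 (wS (S2.comap π2) θ (F g)) = w g) (by
        intro θ hθ
        have e3 : ∀ g, cgT 𝔐 ⊤ (E q θ) g =
            red 𝔐 (wS (S2.comap π2) θ (pu q (fun t : T => cjT ⊤ (t : L) g))) := by
          intro g
          rw [cgT_wS 𝔐 ((S2.comap κ).map T.subtype) ((E_irr hQD S2).mpr hθ).2 g,
            wS_E hQD]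
        constructor
        · intro hP g
          rw [hF, hw]
          by_cases hg : π g ∈ M₀
          · rw [if_pos hg, if_pos hg, ← e3]
            exact hP g (hLN.le hg)
          · rw [if_neg hg, if_neg hg]
            exact hzero _ _
        · intro hP g hg
          by_cases hg' : π g ∈ M₀
          · have e4 := hP g
            rw [hF, hw, if_pos hg', if_pos hg', ← e3] at e4
            exact e4
          · rw [hω0 g hg hg']
            exact cgT_zero 𝔐 hLN (fun x hx =>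
              ((E_irr hQD S2).mpr hθ).2 x (hSx S2 x hx)) hg hg')
    rw [e2]
    unfold WC
    rw [← Nat.card_congr (eP (S2.comap κ)).toEquiv,
      DEFR.card_comap κ S2 (fun y _ => hQD.κs y), Nat.cast_mul, mul_assoc]
  have hin2 : CS ℓ C2 (WC 𝔐 ℓ d2 π2 ν2 F w) ≠ 0 := by
    intro e2
    apply hin
    have e3 : CS ℓ C2 (fun S => WT (S.comap κ)) =
        (Nat.card κ.ker : ℚ) * CS ℓ C2 (WC 𝔐 ℓ d2 π2 ν2 F w) := by
      unfold CS
      rw [Finset.mul_sum]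
      refine Finset.sum_congr rfl fun τ _ => ?_
      change (-1 : ℚ) ^ τ.card * WT ((stb τ).comap κ) = _
      rw [hW2]
      ring
    rw [e3, e2, mul_zero]
  -- the induction hypothesis
  have hC2n : C2.Normal := by
    rw [hC2]
    refine Subgroup.Normal.map ⟨fun y hy t => ?_⟩ κ hQD.κs
    rw [Subgroup.mem_comap, map_mul, map_mul, map_inv]
    exact hCn t _ hy
  have hHH : HH ℓ (K2 ⧸ C2) := hh h6 hLN hQD hf hH hT hTC hC2
  obtain ⟨θ, hθ, hO, hθw⟩ := hPL K2 (mem_sec hGC π hcen hK T κ hQD.κs)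
    (card_lt hQD hπ hQT hQ) L2 (K2 ⧸ C2) L 𝔐 hmax hℓ π2 hs2
    hQD.cen ν2 C2 hC2n (QuotientGroup.mk' C2) (fun x => QuotientGroup.eq_one_iff x) hHH F (by
      intro g a x
      rw [hF]
      by_cases hg : π g ∈ M₀
      · rw [if_pos hg]
        exact DZ6.pu_class q hQD.qs (fun n y => cjT_conj' (n : L) y g) a x
      · rw [if_neg hg]) (by
      intro g x
      rw [hF]
      by_cases hg : π g ∈ M₀
      · rw [if_pos hg]
        exact DZ6.pu_int q (fun y => cjT_int (y : L) g) x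
      · rw [if_neg hg]
        exact isIntegral_zero) (by
      intro g x hx
      rw [hF]
      by_cases hg : π g ∈ M₀
      · rw [if_pos hg]
        refine DZ6.pu_supp q (M₀ := C2.comap π2) (fun t ht => ?_) x hx
        apply cjT_zero
        intro s hs
        apply ht
        refine mem_q hQD hC2 (hTC t ?_)
        rw [hs, map_mul, map_mul, map_inv]
        exact hLN.M0n.conj_mem _ hg _
      · rw [if_neg hg]) w d2 hin2
  obtain ⟨θC, a1, a2, a3⟩ := final 𝔐 hLN hQD hπ hQT hCM hCT hTC hC2 hθ hO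
  rw [hC] at a1
  obtain ⟨θ₀, b1, b2, b3⟩ := h4 L K 𝔐 ℓ hmax hℓ π hπ hcen μ M₀ (tp ⊥ c) hLN.M0n hRp θC a1 a2
  refine ⟨θ₀, b1, b2, fun g hg => ?_⟩
  have e4 := hθw g
  rw [hF, hw, if_pos hg, if_pos hg] at e4
  rw [b3, a3 g hg]
  exact e4

/-- CII for the groups of a class. -/
theorem CIIr {Cl : ∀ (Y : Type) [Group Y], Prop} (hC : GC Cl) (g1 : Stmt_SPLM) (g2 : Stmt_CHG)
    (g3 : Stmt_CHI) (g4 : Stmt_DGM) (g5 : Stmt_ZST) (g6 : Stmt_HHS) (h2 : Stmt_CAZ)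
    (h3 : Stmt_IDZ) :
    ∀ (L K H : Type) [Group L] [Fintype L] [Group K] [Fintype K] [Group H] [Finite H]
    (𝔐 : Ideal (integralClosure ℤ ℂ)) (ℓ : ℕ) [Fact ℓ.Prime], 𝔐.IsMaximal →
    (ℓ : integralClosure ℤ ℂ) ∈ 𝔐 → ∀ π : L →* K, Function.Surjective π →
    π.ker ≤ Subgroup.center L → ∀ (μ : π.ker →* ℂˣ) (Q M M₀ : Subgroup K) (ν : L → ℂ),
    LN ℓ π μ Q M M₀ ν → Q ≠ ⊥ → ∀ f : K →* H, (∀ x, f x = 1 ↔ x ∈ M) → HH ℓ H → Cl K →
    (∀ (K' : Type) [Group K'] [Fintype K'], Cl K' → Nat.card K' < Nat.card K → PL ℓ K') →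
    ∀ (ω : L → (integralClosure ℤ ℂ) ⧸ 𝔐) (d : ℕ),
    CS ℓ M (WN 𝔐 ℓ d π Q M ν ω) ≠ 0 → GdF 𝔐 ℓ π μ M ω := by
  classical
  intro L K H _ _ _ _ _ _ 𝔐 ℓ _ hmax hℓ π hπ hker μ Q M M₀ ν hLN hQ f hf hHH hK hPL ω d hCS
  obtain ⟨θ₀, hid, hov, hω⟩ :=
    CBBr hC g1 g2 g3 g4 g5 g6 L K H 𝔐 ℓ hmax hℓ π hπ hker μ Q M M₀ ν hLN hQ f hf hHH hK hPL ω d hCS
  have hz : ∀ g, π g ∈ M → π g ∉ M₀ → ω g = 0 := by
    have hne : ∃ S : Subgroup K, WN 𝔐 ℓ d π Q M ν ω S ≠ 0 := by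
      by_contra hall
      apply hCS
      rw [CS]
      refine Finset.sum_eq_zero (fun σ _ => ?_)
      have h5 : WN 𝔐 ℓ d π Q M ν ω (stb σ) = 0 := by
        by_contra h6
        exact hall ⟨_, h6⟩
      rw [h5, mul_zero]
    obtain ⟨S, hS⟩ := hne
    have hcard : Nat.card {ψ : L → ℂ // ID ℓ (S.comap π ⊓ sx ν) d ψ ∧
        iS (Q.comap π) ψ ν ≠ 0 ∧ ∀ g, π g ∈ M → cgT 𝔐 ⊤ ψ g = ω g} ≠ 0 := by
      intro h0
      apply hS
      rw [WN, h0, Nat.cast_zero, mul_zero]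
    have hnonempty : Nonempty {ψ : L → ℂ // ID ℓ (S.comap π ⊓ sx ν) d ψ ∧
        iS (Q.comap π) ψ ν ≠ 0 ∧ ∀ g, π g ∈ M → cgT 𝔐 ⊤ ψ g = ω g} :=
      (Nat.card_ne_zero.mp hcard).1
    obtain ⟨ψ, hψ, _, hψω⟩ := hnonempty
    intro g hg hg0
    rw [← hψω g hg]
    apply CII.cgT_zero
    intro t
    apply hψ.1.2
    intro hmem
    have hsx : t * g * t⁻¹ ∈ sx ν := hmem.2
    have hM : π (t * g * t⁻¹) ∈ M := by
      rw [map_mul, map_mul, map_inv]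
      exact hLN.Mn.conj_mem _ hg _
    have hM0 : π (t * g * t⁻¹) ∈ M₀ := (hLN.st _ hM).mpr hsx
    apply hg0
    have h7 := hLN.M0n.conj_mem _ hM0 (π t)⁻¹
    have h8 : (π t)⁻¹ * π (t * g * t⁻¹) * (π t)⁻¹⁻¹ = π g := by
      rw [map_mul, map_mul, map_inv]
      group
    rwa [h8] at h7
  by_cases hex : ∃ m, π m ∈ M ∧ m ∈ sx θ₀ ∧ π m ∉ M₀
  · exact absurd (h2 L K H 𝔐 ℓ hmax hℓ π hπ hker μ Q M M₀ ν hLN f hf hHH ω θ₀ hid hov hω hz hex d)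
      hCS
  · refine h3 L K 𝔐 ℓ hmax hℓ π hπ hker μ M M₀ hLN.Mn hLN.M0n hLN.le ω θ₀ hid hov hω hz ?_
    intro m hm hms
    by_contra hm0
    exact hex ⟨m, hm, hms, hm0⟩

end PSNr

open PSNr Pool.Agent.DPT.PSN in
/-- MODULE DPK_PSNr -/
theorem PSNr_thm (Cl : ∀ (Y : Type) [Group Y], Prop) (hC : GC Cl) (h1 : Stmt_SPLM)
    (h2 : Stmt_CRS) (h3 : Stmt_OCN) (h4 : Stmt_DDSr Cl) (h5 : Stmt_CLQ) (h6 : Stmt_TWC)
    (h6a : Stmt_TWN) (h6b : Stmt_TWG) (h6c : Stmt_CHG) (h6d : Stmt_HHS) (h6e : Stmt_DEFM)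
    (h7 : Stmt_LNQ) (h8 : Stmt_DGM) (h8a : Stmt_ZST) (h8b : Stmt_CAZ) (h8c : Stmt_IDZ)
    (h9 : Stmt_CHI) : Stmt_PSNr Cl := by
  classical
  intro ℓ _
  have main : ∀ n : ℕ, ∀ (K : Type) [Group K] [Fintype K], Nat.card K = n → Cl K →
      HR Cl ℓ n → PF ℓ K := by
    intro n
    induction n using Nat.strong_induction_on with
    | _ n ih =>
      intro K _ _ hn hK hHQ
      have hPL : ∀ (K' : Type) [Group K'] [Fintype K'], Cl K' → Nat.card K' < Nat.card K →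
          PL ℓ K' := by
        intro K' _ _ hK'c hK'
        apply h2
        rw [hn] at hK'
        exact ih _ hK' K' rfl hK'c (HR.mono hHQ hK'.le)
      intro L H _ _ _ _ 𝔐 h𝔐 hℓ π hπ hker hcyc μ hμ M hM f hf hHH ω d hne
      by_cases hQ : ∃ Q : Subgroup K, Q.Normal ∧ IsPGroup ℓ Q ∧ Q ≠ ⊥ ∧ Q ⊓ M = ⊥
      · -- a minimal one
        obtain ⟨Q, ⟨hQn, hQp, hQ1, hQM⟩, hmin⟩ : ∃ Q : Subgroup K,
            (Q.Normal ∧ IsPGroup ℓ Q ∧ Q ≠ ⊥ ∧ Q ⊓ M = ⊥) ∧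
            ∀ Q' : Subgroup K, (Q'.Normal ∧ IsPGroup ℓ Q' ∧ Q' ≠ ⊥ ∧ Q' ⊓ M = ⊥) →
              ¬ Q' < Q := by
          obtain ⟨Q, hQ⟩ := (Set.toFinite {Q : Subgroup K | Q.Normal ∧ IsPGroup ℓ Q ∧ Q ≠ ⊥ ∧
            Q ⊓ M = ⊥}).exists_minimal hQ
          exact ⟨Q, hQ.prop, fun Q' hQ' hlt => hlt.not_ge (hQ.le_of_le hQ' hlt.le)⟩
        have hQmin : ∀ Q' : Subgroup K, Q'.Normal → Q' ≤ Q → Q' = ⊥ ∨ Q' = Q := by
          intro Q' hQ'n hQ'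
          by_cases h0 : Q' = ⊥
          · exact Or.inl h0
          · right
            by_contra hne'
            refine hmin Q' ⟨hQ'n, hQp.to_le hQ', h0, ?_⟩ (lt_of_le_of_ne hQ' hne')
            rw [eq_bot_iff, ← hQM]
            exact inf_le_inf_right _ hQ'
        have hcomm : ∀ x ∈ Q, ∀ y ∈ M, x * y = y * x := by
          intro x hx y hy
          exact Subgroup.commute_of_normal_of_disjoint Q M hQn hM
            (disjoint_iff.mpr hQM) x y hx hy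
        obtain ⟨ν, hν1, hν2, hν3⟩ := h5 L K 𝔐 ℓ h𝔐 hℓ π hπ hker μ M Q hM hQn hcomm ω d hne
        by_cases hst : M.comap π ≤ sx ν
        · exact TWQr hC h6 h6a h6b h6c h6d h6e L K H 𝔐 ℓ h𝔐 hℓ π hπ hker μ M Q hM hQn hQp hQ1
            hQM f hf hHH hK hPL ν hν1 hν2 hst ω d hν3
        · obtain ⟨M₀, hLN⟩ := h7 L K ℓ π hπ hker μ hμ M Q hM hQn hQp hQmin hQM ν hν1 hν2 hst
          exact CIIr hC h1 h6c h9 h8 h8a h6d h8b h8c L K H 𝔐 ℓ h𝔐 hℓ π hπ hker μ Q M M₀ ν hLN hQ1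
            f hf hHH hK hPL ω d hν3
      · by_cases htop : CS ℓ ⊤ (WF 𝔐 ℓ d π μ M ω) = 0
        · rw [CS_top_eq h1 ℓ M hM] at htop
          have hemp : (∅ : Finset (Subgroup K)) ∈ OutC ℓ (⊥ : Subgroup K) M := by
            rw [OutC, Finset.mem_filter, mem_Ch]
            exact ⟨isCh_empty ℓ ⊥, by simp⟩
          rw [← Finset.add_sum_erase _ _ hemp, innerS_empty h9, Finset.card_empty, pow_zero,
            one_mul] at htop
          have hex : ∃ c ∈ (OutC ℓ (⊥ : Subgroup K) M).erase ∅,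
              (-1 : ℚ) ^ c.card * innerS ℓ ⊥ M (WF 𝔐 ℓ d π μ M ω) c ≠ 0 := by
            by_contra hcon
            push Not at hcon
            rw [Finset.sum_eq_zero hcon, add_zero] at htop
            exact hne htop
          obtain ⟨c, hc, hc'⟩ := hex
          rw [Finset.mem_erase, OutC, Finset.mem_filter, mem_Ch] at hc
          obtain ⟨hc0, hc1, hc2⟩ := hc
          have hcne : c.Nonempty := Finset.nonempty_iff_ne_empty.mpr hc0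
          have hin : innerS ℓ ⊥ M (WF 𝔐 ℓ d π μ M ω) c ≠ 0 := right_ne_zero_of_mul hc'
          have hstb : stb c ≠ ⊤ := by
            intro hst
            apply hQ
            refine ⟨tp ⊥ c, tp_normal hc1 hcne hst, (hc1.1 _ (tp_mem hc1 hcne)).1, ?_,
              hc2 _ (tp_mem hc1 hcne)⟩
            exact (hc1.1 _ (tp_mem hc1 hcne)).2.ne'
          have hlt : Nat.card ↥(stb c) < Nat.card K := by
            refine lt_of_le_of_ne (Subgroup.card_le_card_group _) ?_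
            intro h
            exact hstb (Subgroup.eq_top_of_card_eq _ h)
          exact h3 L K H 𝔐 ℓ h𝔐 hℓ π hπ hker μ M hM f hf hHH c hc1 hc2 (hPL _ (hC.sub hK _) hlt)
            ω d hin
        · rw [← hn] at hHQ
          exact h4 L K 𝔐 ℓ h𝔐 hℓ π hπ hker hcyc μ hμ hK hHQ M hM ω d htop
  intro K _ _ hK hHQ
  exact main _ K rfl hK hHQ

end Pool.Agent.DPK
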