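import Mathlib
import Pool.Agent.DPK.Stmts
import Pool.Agent.DPT.PSY

/-!
# Module DPK_PSZr: the sum over the chains of a minimal counterexample and the sum over the chains
of a normal subgroup, for a class of groups
-/

namespace Pool.Agent.DPK

open Pool.Agent.DP Pool.Agent.DPC Pool.Agent.DPM Pool.Agent.DPN Pool.Agent.Lib_helper13
open Pool.Agent.DPT
open Representation
open Pool.Agent.Lib_helper13.Dade (pCore DadeHolds dadeSum)

/-- MODULE DPK_PSZr -/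
theorem PSZr_thm (Cl : ∀ (Y : Type) [Group Y], Prop) (hC : GC Cl) (h1 : Stmt_PSNr Cl)
    (h2 : Stmt_CRS) (h3 : Stmt_OCN) (h4 : Stmt_SPLM) (h5 : Stmt_CHI) : Stmt_PSZr Cl := by
  classical
  intro L K H _ _ _ _ _ _ 𝔐 ℓ _ h𝔐 hℓ π hπ hker μ hcore hCK hQ M hM p _ hpk P hP ω hPos d
  rw [PSO.DKU_eq, PSO.PHU_eq h5, PSN.CS_top_eq h4 ℓ M hM]
  have hemp : (∅ : Finset (Subgroup K)) ∈ OutC ℓ (⊥ : Subgroup K) M := by
    rw [OutC, Finset.mem_filter, mem_Ch]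
    exact ⟨isCh_empty ℓ ⊥, by simp⟩
  rw [← Finset.add_sum_erase _ _ hemp, PSN.innerS_empty h5, Finset.card_empty, pow_zero,
    one_mul, Finset.sum_eq_zero, add_zero]
  intro c hc
  rw [Finset.mem_erase, OutC, Finset.mem_filter, mem_Ch] at hc
  obtain ⟨hc0, hc1, hc2⟩ := hc
  by_contra hne
  have hin : innerS ℓ ⊥ M (WF 𝔐 ℓ d π μ M ω) c ≠ 0 := right_ne_zero_of_mul hne
  have hlt := PSY.card_stb_lt hcore hc1 (Finset.nonempty_iff_ne_empty.mpr hc0)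
  have hPL : PL ℓ ↥(stb c) := h2 ℓ _ (h1 ℓ _ (hC.sub hCK _) (hQ _ hlt))
  exact PSO.not_GdF hPos (h3 L K H 𝔐 ℓ h𝔐 hℓ π hπ hker μ M hM p hpk (PSO.hh hP) c hc1 hc2 hPL
    ω d hin)

end Pool.Agent.DPK
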