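import Pool.Agent.DPK.StmtsD
import Pool.Agent.DPT.CRS
import Pool.Agent.DPT.PSO

/-!
# QMA: a central function on the quotient with a nonvanishing chain sum
-/

namespace Pool.Agent.DPK

open Pool.Agent.DP Pool.Agent.DPC Pool.Agent.DPM Pool.Agent.DPN Pool.Agent.DPT Pool.Agent.DPF
open Pool.Agent.Lib_helper13
open Representation

namespace QMA

variable {L L' K : Type} [Group L] [Fintype L] [Group L'] [Fintype L'] [Group K]

/-- The condition on the central function of an inflation. -/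
theorem cond_iff (h1 : Stmt_QMF) (𝔐 : Ideal (integralClosure ℤ ℂ)) (hmax : 𝔐.IsMaximal)
    {q : L →* L'} (hq : Function.Surjective q) (π' : L' →* K) (M : Subgroup K)
    (ω : L → (integralClosure ℤ ℂ) ⧸ 𝔐) {S : Subgroup L'} {ψ' : L' → ℂ} (h : IrrOn S ψ') :
    (∀ g, (π'.comp q) g ∈ M → cgT 𝔐 ⊤ (fun x => ψ' (q x)) g = ω g) ↔
      RelC 𝔐 q π' M ω (CRS.om 𝔐 π' M ψ') := by
  constructor
  · intro h2 g hg
    rw [← h2 g hg, h1 L L' 𝔐 hmax q hq S ψ' h g, CRS.om_in hg]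
  · intro h2 g hg
    have hg' : π' (q g) ∈ M := hg
    rw [h2 g hg', h1 L L' 𝔐 hmax q hq S ψ' h g, CRS.om_in hg']

end QMA

open QMA in
theorem QMA_thm (h1 : Stmt_QMF) : Stmt_QMA := by
  classical
  intro L L' K _ _ _ _ _ _ 𝔐 ℓ _ hmax hℓ q π' hq hs' hc μ μ' hμ M hM ω d hPos hne
  rw [PSO.DKU_eq] at hne
  -- the defect
  obtain ⟨d', rfl⟩ : ∃ d', d = d' + padicValNat ℓ (Nat.card q.ker) := by
    by_contra hcon
    apply hne
    refine CRS.CS_zero ℓ ⊤ _ fun S => ?_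
    have hd : d < padicValNat ℓ (Nat.card q.ker) := by
      by_contra h
      exact hcon ⟨d - padicValNat ℓ (Nat.card q.ker), by omega⟩
    rw [WF, CRS.card_zero hq ℓ hμ S d hd
      (fun ψ => ∀ g, (π'.comp q) g ∈ M → cgT 𝔐 ⊤ ψ g = ω g)]
    rw [Nat.cast_zero, mul_zero]
  -- the central functions
  let _ : Fintype (Subgroup K) := Fintype.ofFinite _
  set Ω : Finset (L' → (integralClosure ℤ ℂ) ⧸ 𝔐) :=
    (((Finset.univ : Finset (Subgroup K)).biUnion fun S => irrOn (S.comap π')).image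
      (CRS.om 𝔐 π' M)).filter (fun ω' => RelC 𝔐 q π' M ω ω') with hΩ
  have hΩ1 : ∀ ω' ∈ Ω, RelC 𝔐 q π' M ω ω' ∧ ∀ g, π' g ∉ M → ω' g = 0 := by
    intro ω' hω'
    rw [hΩ, Finset.mem_filter, Finset.mem_image] at hω'
    obtain ⟨⟨ψ, -, rfl⟩, h2⟩ := hω'
    exact ⟨h2, fun g hg => CRS.om_out hg⟩
  have hΩ2 : ∀ (S : Subgroup K) (ψ : L' → ℂ), IrrOn (S.comap π') ψ →
      RelC 𝔐 q π' M ω (CRS.om 𝔐 π' M ψ) → CRS.om 𝔐 π' M ψ ∈ Ω := by
    intro S ψ h3 h4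
    rw [hΩ, Finset.mem_filter, Finset.mem_image]
    exact ⟨⟨ψ, Finset.mem_biUnion.mpr ⟨S, Finset.mem_univ _, CLIFF.mem_irrOn.mpr h3⟩, rfl⟩, h4⟩
  have hom : ∀ ω' ∈ Ω, ∀ ψ : L' → ℂ, (∀ g, π' g ∈ M → cgT 𝔐 ⊤ ψ g = ω' g) ↔
      CRS.om 𝔐 π' M ψ = ω' := by
    intro ω' hω' ψ
    constructor
    · intro h
      funext g
      by_cases hg : π' g ∈ M
      · rw [CRS.om_in hg, h g hg]
      · rw [CRS.om_out hg, (hΩ1 ω' hω').2 g hg]
    · rintro rfl g hg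
      exact (CRS.om_in hg).symm
  have hWC : WF 𝔐 ℓ (d' + padicValNat ℓ (Nat.card q.ker)) (π'.comp q) μ M ω =
      fun S => ∑ ω' ∈ Ω, WF 𝔐 ℓ d' π' μ' M ω' S := by
    funext S
    rw [WF, CRS.card_eq hq ℓ hμ S d'
      (fun ψ => ∀ g, (π'.comp q) g ∈ M → cgT 𝔐 ⊤ ψ g = ω g)]
    rw [CRS.card_split (fun ψ' : L' → ℂ => ID ℓ (S.comap π') d' ψ') (fun ψ' => OvK π' μ' ψ')
      (fun ψ' => ∀ g, (π'.comp q) g ∈ M → cgT 𝔐 ⊤ (fun x => ψ' (q x)) g = ω g)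
      (CRS.om 𝔐 π' M) (fun ω' ψ' => ∀ g, π' g ∈ M → cgT 𝔐 ⊤ ψ' g = ω' g) Ω ?_ ?_ ?_ ?_]
    · rw [Nat.cast_sum, Finset.mul_sum]
      rfl
    · intro ψ hψ h
      exact hΩ2 S ψ hψ.1 ((cond_iff h1 𝔐 hmax hq π' M ω hψ.1).1 h)
    · intro ψ ω' hω'
      exact hom ω' hω' ψ
    · intro ψ hψ h
      exact (cond_iff h1 𝔐 hmax hq π' M ω hψ.1).2 (hΩ1 _ h).1
    · exact Finite.of_injective
        (fun ψ : {ψ' : L' → ℂ // ID ℓ (S.comap π') d' ψ'} =>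
          (⟨ψ.1, CLIFF.mem_irrOn.mpr ψ.2.1⟩ : {x // x ∈ irrOn (S.comap π')}))
        (fun a b h => Subtype.ext (congrArg (fun t : {x // x ∈ irrOn (S.comap π')} => t.1) h))
  rw [hWC, CRS.CS_sum] at hne
  obtain ⟨ω', hω', hne'⟩ := Finset.exists_ne_zero_of_sum_ne_zero hne
  refine ⟨d', ω', (hΩ1 ω' hω').1, ?_, ?_⟩
  · intro θ hθ hov hdef hcen
    have hcard : padicValNat ℓ (Nat.card (π'.comp q).ker) =
        padicValNat ℓ (Nat.card π'.ker) + padicValNat ℓ (Nat.card q.ker) := by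
      have hs : Function.Surjective (π'.comp q) := hs'.comp hq
      have h4 := QINF.card_eq (π'.comp q) hs
      have h5 := QINF.card_eq π' hs'
      have h6 := QINF.card_eq q hq
      rw [h6, h5, ← mul_assoc] at h4
      have h7 := Nat.eq_of_mul_eq_mul_right Nat.card_pos h4
      rw [← h7, padicValNat.mul Nat.card_pos.ne' Nat.card_pos.ne', add_comm]
    have hID : ID ℓ (M.comap π') (padicValNat ℓ (Nat.card π'.ker)) (ext0 θ) := by
      refine ⟨STB.irrOn_ext0 hθ, ?_⟩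
      have h3 : (fun s : ↥(M.comap π') => ext0 θ (s : L')) = θ := MLE.ext0_coe θ
      rw [h3]
      exact hdef
    have hcg : ∀ g, π' g ∈ M → cgT 𝔐 ⊤ (ext0 θ) g = ω' g := by
      intro g hg
      rw [← STB.cen_eq]
      exact hcen g hg
    refine PSO.not_GdF hPos ⟨fun x => ext0 θ (q x), ?_, ?_, ?_⟩
    · rw [hcard]
      exact CRS.id_inf hq ℓ M _ hID
    · exact CRS.ov_inf hμ ((PSO.ovK_iff π' μ' M θ).2 hov)
    · refine (cond_iff h1 𝔐 hmax hq π' M ω hID.1).2 ?_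
      rw [(hom ω' hω' (ext0 θ)).1 hcg]
      exact (hΩ1 ω' hω').1
  · rw [PSO.DKU_eq]
    exact hne'

end Pool.Agent.DPK
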