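import Pool.Agent.DPK.StmtsD
import Pool.Agent.DPT.MLE

/-!
# QMC: stability for the quotient
-/

set_option autoImplicit false

namespace Pool.Agent.DPK

open Pool.Agent.DP Pool.Agent.DPC Pool.Agent.DPM Pool.Agent.DPN Pool.Agent.DPT Pool.Agent.DPF
open Pool.Agent.Lib_helper13
open Representation

namespace QMC

variable {G : Type} [Group G]

/-- Sums of functions which vanish outside a subgroup. -/
theorem sum_sub [Fintype G] (S : Subgroup G) [Fintype S] (F : G → ℂ)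
    (h : ∀ x, x ∉ S → F x = 0) : ∑ y : S, F y = ∑ x, F x := by
  classical
  rw [← Finset.sum_subtype (Finset.univ.filter (· ∈ S)) (p := (· ∈ S)) (by simp) F]
  refine Finset.sum_subset (Finset.subset_univ _) fun x _ hx => h x fun hx' => hx ?_
  exact Finset.mem_filter.mpr ⟨Finset.mem_univ x, hx'⟩

theorem sc_eq [Fintype G] (𝔐 : Ideal (integralClosure ℤ ℂ)) (S : Subgroup G) [Fintype S]
    (f : G → ℂ) (u : G → ℤ) (h : ∀ x, x ∉ S → f x = 0) :
    DPG.sc 𝔐 f u = red 𝔐 (wt (fun y : S => f y) (fun y : S => ((u y : ℤ) : ℂ))) := by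
  rw [DPG.sc, wt]
  congr 2
  exact (sum_sub S (fun x => ((u x : ℤ) : ℂ) * f x) fun x hx => by rw [h x hx, mul_zero]).symm

theorem sc_conj [Fintype G] (𝔐 : Ideal (integralClosure ℤ ℂ)) (f : G → ℂ) (u : G → ℤ) (l : G) :
    DPG.sc 𝔐 f (fun x => u (l * x * l⁻¹)) = DPG.sc 𝔐 (fun x => f (l⁻¹ * x * l)) u := by
  rw [DPG.sc, DPG.sc]
  have h1 : l⁻¹ * 1 * l = 1 := by group
  rw [h1]
  congr 2
  refine Fintype.sum_equiv (MulAut.conj l).toEquiv _ _ fun x => ?_
  have h2 : (MulAut.conj l).toEquiv x = l * x * l⁻¹ := rfl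
  have h3 : l⁻¹ * (l * x * l⁻¹) * l = x := by group
  rw [h2, h3]

/-- The central function on a subgroup. -/
theorem cen_eq [Fintype G] (𝔐 : Ideal (integralClosure ℤ ℂ)) (S : Subgroup G) [Fintype S]
    (f : G → ℂ) (h : ∀ x, x ∉ S → f x = 0) (g : S) :
    cen 𝔐 (MonoidHom.id S) (fun y : S => f y) g = DPG.sc 𝔐 f (clO S (g : G)) := by
  rw [sc_eq 𝔐 S f _ h, cen]
  congr 2
  funext y
  have h1 : (∃ o ∈ S, (y : G) = o * (g : G) * o⁻¹) ↔ IsConj (MonoidHom.id S y) g := by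
    rw [MonoidHom.id_apply, isConj_comm, isConj_iff]
    constructor
    · rintro ⟨o, ho, h⟩
      exact ⟨⟨o, ho⟩, Subtype.ext h.symm⟩
    · rintro ⟨o, ho⟩
      refine ⟨o, o.2, ?_⟩
      rw [← ho]
      rfl
  rw [conjInd, clO]
  by_cases hc : ∃ o ∈ S, (y : G) = o * (g : G) * o⁻¹
  · rw [if_pos hc, if_pos (h1.mp hc), Int.cast_one]
  · rw [if_neg hc, if_neg fun h2 => hc (h1.mpr h2), Int.cast_zero]

theorem clO_inv (S : Subgroup G) (g : G) : DPG.CIv S (clO S g) := by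
  intro s hs x
  rw [clO, clO]
  have h1 : (∃ o ∈ S, s * x * s⁻¹ = o * g * o⁻¹) ↔ ∃ o ∈ S, x = o * g * o⁻¹ := by
    constructor
    · rintro ⟨o, ho, h⟩
      refine ⟨s⁻¹ * o, S.mul_mem (S.inv_mem hs) ho, ?_⟩
      calc x = s⁻¹ * (s * x * s⁻¹) * s := by group
        _ = s⁻¹ * o * g * (s⁻¹ * o)⁻¹ := by
          rw [h]
          group
    · rintro ⟨o, ho, rfl⟩
      refine ⟨s * o, S.mul_mem hs ho, ?_⟩
      group
  by_cases hc : ∃ o ∈ S, x = o * g * o⁻¹
  · rw [if_pos hc, if_pos (h1.mpr hc)]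
  · rw [if_neg hc, if_neg fun h2 => hc (h1.mp h2)]

theorem clO_on (S : Subgroup G) {g : G} (hg : g ∈ S) : DPG.SOn (S : Set G) (clO S g) := by
  intro x hx
  rw [clO, if_neg]
  rintro ⟨o, ho, rfl⟩
  exact hx (S.mul_mem (S.mul_mem ho hg) (S.inv_mem ho))

/-- Conjugation by an element of the whole group on a normal subgroup. -/
theorem irr_conj (S : Subgroup G) [Finite G] (hS : S.Normal) {f : G → ℂ} (hf : IrrOn S f) (l : G) :
    IrrOn S (fun x => f (l⁻¹ * x * l)) := by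
  refine ⟨?_, ?_⟩
  · have h1 := hf.1.comp_mulEquiv (MulAut.conjNormal (H := S) l⁻¹)
    have h2 : (fun s : S => f s) ∘ (MulAut.conjNormal (H := S) l⁻¹) =
        fun s : S => f (l⁻¹ * s * l) := by
      funext s
      rw [Function.comp_apply, MulAut.conjNormal_apply, inv_inv]
    rw [h2] at h1
    exact h1
  · intro x hx
    apply hf.2
    intro h
    apply hx
    have h1 := hS.conj_mem _ h l
    have h2 : l * (l⁻¹ * x * l) * l⁻¹ = x := by group
    rwa [h2] at h1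

end QMC

open QMC in
/-- QMC. -/
theorem QMC_thm (h1 : Stmt_QMB) (h2 : Stmt_QMI) : Stmt_QMC := by
  intro L L' K _ _ _ _ _ _ 𝔐 ℓ _ hmax hℓ q π' hq _ hz μ μ' hμ N M hN hNM ω ω' hrel hstb
    f' hf' u' hu' hsu' l'
  classical
  obtain ⟨l, rfl⟩ := hq l'
  have hf := h1 L L' K 𝔐 hmax q π' hq μ μ' hμ N M hNM ω ω' hrel f' hf'
  have hS : (N.comap π').Normal := hN.comap π'
  have hirr1 : IrrOn (N.comap π') f' := hf'.1
  have hirr2 : IrrOn (N.comap π') (fun x => f' ((q l)⁻¹ * x * q l)) :=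
    irr_conj (N.comap π') hS hirr1 (q l)
  have hcen : cen 𝔐 (MonoidHom.id ↥((N.comap π').comap q))
      (fun y => (fun s : N.comap π' => f' ((q l)⁻¹ * s * q l)) (MLE.kT q (N.comap π') y)) =
      cen 𝔐 (MonoidHom.id ↥((N.comap π').comap q))
      (fun y => (fun s : N.comap π' => f' s) (MLE.kT q (N.comap π') y)) := by
    funext g
    have e1 := cen_eq 𝔐 ((N.comap π').comap q) (fun x => f' ((q l)⁻¹ * q x * q l))
      (fun x hx => hirr2.2 (q x) hx) g
    have e2 := cen_eq 𝔐 ((N.comap π').comap q) (fun x => f' (q x))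
      (fun x hx => hirr1.2 (q x) hx) g
    have e3 := hstb _ hf (clO ((N.comap π').comap q) (g : L)) (clO_inv _ _) (clO_on _ g.2) l
    rw [sc_conj] at e3
    have e4 : (fun x => f' (q (l⁻¹ * x * l))) = fun x => f' ((q l)⁻¹ * q x * q l) := by
      funext x
      rw [map_mul, map_mul, map_inv]
    have e5 : DPG.sc 𝔐 (fun x => f' ((q l)⁻¹ * q x * q l)) (clO ((N.comap π').comap q) (g : L)) =
        DPG.sc 𝔐 (fun x => f' (q x)) (clO ((N.comap π').comap q) (g : L)) := by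
      rw [← e4]
      exact e3
    exact (e1.trans e5).trans e2.symm
  have hker : (MLE.kT q (N.comap π')).ker ≤ Subgroup.center ↥((N.comap π').comap q) := by
    intro y hy
    have hy' : q (y : L) = 1 := MLE.mem_ker_kT.mp hy
    have hy2 : (y : L) ∈ Subgroup.center L := hz (by
      rw [MonoidHom.mem_ker, MonoidHom.comp_apply, hy', map_one])
    rw [Subgroup.mem_center_iff]
    intro x
    exact Subtype.ext (Subgroup.mem_center_iff.mp hy2 x)
  have hcen' := h2 ↥((N.comap π').comap q) ↥(N.comap π') 𝔐 ℓ hmax hℓ (MLE.kT q (N.comap π'))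
    (MLE.kT_surj (fun x _ => hq x)) hker _ _ hirr2.1 hirr1.1 hcen
  rw [sc_conj, sc_eq 𝔐 (N.comap π') _ _ hirr2.2, sc_eq 𝔐 (N.comap π') _ _ hirr1.2]
  have hcl : ∀ g x : N.comap π', ((u' (g * x * g⁻¹ : N.comap π') : ℤ) : ℂ) =
      ((u' x : ℤ) : ℂ) := by
    intro g x
    have h3 := hu' g g.2 x
    exact congrArg (fun t : ℤ => (t : ℂ)) h3
  have hint : ∀ x : N.comap π', IsIntegral ℤ ((u' x : ℤ) : ℂ) := fun x =>
    isIntegral_algebraMap (R := ℤ) (A := ℂ) (x := u' x)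
  have p1 := red_wt_eq_pair 𝔐 (MonoidHom.id ↥(N.comap π')) hirr2.1
    (fun y : N.comap π' => ((u' y : ℤ) : ℂ)) hcl hint
  have p2 := red_wt_eq_pair 𝔐 (MonoidHom.id ↥(N.comap π')) hirr1.1
    (fun y : N.comap π' => ((u' y : ℤ) : ℂ)) hcl hint
  refine (Eq.trans ?_ p1).trans ((congrArg (pair 𝔐 _) hcen').trans (Eq.trans p2.symm ?_))
  · rfl
  · rfl

end Pool.Agent.DPK
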