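import Mathlib
import Pool.Agent.DPK.StmtsD

/-!
# Dade's conjecture for the groups of a class: the support for the quotient
-/

namespace Pool.Agent.DPK.QMD

open Pool.Agent.DP Pool.Agent.DPC Pool.Agent.DPM Pool.Agent.DPN Pool.Agent.DPT Pool.Agent.DPF
open Pool.Agent.Lib_helper13
open Representation

variable {L L' : Type} [Group L] [Fintype L] [Group L'] [Fintype L']

open Classical in
/-- The sums over the fibres. -/
noncomputable def pz (q : L →* L') (u : L → ℤ) (x : L') : ℤ := ∑ y : L, if q y = x then u y else 0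

theorem pz_conv (q : L →* L') (u v : L → ℤ) : conv (pz q u) (pz q v) = pz q (conv u v) := by
  classical
  funext x
  have h1 : conv (pz q u) (pz q v) x =
      ∑ y : L, ∑ z : L, if q y * q z = x then u y * v z else 0 := by
    unfold conv pz
    have : ∀ y' : L', (∑ y : L, if q y = y' then u y else 0) *
        (∑ z : L, if q z = y'⁻¹ * x then v z else 0) =
        ∑ y : L, if q y = y' then (∑ z : L, if q y * q z = x then u y * v z else 0) else 0 := by
      intro y'
      rw [Finset.sum_mul]
      refine Finset.sum_congr rfl fun y _ => ?_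
      by_cases h : q y = y'
      · rw [if_pos h, if_pos h, Finset.mul_sum]
        refine Finset.sum_congr rfl fun z _ => ?_
        have : (q z = y'⁻¹ * x) ↔ (q y * q z = x) := by
          rw [h]
          constructor
          · intro h2
            rw [h2]
            group
          · intro h2
            rw [← h2]
            group
        by_cases h3 : q y * q z = x
        · rw [if_pos h3, if_pos (this.mpr h3)]
        · rw [if_neg h3, if_neg (fun h4 => h3 (this.mp h4)), mul_zero]
      · rw [if_neg h, if_neg h, zero_mul]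
    rw [Finset.sum_congr rfl fun y' _ => this y', Finset.sum_comm]
    refine Finset.sum_congr rfl fun y _ => ?_
    rw [Finset.sum_ite_eq]
    simp
  have h2 : pz q (conv u v) x = ∑ y : L, ∑ z : L, if q y * q z = x then u y * v z else 0 := by
    unfold conv pz
    have : ∀ w : L, (if q w = x then ∑ y : L, u y * v (y⁻¹ * w) else 0) =
        ∑ y : L, if q w = x then u y * v (y⁻¹ * w) else 0 := by
      intro w
      by_cases h : q w = x
      · simp [h]
      · simp [h]
    rw [Finset.sum_congr rfl fun w _ => this w, Finset.sum_comm]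
    refine Finset.sum_congr rfl fun y _ => ?_
    rw [← Equiv.sum_comp (Equiv.mulLeft y)]
    refine Finset.sum_congr rfl fun z _ => ?_
    simp
  rw [h1, h2]

theorem sc_pz (𝔐 : Ideal (integralClosure ℤ ℂ)) (q : L →* L') (u : L → ℤ) (f : L' → ℂ) :
    DPG.sc 𝔐 f (pz q u) = DPG.sc 𝔐 (fun x => f (q x)) u := by
  classical
  unfold DPG.sc
  have : (∑ x : L', ((pz q u x : ℤ) : ℂ) * f x) = ∑ x : L, ((u x : ℤ) : ℂ) * f (q x) := by
    unfold pz
    have h : ∀ x : L', (((∑ y : L, if q y = x then u y else 0 : ℤ)) : ℂ) * f x =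
        ∑ y : L, if q y = x then ((u y : ℤ) : ℂ) * f (q y) else 0 := by
      intro x
      rw [Int.cast_sum, Finset.sum_mul]
      refine Finset.sum_congr rfl fun y _ => ?_
      by_cases h : q y = x
      · rw [if_pos h, if_pos h, h]
      · rw [if_neg h, if_neg h]
        simp
    rw [Finset.sum_congr rfl fun x _ => h x, Finset.sum_comm]
    refine Finset.sum_congr rfl fun y _ => ?_
    rw [Finset.sum_ite_eq]
    simp
  rw [this]
  simp

theorem pz_inv (q : L →* L') (hq : Function.Surjective q) (S : Subgroup L') (u : L → ℤ)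
    (hu : DPG.CIv (S.comap q) u) : DPG.CIv S (pz q u) := by
  classical
  intro s hs x
  obtain ⟨n, rfl⟩ := hq s
  unfold pz
  rw [← Equiv.sum_comp (MulAut.conj n).toEquiv]
  refine Finset.sum_congr rfl fun y _ => ?_
  have h1 : (MulAut.conj n).toEquiv y = n * y * n⁻¹ := rfl
  rw [h1, hu n hs y]
  have h2 : (q (n * y * n⁻¹) = q n * x * (q n)⁻¹) ↔ q y = x := by
    rw [map_mul, map_mul, map_inv]
    constructor
    · intro h
      exact mul_left_cancel (mul_right_cancel h)
    · intro h
      rw [h]
  by_cases h3 : q y = x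
  · rw [if_pos h3, if_pos (h2.mpr h3)]
  · rw [if_neg h3, if_neg (fun h => h3 (h2.mp h))]

theorem pz_supp (q : L →* L') (u : L → ℤ) (S : Set L) (S' : Set L')
    (hS : ∀ x ∈ S, q x ∈ S') (hu : DPG.SOn S u) : DPG.SOn S' (pz q u) := by
  classical
  intro x hx
  unfold pz
  refine Finset.sum_eq_zero fun y _ => ?_
  by_cases h : q y = x
  · rw [if_pos h]
    refine hu y fun hy => hx ?_
    rw [← h]
    exact hS y hy
  · rw [if_neg h]

end Pool.Agent.DPK.QMD

namespace Pool.Agent.DPK

open Pool.Agent.DP Pool.Agent.DPC Pool.Agent.DPM Pool.Agent.DPN Pool.Agent.DPT Pool.Agent.DPF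
open Pool.Agent.Lib_helper13
open Representation

theorem QMD_thm (h1 : Stmt_QMB) : Stmt_QMD := by
  intro L L' K _ _ _ _ _ _ 𝔐 hM q π' hq μ μ' hμ N M hN hNM ω ω' hrel hspp f' hf' x' hx'
  obtain ⟨x, rfl⟩ := hq x'
  have hf := h1 L L' K 𝔐 hM q π' hq μ μ' hμ N M hNM ω ω' hrel f' hf'
  obtain ⟨u, v, hu, hv, hu', hv', hne⟩ := hspp _ hf x hx'
  refine ⟨QMD.pz q u, QMD.pz q v, QMD.pz_inv q hq _ u hu, QMD.pz_inv q hq _ v hv,
    QMD.pz_supp q u _ _ ?_ hu', QMD.pz_supp q v _ _ ?_ hv', ?_⟩
  · intro y hy
    change π' ((q x)⁻¹ * q y) ∈ N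
    rw [← map_inv, ← map_mul]
    exact hy
  · intro y hy
    change π' (q x * q y) ∈ N
    rw [← map_mul]
    exact hy
  · rw [QMD.pz_conv, QMD.sc_pz]
    exact hne

end Pool.Agent.DPK
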