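import Mathlib
import Pool.Agent.DPK.StmtsD
import Pool.Agent.DPT.STB

/-!
# QMF: the central function of an inflation
-/

namespace Pool.Agent.DPK

open Pool.Agent.DP Pool.Agent.DPC Pool.Agent.DPM Pool.Agent.DPN Pool.Agent.DPT Pool.Agent.DPF
open Pool.Agent.Lib_helper13
open Representation

namespace QMF

variable {L L' : Type} [Group L] [Fintype L] [Group L'] [Fintype L'] {q : L →* L'}

open Classical in
theorem sum_fib (g : L) :
    ∑ y : L, (if q y = q g then conjInd y g else 0) =
      ((Nat.card {y : L // IsConj y g ∧ q y = q g} : ℕ) : ℂ) := by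
  rw [Nat.card_eq_fintype_card, Fintype.card_subtype, Finset.card_filter, Nat.cast_sum]
  refine Finset.sum_congr rfl fun y _ => ?_
  rw [conjInd]
  by_cases h1 : q y = q g
  · by_cases h2 : IsConj y g
    · rw [if_pos h1, if_pos h2, if_pos ⟨h2, h1⟩, Nat.cast_one]
    · rw [if_pos h1, if_neg h2, if_neg (fun h => h2 h.1), Nat.cast_zero]
  · rw [if_neg h1, if_neg (fun h => h1 h.2), Nat.cast_zero]

open Classical in
theorem sum_fib' (hq : Function.Surjective q) (g : L) (x' : L') :
    ∑ x : L, (if q x = x' then conjInd x g else 0) =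
      ((Nat.card {y : L // IsConj y g ∧ q y = q g} : ℕ) : ℂ) * conjInd x' (q g) := by
  by_cases h : IsConj x' (q g)
  · obtain ⟨c, hc⟩ := isConj_iff.mp h
    obtain ⟨h0, rfl⟩ := hq c
    have h1 : conjInd x' (q g) = 1 := by
      rw [conjInd, if_pos h]
    rw [h1, mul_one, ← sum_fib]
    refine Fintype.sum_equiv (MulAut.conj h0).toEquiv _ _ fun x => ?_
    have h2 : (MulAut.conj h0).toEquiv x = h0 * x * h0⁻¹ := rfl
    rw [h2, conjInd_conj]
    by_cases h3 : q x = x'
    · rw [if_pos h3, if_pos]
      rw [map_mul, map_mul, map_inv, h3, hc]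
    · rw [if_neg h3, if_neg]
      intro h4
      apply h3
      rw [← hc, map_mul, map_mul, map_inv] at h4
      exact mul_left_cancel (mul_right_cancel h4)
  · have h1 : conjInd x' (q g) = 0 := by
      rw [conjInd, if_neg h]
    rw [h1, mul_zero]
    refine Finset.sum_eq_zero fun x _ => ?_
    by_cases h3 : q x = x'
    · rw [if_pos h3, conjInd, if_neg]
      intro h4
      apply h
      rw [← h3]
      obtain ⟨c, hc⟩ := isConj_iff.mp h4
      exact isConj_iff.mpr ⟨q c, by rw [← map_inv, ← map_mul, ← map_mul, hc]⟩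
    · rw [if_neg h3]

theorem sum_eq (hq : Function.Surjective q) (ψ : L' → ℂ) (g : L) :
    ∑ x, conjInd x g * ψ (q x) =
      ((Nat.card {y : L // IsConj y g ∧ q y = q g} : ℕ) : ℂ) *
        ∑ x', conjInd x' (q g) * ψ x' := by
  classical
  have h1 : ∀ x : L, conjInd x g * ψ (q x) =
      ∑ x' : L', (if q x = x' then conjInd x g else 0) * ψ x' := by
    intro x
    rw [Finset.sum_eq_single (q x)]
    · rw [if_pos rfl]
    · intro y _ hy
      rw [if_neg (Ne.symm hy), zero_mul]
    · intro hn
      exact absurd (Finset.mem_univ _) hn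
  rw [Finset.sum_congr rfl fun x _ => h1 x, Finset.sum_comm, Finset.mul_sum]
  refine Finset.sum_congr rfl fun x' _ => ?_
  rw [← Finset.sum_mul, sum_fib' hq, mul_assoc]

end QMF

/-- QMF: the central function of an inflation. -/
theorem QMF_thm : Stmt_QMF := by
  classical
  intro L L' _ _ _ _ 𝔐 hmax q hq S ψ hψ g
  haveI : 𝔐.IsPrime := hmax.isPrime
  haveI : Fintype S := Fintype.ofFinite _
  rw [cgT, cgT]
  have e1 : ∀ x g : L, cjT (⊤ : Subgroup L) x g = conjInd x g := fun x g => STB.cjT_top x g
  have e2 : ∀ x g : L', cjT (⊤ : Subgroup L') x g = conjInd x g := fun x g => STB.cjT_top x g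
  simp only [e1, e2, map_one]
  rw [QMF.sum_eq hq, mul_div_assoc]
  have h1 : (∑ x, conjInd x (q g) * ψ x) / ψ 1 =
      wt (fun s : S => ψ s) (fun s : S => conjInd (s : L') (q g)) := by
    rw [wt]
    congr 1
    symm
    rw [← Finset.sum_filter_of_ne (p := fun x => x ∈ S)]
    · exact (Finset.sum_subtype (Finset.univ.filter fun x => x ∈ S) (by simp)
        (fun x => conjInd x (q g) * ψ x)).symm
    · intro x _ hx
      by_contra h
      exact hx (by rw [hψ.2 x h, mul_zero])
  rw [h1, red_natCast_mul, nsmul_eq_mul]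
  refine isIntegral_wt hψ.1 (fun s : S => conjInd (s : L') (q g)) (fun a x => ?_)
    (fun x => isIntegral_conjInd (x : L') (q g))
  rw [Subgroup.coe_mul, Subgroup.coe_mul, Subgroup.coe_inv, conjInd_conj]

end Pool.Agent.DPK
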