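import Mathlib
import Pool.Agent.DPK.StmtsD

/-!
# QMI: characters of a quotient by a central subgroup whose inflations are in one block
-/

set_option autoImplicit false

namespace Pool.Agent.DPK

open Pool.Agent.DP Pool.Agent.DPC Pool.Agent.DPM Pool.Agent.DPN Pool.Agent.DPT Pool.Agent.DPF
open Pool.Agent.Lib_helper13
open Representation

namespace QMI

/-- The central function in terms of conjugacy under the whole group. -/
theorem cgT_top {T : Type} [Group T] [Fintype T] (𝔐 : Ideal (integralClosure ℤ ℂ)) (f : T → ℂ)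
    (g : T) : cgT 𝔐 ⊤ f g = cen 𝔐 (MonoidHom.id T) f g := by
  rw [cgT, cen, wt]
  congr 2
  refine Finset.sum_congr rfl fun x _ => ?_
  congr 1
  rw [cjT, conjInd]
  congr 1
  apply propext
  rw [MonoidHom.id_apply, isConj_iff]
  constructor
  · rintro ⟨t, _, h⟩
    refine ⟨t⁻¹, ?_⟩
    rw [h]
    group
  · rintro ⟨c, h⟩
    refine ⟨c⁻¹, Subgroup.mem_top _, ?_⟩
    rw [← h]
    group

/-- An irreducible character of the group is an irreducible character of the whole subgroup. -/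
theorem irrOn_top {T : Type} [Group T] [Fintype T] {χ : T → ℂ} (h : IsIrr χ) : IrrOn (⊤ : Subgroup T) χ :=
  ⟨h.comp_mulEquiv Subgroup.topEquiv, fun x hx => absurd (Subgroup.mem_top x) hx⟩

/-- Elements of order prime to `ℓ` lift to elements of order prime to `ℓ`. -/
theorem exists_lift {T T' : Type} [Group T] [Finite T] [Group T'] [Finite T'] (q : T →* T')
    (hq : Function.Surjective q) (ℓ : ℕ) [hp : Fact ℓ.Prime] (g' : T') (hg' : ¬ ℓ ∣ orderOf g') :
    ∃ g : T, q g = g' ∧ ¬ ℓ ∣ orderOf g := by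
  obtain ⟨g₀, rfl⟩ := hq g'
  obtain ⟨a, m, hm, hn⟩ := Nat.exists_eq_pow_mul_and_not_dvd (orderOf_pos g₀).ne' ℓ
    hp.out.one_lt.ne'
  have hcop : Nat.Coprime (orderOf (q g₀)) (ℓ ^ a) :=
    (Nat.Coprime.pow_left a ((Nat.Prime.coprime_iff_not_dvd hp.out).mpr hg')).symm
  obtain ⟨k, hk1, hk2⟩ := Nat.chineseRemainder hcop 1 0
  refine ⟨g₀ ^ k, ?_, ?_⟩
  · rw [map_pow]
    calc q g₀ ^ k = q g₀ ^ 1 := pow_eq_pow_iff_modEq.mpr hk1
      _ = q g₀ := pow_one _
  · intro h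
    apply hm
    have h1 : ℓ ^ a ∣ k := (Nat.modEq_zero_iff_dvd).mp hk2
    obtain ⟨c, rfl⟩ := h1
    have h2 : (g₀ ^ (ℓ ^ a * c)) ^ m = 1 := by
      rw [← pow_mul]
      have h3 : ℓ ^ a * c * m = orderOf g₀ * c := by
        rw [hn]
        ring
      rw [h3, pow_mul, pow_orderOf_eq_one, one_pow]
    exact h.trans (orderOf_dvd_of_pow_eq_one h2)

/-- The number of the conjugates of `g` in a coset of a central subgroup is prime to `ℓ`. -/
theorem card_fib {T T' : Type} [Group T] [Finite T] [Group T'] (q : T →* T')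
    (hz : q.ker ≤ Subgroup.center T) (ℓ : ℕ) [hp : Fact ℓ.Prime] (g : T)
    (hg : ¬ ℓ ∣ orderOf g) : ¬ ℓ ∣ Nat.card {y : T // IsConj y g ∧ q y = q g} := by
  have hc : ∀ u ∈ q.ker, ∀ x : T, x * u = u * x := fun u hu x =>
    (Subgroup.mem_center_iff.mp (hz hu)) x
  let V : Subgroup T :=
    { carrier := {u | u ∈ q.ker ∧ IsConj g (g * u)}
      one_mem' := by
        refine ⟨q.ker.one_mem, ?_⟩
        rw [mul_one]
      mul_mem' := by
        rintro u v ⟨hu, hu'⟩ ⟨hv, hv'⟩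
        refine ⟨q.ker.mul_mem hu hv, ?_⟩
        obtain ⟨x, hx⟩ := isConj_iff.mp hu'
        obtain ⟨y, hy⟩ := isConj_iff.mp hv'
        rw [isConj_iff]
        refine ⟨x * y, ?_⟩
        calc x * y * g * (x * y)⁻¹ = x * (y * g * y⁻¹) * x⁻¹ := by group
          _ = x * (g * v) * x⁻¹ := by rw [hy]
          _ = x * g * (v * x⁻¹) := by group
          _ = x * g * (x⁻¹ * v) := by rw [hc v hv x⁻¹]
          _ = x * g * x⁻¹ * v := by group
          _ = g * (u * v) := by rw [hx, mul_assoc]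
      inv_mem' := by
        rintro u ⟨hu, hu'⟩
        refine ⟨q.ker.inv_mem hu, ?_⟩
        obtain ⟨x, hx⟩ := isConj_iff.mp hu'
        rw [isConj_iff]
        refine ⟨x⁻¹, ?_⟩
        have h1 : g = x⁻¹ * (g * u) * x := by
          rw [← hx]
          group
        have h2 : x⁻¹ * g * x * u = g := by
          calc x⁻¹ * g * x * u = x⁻¹ * g * (x * u) := by group
            _ = x⁻¹ * g * (u * x) := by rw [hc u hu x]
            _ = x⁻¹ * (g * u) * x := by group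
            _ = g := h1.symm
        rw [inv_inv]
        exact eq_mul_inv_of_mul_eq h2 }
  have hcard : Nat.card {y : T // IsConj y g ∧ q y = q g} = Nat.card V := by
    refine Nat.card_congr ⟨fun y => ⟨g⁻¹ * y.1, ?_, ?_⟩, fun u => ⟨g * u.1, ?_, ?_⟩, ?_, ?_⟩
    · rw [MonoidHom.mem_ker, map_mul, map_inv, y.2.2, inv_mul_cancel]
    · rw [mul_inv_cancel_left]
      exact y.2.1.symm
    · exact u.2.2.symm
    · rw [map_mul, MonoidHom.mem_ker.mp u.2.1, mul_one]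
    · intro y
      apply Subtype.ext
      exact mul_inv_cancel_left g y.1
    · intro u
      apply Subtype.ext
      exact inv_mul_cancel_left g u.1
  rw [hcard]
  intro h
  obtain ⟨u, hu⟩ := exists_prime_orderOf_dvd_card' ℓ h
  have hu1 : orderOf (u : T) = ℓ := by
    rw [← hu]
    exact Subgroup.orderOf_coe u
  apply hg
  have h1 : Commute g (u : T) := hc _ u.2.1 g
  obtain ⟨x, hx⟩ := isConj_iff.mp u.2.2
  have h2 : (g * (u : T)) ^ orderOf g = 1 := by
    rw [← hx, conj_pow, pow_orderOf_eq_one]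
    group
  rw [h1.mul_pow, pow_orderOf_eq_one, one_mul] at h2
  rw [← hu1]
  exact orderOf_dvd_of_pow_eq_one h2

/-- A number prime to `ℓ` is not zero in the residue field. -/
theorem natCast_ne_zero (𝔐 : Ideal (integralClosure ℤ ℂ)) (hmax : 𝔐.IsMaximal) {ℓ : ℕ}
    [hp : Fact ℓ.Prime] (hℓ : (ℓ : integralClosure ℤ ℂ) ∈ 𝔐) (n : ℕ) (hn : ¬ ℓ ∣ n) :
    ((n : ℕ) : (integralClosure ℤ ℂ) ⧸ 𝔐) ≠ 0 := by
  intro h
  have h1 : ((ℓ : ℕ) : (integralClosure ℤ ℂ) ⧸ 𝔐) = 0 := by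
    rw [← map_natCast (Ideal.Quotient.mk 𝔐)]
    exact Ideal.Quotient.eq_zero_iff_mem.mpr hℓ
  have hcop : IsCoprime (ℓ : ℤ) (n : ℤ) :=
    Nat.isCoprime_iff_coprime.mpr ((Nat.Prime.coprime_iff_not_dvd hp.out).mpr hn)
  obtain ⟨a, b, hab⟩ := hcop
  have h2 : (((a * ℓ + b * n : ℤ)) : (integralClosure ℤ ℂ) ⧸ 𝔐) = 1 := by
    rw [hab, Int.cast_one]
  rw [Int.cast_add, Int.cast_mul, Int.cast_mul, Int.cast_natCast, Int.cast_natCast, h1, h,
    mul_zero, mul_zero, add_zero] at h2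
  have h3 : Nontrivial ((integralClosure ℤ ℂ) ⧸ 𝔐) := Ideal.Quotient.nontrivial_iff.mpr hmax.ne_top
  exact zero_ne_one h2

end QMI

open QMI in
/-- QMI. -/
theorem QMI_thm (h1 : Stmt_OSR) (h2 : Stmt_QMF) : Stmt_QMI := by
  intro T T' _ _ _ _ 𝔐 ℓ _ hmax hℓ q hq hz χ₁ χ₂ hχ₁ hχ₂ heq
  have hprime : 𝔐.IsPrime := hmax.isPrime
  apply h1 T' 𝔐 ℓ hmax hℓ χ₁ χ₂ hχ₁ hχ₂
  intro g' hg'
  obtain ⟨g, rfl, hg⟩ := exists_lift q hq ℓ g' hg'
  have e1 := h2 T T' 𝔐 hmax q hq ⊤ χ₁ (irrOn_top hχ₁) g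
  have e2 := h2 T T' 𝔐 hmax q hq ⊤ χ₂ (irrOn_top hχ₂) g
  rw [cgT_top, cgT_top] at e1 e2
  have e3 := congrFun heq g
  rw [e1, e2] at e3
  exact mul_left_cancel₀ (natCast_ne_zero 𝔐 hmax hℓ _ (card_fib q hz ℓ g hg)) e3

end Pool.Agent.DPK
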