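import Pool.Agent.DPK.StmtsD
import Pool.Agent.DPT.CRS

/-!
# QMU: passage to a faithful linear character
-/

set_option autoImplicit false

namespace Pool.Agent.DPK

open Pool.Agent.DP Pool.Agent.DPC Pool.Agent.DPM Pool.Agent.DPN Pool.Agent.DPT Pool.Agent.DPF
open Pool.Agent.Lib_helper13
open Representation

theorem QMU_thm (h1 : Stmt_QMA) (h2 : Stmt_QMC) (h3 : Stmt_QMD) : Stmt_QMU := by
  intro L K _ _ _ _ 𝔐 ℓ _ hmax hℓ π hs hc μ N M hN hM hNM ω d hpos hDK hSTB hSPP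
  obtain ⟨L', iG, iF, q, π', μ', hq, hπ', hμ, hinj⟩ := CRS.exists_q π hc μ
  obtain rfl : π = π'.comp q := MonoidHom.ext fun x => (hπ' x).symm
  have hs' : Function.Surjective π' := by
    intro k
    obtain ⟨x, rfl⟩ := hs k
    exact ⟨q x, rfl⟩
  have hc' : π'.ker ≤ Subgroup.center L' := by
    intro z' hz'
    obtain ⟨z, rfl⟩ := hq z'
    rw [Subgroup.mem_center_iff]
    intro y'
    obtain ⟨y, rfl⟩ := hq y'
    rw [← map_mul, ← map_mul, Subgroup.mem_center_iff.mp (hc hz') y]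
  obtain ⟨d', ω', hR, hP', hD'⟩ :=
    h1 L L' K 𝔐 ℓ hmax hℓ q π' hq hs' hc μ μ' hμ M hM ω d hpos hDK
  exact ⟨L', iG, iF, π', μ', d', ω', hs', hc', hinj, hP', hD',
    h2 L L' K 𝔐 ℓ hmax hℓ q π' hq hs' hc μ μ' hμ N M hN hNM ω ω' hR hSTB,
    h3 L L' K 𝔐 hmax q π' hq μ μ' hμ N M hN hNM ω ω' hR hSPP⟩

end Pool.Agent.DPK
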