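import Mathlib
import Pool.Agent.DPK.Stmts
import Pool.Agent.DPN.RDX

/-!
# RDXr: existence of reduced data, for a class of groups
-/

namespace Pool.Agent.DPK

open Pool.Agent.DP Pool.Agent.DPC Pool.Agent.DPM Pool.Agent.DPN Pool.Agent.DPT Pool.Agent.DPF
open Pool.Agent.Lib_helper13
open Representation
open Pool.Agent.Lib_helper13.Dade (pCore DadeHolds dadeSum)

open Pool.Agent.DPN.RDX in
/-- Existence of reduced data, for a class of groups. -/
theorem RDXr_thm (Cl : ∀ (Y : Type) [Group Y], Prop) (_hC : GC Cl) (h1 : Stmt_RDA)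
    (h2 : Stmt_RDQ) (h3 : Stmt_RDB) (h4 : Stmt_RDE) (h5 : Stmt_TDMr Cl) : Stmt_RDXr Cl := by
  intro A T H _ _ _ _ _ _ 𝔐 ℓ _ hM hℓ j c p hc hp hO hCl hH θ hθ hinv a ha
  obtain ⟨Γ, L, _, _, _, _, e, q, r, E, U, μ, π, tw⟩ := TWC_thm A T H j c p hc hp θ hθ hinv
  obtain ⟨L', _, _, κ, π', μ', qd⟩ := h2 L H 𝔐 ℓ hM hℓ U μ π tw.Uc tw.πk tw.cyc tw.inj
  obtain ⟨Aadd, Acgr, Amul, Aeqv, Aone, Actr⟩ :=
    h1 A T H Γ L 𝔐 ℓ hM hℓ j c p hc hp θ hθ hinv e q r E U μ π tw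
  have hπ's : Function.Surjective π' := by
    intro x
    obtain ⟨l, hl⟩ := tw.πs x
    exact ⟨κ l, by rw [qd.ππ, hl]⟩
  let s : L' → L := Function.surjInv qd.κs
  have hs : ∀ l', κ (s l') = l' := Function.surjInv_eq qd.κs
  let Lm : (T → ℤ) → L' → (integralClosure ℤ ℂ) ⧸ 𝔐 := fun u l' => LmL 𝔐 θ q r E u (s l')
  have hred1 : red 𝔐 (1 : ℂ) = 1 := by
    rw [red_of_integral 𝔐 isIntegral_one]
    exact map_one _
  have hLm : ∀ u, AIv j u → ∀ l, Lm u (κ l) = LmL 𝔐 θ q r E u l := by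
    intro u hu l
    have hz : s (κ l) * l⁻¹ ∈ κ.ker := by
      rw [MonoidHom.mem_ker, map_mul, map_inv, hs, mul_inv_cancel]
    have hzU := qd.κU hz
    have h6 := Actr u hu ⟨s (κ l) * l⁻¹, hzU⟩ l
    have h7 : κ (s (κ l) * l⁻¹) = 1 := hz
    have h8 : κ (s (κ l) * l⁻¹) ∈ π'.ker := by
      rw [h7]
      exact Subgroup.one_mem _
    have h9 := qd.μμ (s (κ l) * l⁻¹) hzU h8
    have h10 : μ' ⟨κ (s (κ l) * l⁻¹), h8⟩ = 1 := by
      have h11 : (⟨κ (s (κ l) * l⁻¹), h8⟩ : π'.ker) = 1 := Subtype.ext h7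
      rw [h11, map_one]
    rw [h10, Units.val_one, hred1] at h9
    rw [← h9, one_mul] at h6
    have h12 : ((⟨s (κ l) * l⁻¹, hzU⟩ : U) : L) * l = s (κ l) := inv_mul_cancel_right _ _
    rw [h12] at h6
    exact h6
  have hp' : ∀ l', π' l' = π (s l') := by
    intro l'
    rw [← qd.ππ, hs]
  refine ⟨L', inferInstance, inferInstance, π', μ', Lm, hπ's, qd.cc, qd.nl, ?_⟩
  refine
    { add := ?_, cgr := ?_, mul := ?_, eqv := ?_, one := ?_, ctr := ?_, num := ?_, van := ?_,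
      ext := ?_ }
  · intro u v hu hv w
    exact Aadd u v hu hv (s w)
  · intro u v hu hv w h
    refine Acgr u v hu hv (s w) fun t ht => h t ?_
    rw [hp', ht]
  · intro u v hu hv w w' h h'
    have h6 : w * w' = κ (s w * s w') := by rw [map_mul, hs, hs]
    rw [h6, hLm _ (AIv_conv hu hv)]
    exact Amul u v hu hv (s w) (s w') (fun t ht => h t (by rw [hp']; exact ht))
      (fun t ht => h' t (by rw [hp']; exact ht))
  · intro u hu t w' ht w
    have h6 : w' * w * w'⁻¹ = κ (s w' * s w * (s w')⁻¹) := by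
      rw [map_mul, map_mul, map_inv, hs, hs]
    rw [h6, hLm _ (AIv_conj hc hu t)]
    exact Aeqv u hu t (s w') (by rw [ht, hp']) (s w)
  · intro u hu
    have h6 : (1 : L') = κ 1 := (map_one κ).symm
    rw [h6, hLm u hu, Aone u hu]
  · intro u hu z w
    obtain ⟨l, hl⟩ := qd.κs (z : L')
    have hlU : l ∈ U := by
      rw [← tw.πk, ← qd.ππ, hl]
      exact z.2
    have h8 : κ l ∈ π'.ker := by
      rw [hl]
      exact z.2
    have h9 := qd.μμ l hlU h8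
    have h10 : (⟨κ l, h8⟩ : π'.ker) = z := Subtype.ext hl
    rw [h10] at h9
    rw [h9]
    have h11 : (z : L') * w = κ (l * s w) := by rw [map_mul, hl, hs]
    rw [h11, hLm u hu]
    exact Actr u hu ⟨l, hlU⟩ (s w)
  · intro X _ _ i ω V
    exact h3 A T H Γ L L' X 𝔐 ℓ hM hℓ j c p hc hp θ hθ hinv a ha e q r E U μ π tw κ π' μ' qd Lm
      hLm i ω V
  · intro m hm e' he' Q
    refine h5 L' H 𝔐 ℓ hM hℓ π' hπ's hO hCl hH π'.ker μ' qd.cc (fun l => Iff.rfl) qd.cyc qd.inj e' ?_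
      m hm Q
    rw [padicValNat.eq_zero_of_not_dvd qd.nl]
    exact he'
  · intro B V _ _ _ _ hV f α β hfβ hex
    exact h4 A T H Γ L L' B V 𝔐 ℓ hM hℓ j c p hc hp θ hθ hinv e q r E U μ π tw κ π' μ' qd Lm
      hLm hV f α β hfβ hex

end Pool.Agent.DPK
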