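import Mathlib
import Pool.Agent.DPK.Stmts
import Pool.Agent.DPT.STB

/-!
# STBr: the blocks of the normal subgroups of a minimal counterexample are stable (for the groups
of a class)
-/

namespace Pool.Agent.DPK

open Pool.Agent.DP Pool.Agent.DPC Pool.Agent.DPM Pool.Agent.DPN Pool.Agent.DPT
open Pool.Agent.Lib_helper13
open Representation
open Pool.Agent.Lib_helper13.Dade (pCore DadeHolds dadeSum)

open Pool.Agent.DPT.STB in
theorem STBr_thm (Cl : ∀ (Y : Type) [Group Y], Prop) (hC : GC Cl) (h1 : Stmt_STC)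
    (h2 : Stmt_DKVr Cl) : Stmt_STBr Cl := by
  classical
  intro X _ _ 𝔐 ℓ _ hM hl n hX hn hidx Z N hZ hZp hN d hd ω hKK ξ hξ hω
  by_contra hne
  apply hKK
  have hpos : (Nat.card (sx (cgT 𝔐 N ξ)) : ℚ) ≠ 0 := by
    exact_mod_cast (Nat.card_pos (α := ↥(sx (cgT 𝔐 N ξ)))).ne'
  refine (mul_eq_zero.mp ?_).resolve_left hpos
  rw [KK, Finset.mul_sum]
  have hterm : ∀ σ ∈ Ch ℓ Z, (Nat.card (sx (cgT 𝔐 N ξ)) : ℚ) *
      ((-1 : ℚ) ^ σ.card * ((Nat.card (stb σ) : ℚ) * cnt 𝔐 ℓ d (stb σ).subtype ω)) =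
      (-1 : ℚ) ^ σ.card * ((Nat.card (sx (cgT 𝔐 N ξ)) : ℚ) * ((Nat.card (stb σ) : ℚ) *
        Nat.card {ψ : X → ℂ // ID ℓ (stb σ) d ψ ∧ cgT 𝔐 ⊤ ψ = ω})) := by
    intro σ _
    rw [cnt_eq, mul_left_comm]
  rw [Finset.sum_congr rfl hterm]
  have hterm2 : ∀ σ ∈ Ch ℓ Z, _ = _ := fun σ hσ =>
    congrArg (fun q : ℚ => (-1 : ℚ) ^ σ.card * q)
      (h1 X 𝔐 ℓ hM hl Z N hZ hN ω ξ hξ hω σ (mem_Ch.mp hσ) d)
  rw [Finset.sum_congr rfl hterm2]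
  simp only [Finset.mul_sum]
  rw [Finset.sum_comm]
  apply Finset.sum_eq_zero
  intro g _
  have hcY : Subgroup.center X ≤ sx (cgT 𝔐 N (fun x => ξ (g * x * g⁻¹))) := center_le_sx _
  have hY : sx (cgT 𝔐 N (fun x => ξ (g * x * g⁻¹))) ≠ ⊤ := fun h => hne (sx_top 𝔐 ξ g h)
  have hs := sum_eq 𝔐 ℓ d Z (sx (cgT 𝔐 N (fun x => ξ (g * x * g⁻¹)))) N (hZ.trans hcY) ω
    (cgT 𝔐 (sx (cgT 𝔐 N (fun x => ξ (g * x * g⁻¹)))) (fun x => ξ (g * x * g⁻¹)))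
  refine Eq.trans ?_ (hs.trans ?_)
  · refine Finset.sum_congr rfl fun σ _ => ?_
    congr 1
  · refine h2 _ _ 𝔐 ℓ hM hl n (hC.sub hX _) hn (index_le hcY hY hidx) _ ?_ ?_ d ?_ _ _
    · intro y hy
      rw [Subgroup.mem_center_iff]
      intro x
      apply Subtype.ext
      exact Subgroup.mem_center_iff.mp (hZ (Subgroup.mem_subgroupOf.mp hy)) (x : X)
    · exact hZp.of_injective
        ((Subgroup.subgroupOfEquivOfLe (hZ.trans hcY)).toMonoidHom)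
        (Subgroup.subgroupOfEquivOfLe (hZ.trans hcY)).injective
    · rw [Nat.card_congr (Subgroup.subgroupOfEquivOfLe (hZ.trans hcY)).toEquiv]
      exact hd

end Pool.Agent.DPK
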