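import Pool.Agent.DPK.Stmts
import Pool.Agent.DPN.STRN

/-!
# The proper quotients of a minimal counterexample of a class of groups
-/

set_option linter.unusedVariables false

namespace Pool.Agent.DPK

open Pool.Agent.DP Pool.Agent.DPC Pool.Agent.DPM Pool.Agent.DPN Pool.Agent.Lib_helper13
open Representation
open Pool.Agent.Lib_helper13.Dade (pCore DadeHolds dadeSum)

open Pool.Agent.DPN.STRN in
theorem STRNr_thm (Cl : ∀ (Y : Type) [Group Y], Prop) (hC : GC Cl) (h1 : Stmt_DLO)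
    (h2 : Stmt_FINNr Cl) : Stmt_STRNr Cl := by
  intro X _ _ ℓ _ hc hX hQ hD N hN hlt
  obtain ⟨𝔐, hM, hℓ, d, ω, hd, hK⟩ := h1 X ℓ hc hD
  have hPn := PP_normal ℓ N
  have hNP := le_PP ℓ N
  have hfin : Fintype (X ⧸ PP ℓ N) := Fintype.ofFinite _
  have hfin' : Fintype (PP ℓ N) := Fintype.ofFinite _
  have hcP : pCore ℓ X ≤ PP ℓ N := hc.trans (hlt.le.trans hNP)
  have hmap : ((pCore ℓ X).subgroupOf (PP ℓ N)).map (PP ℓ N).subtype = pCore ℓ X :=
    Subgroup.map_subgroupOf_eq_of_le hcP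
  have hi : (Subgroup.center X).index ≠ 0 := Subgroup.index_ne_zero_of_finite
  have hlt' : N.index < (Subgroup.center X).index := Subgroup.index_strictAnti hlt
  have hle : (PP ℓ N).index ≤ N.index :=
    Nat.le_of_dvd (Nat.pos_of_ne_zero Subgroup.index_ne_zero_of_finite)
      (Subgroup.index_dvd_of_le hNP)
  have hF := h2 (PP ℓ N) X (X ⧸ PP ℓ N) 𝔐 ℓ hM hℓ (PP ℓ N).subtype
    (MulAut.conjNormal (H := PP ℓ N)) (QuotientGroup.mk' (PP ℓ N)) (clG X (PP ℓ N))
    (QuotientGroup.mk'_surjective _) (core_quot ℓ N (PP ℓ N) rfl)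
    ((Subgroup.center X).index - 1) hX hQ
    (by rw [Subgroup.range_subtype]; exact hlt.le.trans hNP)
    (by omega)
    (by
      rw [← Subgroup.index_eq_card]
      omega)
    ((pCore ℓ X).subgroupOf (PP ℓ N))
    ((isPGroup_pCore (G := X) ℓ).comap_subtype)
    (by rw [hmap]; exact hc) d ω
    (by rw [Nat.card_congr (Subgroup.subgroupOfEquivOfLe hcP).toEquiv]; exact hd)
    (by rw [hmap, DK_eq]; exact hK)
  obtain ⟨f1, f2, x', y', f3⟩ := hF
  obtain ⟨x, rfl⟩ := QuotientGroup.mk'_surjective _ x'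
  obtain ⟨y, rfl⟩ := QuotientGroup.mk'_surjective _ y'
  refine ⟨PP ℓ N, hPn, hNP, pow_mem ℓ N, ?_, f1, x, y, ?_⟩
  · rw [Subgroup.index_eq_card]
    exact f2
  · have h5 : (Subgroup.closure {x, y}).map (QuotientGroup.mk' (PP ℓ N)) = ⊤ := by
      rw [MonoidHom.map_closure, Set.image_pair]
      exact f3
    have h6 := Subgroup.comap_map_eq (QuotientGroup.mk' (PP ℓ N)) (Subgroup.closure {x, y})
    rw [h5, QuotientGroup.ker_mk', Subgroup.comap_top] at h6
    exact h6.symm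

end Pool.Agent.DPK
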