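import Mathlib
import Pool.Agent.DPK.Stmts
import Pool.Agent.DPF.T2B

/-!
# Dade's conjecture for the groups of a class: the relations imply that the sum over the chains
vanishes
-/

set_option autoImplicit false
set_option linter.unusedVariables false

namespace Pool.Agent.DPK

open Pool.Agent.DP Pool.Agent.DPC Pool.Agent.DPM Pool.Agent.DPN Pool.Agent.DPT Pool.Agent.DPF
open Pool.Agent.Lib_helper13
open Representation
open Pool.Agent.Lib_helper13.Dade (pCore DadeHolds dadeSum)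

open Classical in
theorem T2Br_thm (Cl : ∀ (Y : Type) [Group Y], Prop) (hC : GC Cl) (h1 : Stmt_PSZr Cl)
    (h2 : Stmt_PS3r Cl) (h3 : Stmt_EXPU) (h4 : Stmt_T2D) : Stmt_T2Br Cl := by
  intro L K H W _ _ _ _ _ _ _ _ 𝔐 ℓ _ hM hℓ π hπ hc μ M _ p hp hpM P hP hcore hCl hQ ω hpos πW
    hπW ν hnum hT2 d
  rw [h1 L K H 𝔐 ℓ hM hℓ π hπ hc μ hcore hCl hQ M p hp hpM P hP ω hpos d]
  obtain ⟨m, hm⟩ := (MOBX_thm H).1
  have hm1 : m ⊤ = 1 := ((MOBX_thm H).2 m hm).1
  have hL : ∑ V, m V * PHU 𝔐 ℓ d π μ M (V.comap p) ω = PHU 𝔐 ℓ d π μ M ⊤ ω := by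
    rw [Finset.sum_eq_single (⊤ : Subgroup H)]
    · rw [hm1, one_mul, Subgroup.comap_top]
    · intro V _ hV
      have hV' : V.comap p ≠ ⊤ := by
        intro h
        apply hV
        apply Subgroup.comap_injective hp
        rw [h, Subgroup.comap_top]
      have hlt : Nat.card ↥(V.comap p) < Nat.card K :=
        lt_of_le_of_ne (Subgroup.card_le_card_group _)
          (fun h => hV' (Subgroup.eq_top_of_card_eq _ h))
      rw [h2 L K H 𝔐 ℓ hM hℓ π hπ hc μ M p hp hpM P hP ω hpos V hCl (hQ _ hlt) d,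
        mul_zero]
    · intro h
      exact absurd (Finset.mem_univ _) h
  rw [← hL, h3 L K H 𝔐 ℓ π hπ hc μ M p hp hpM ω d m hm]
  have hdd : ∀ (τ : Finset (Subgroup M)) (θ : ↥(SL π M τ M) → ℂ), ∃ a : ℕ,
      PrU 𝔐 π μ p M ω τ θ → HasDefect ℓ θ a := by
    intro τ θ
    by_cases h : PrU 𝔐 π μ p M ω τ θ
    · obtain ⟨a, ha⟩ := h.irr.exists_defect (ℓ := ℓ)
      exact ⟨a, fun _ => ha⟩
    · exact ⟨0, fun h' => absurd h' h⟩
  choose dd hdd using hdd
  let S : Finset (Σ τ : Finset (Subgroup M), (↥(SL π M τ M) → ℂ)) :=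
    (Ch ℓ (⊥ : Subgroup M)).sigma
      (fun τ => (irrF (SL π M τ M)).filter (fun θ => PrU 𝔐 π μ p M ω τ θ))
  have hS : ∀ i : ↥S, PrU 𝔐 π μ p M ω i.1.1 i.1.2 := by
    intro i
    have := i.2
    rw [Finset.mem_sigma] at this
    exact (Finset.mem_filter.mp this.2).2
  have key := h4 W H ↥S ℓ πW hπW P hP
    (fun i => (-1 : ℚ) ^ i.1.1.card * (Nat.card ↥(M ⊓ stb (mapCh M.subtype i.1.1)) : ℚ))
    (fun i => dd i.1.1 i.1.2) (fun i => ν i.1.1 i.1.2)
    (fun i => (hnum i.1.1 i.1.2 (hS i)).inv) ?_ m hm (d + padicValNat ℓ (Nat.card πW.ker))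
  · rw [T2B.sum_sig (Ch ℓ (⊥ : Subgroup M))
      (fun τ => (irrF (SL π M τ M)).filter (fun θ => PrU 𝔐 π μ p M ω τ θ))
      (fun τ θ => (-1 : ℚ) ^ τ.card * (Nat.card ↥(M ⊓ stb (mapCh M.subtype τ)) : ℚ) *
        PSM ℓ πW m (ν τ θ) (dd τ θ) (d + padicValNat ℓ (Nat.card πW.ker)))] at key
    rw [← key]
    refine Finset.sum_congr rfl fun τ _ => ?_
    rw [Finset.mul_sum]
    refine Finset.sum_congr rfl fun θ hθ => ?_
    have hPr : PrU 𝔐 π μ p M ω τ θ := (Finset.mem_filter.mp hθ).2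
    rw [T2B.PSM_eq ℓ πW m (ν τ θ) θ (hdd τ θ hPr), mul_assoc]
    refine congrArg _ (congrArg _ (Finset.sum_congr rfl fun V _ => ?_))
    rw [(hnum τ θ hPr).num V d]
  · intro a ha n
    have h5 := hT2 a ha n
    rw [T2B.sum_sig_filter (Ch ℓ (⊥ : Subgroup M))
      (fun τ => (irrF (SL π M τ M)).filter (fun θ => PrU 𝔐 π μ p M ω τ θ))
      (fun τ θ => dd τ θ = n)
      (fun τ θ => (((-1 : ℚ) ^ τ.card * (Nat.card ↥(M ⊓ stb (mapCh M.subtype τ)) : ℚ) : ℚ) : ℂ) *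
        ((ν τ θ a : ℂˣ) : ℂ))]
    rw [← h5]
    refine Finset.sum_congr rfl fun τ _ => ?_
    rw [Finset.mul_sum, Finset.filter_filter]
    have h6 : (irrF (SL π M τ M)).filter (fun θ => PrU 𝔐 π μ p M ω τ θ ∧ dd τ θ = n) =
        (irrF (SL π M τ M)).filter (fun θ => PrU 𝔐 π μ p M ω τ θ ∧ HasDefect ℓ θ n) := by
      refine Finset.filter_congr fun θ _ => and_congr_right fun hPr => ?_
      constructor
      · rintro rfl
        exact hdd τ θ hPr
      · exact fun h => HasDefect.unique (hdd τ θ hPr) h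
    rw [h6]
    refine Finset.sum_congr rfl fun θ _ => ?_
    push_cast
    ring

end Pool.Agent.DPK
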