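import Pool.Agent.DPK.Stmts

/-!
# T2R: the twisted relations (for the groups of a class)
-/

namespace Pool.Agent.DPK

open Pool.Agent.DP Pool.Agent.DPC Pool.Agent.DPM Pool.Agent.DPN Pool.Agent.DPT Pool.Agent.DPF
open Pool.Agent.Lib_helper13
open Representation
open Pool.Agent.Lib_helper13.Dade (pCore DadeHolds dadeSum)

open Classical in
theorem T2Rr_thm (Cl : ∀ (Y : Type) [Group Y], Prop) (hC : GC Cl) (h1 : Stmt_PS3r Cl)
    (h2 : Stmt_EXPU) (h3 : Stmt_FBA) (h4 : Stmt_FBB) (h5 : Stmt_FBC) : Stmt_T2Rr Cl := by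
  have _hC := hC
  intro L K H W _ _ _ _ _ _ _ _ 𝔐 ℓ _ hmax hl π hπ hc μ M _ p hp hpM P hP hClK hQ ω hpos πW hW
    hWc ν hE m hm ν' n
  obtain ⟨s1, s2, s3⟩ := h3 L K H W 𝔐 ℓ hmax hl π hπ hc μ M p hp hpM ω πW hW hWc ν'
  have s4 := s3 hpos
  have e0 : ∀ V : Subgroup H,
      PHU 𝔐 ℓ n (piY π p πW) (muY π p πW μ ν') M (V.comap p) (omY 𝔐 π p πW ν' ω) = 0 := by
    intro V
    exact h1 _ K H 𝔐 ℓ hmax hl (piY π p πW) s1 s2 (muY π p πW μ ν') M p hp hpM P hP _ s4 V hClK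
      (hQ.mono (Nat.card_le_card_of_injective _ (Subgroup.subtype_injective _))) n
  have e1 := h2 _ K H 𝔐 ℓ (piY π p πW) s1 s2 (muY π p πW μ ν') M p hp hpM
    (omY 𝔐 π p πW ν' ω) n m hm
  have e2 : ∑ V, m V * PHU 𝔐 ℓ n (piY π p πW) (muY π p πW μ ν') M (V.comap p)
      (omY 𝔐 π p πW ν' ω) = 0 := by
    apply Finset.sum_eq_zero
    intro V _
    rw [e0 V, mul_zero]
  rw [e2] at e1
  rw [e1]
  apply Finset.sum_congr rfl
  intro τ _
  congr 1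
  rw [h4 L K H W 𝔐 ℓ hmax hl π hπ hc μ M p hp hpM ω πW hW hWc ν' τ
    (fun θ => (Nat.card ↥(M ⊓ stb (mapCh M.subtype τ)) : ℚ) *
            ∑ V : Subgroup H, m V * ((Nat.card V : ℚ) *
              Nat.card {ψ : ↥(SL (piY π p πW) M τ (V.comap p)) → ℂ // IsIrr ψ ∧
                ip (fun a : ↥(SL (piY π p πW) M τ M) => ext0 ψ (a : fpr (p.comp π) πW)) θ ≠ 0 ∧
                HasDefect ℓ ψ n}))]
  apply Finset.sum_congr rfl
  intro θ hθ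
  rw [Finset.mem_filter] at hθ
  congr 1
  apply Finset.sum_congr rfl
  intro V _
  rw [h5 L K H W 𝔐 ℓ hmax hl π hπ hc μ M p hp hpM ω πW hW hWc (ν τ θ) ν' τ θ hθ.2
    (hE τ θ hθ.2) V n]

end Pool.Agent.DPK
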