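import Mathlib
import Pool.Agent.DPN.TDC
import Pool.Agent.DPK.Stmts

/-!
# The twisted chain sums with a condition on the central functions, for a class of groups
(module TDCr)
-/

set_option linter.unusedSectionVars false

namespace Pool.Agent.DPK

open Pool.Agent.DP Pool.Agent.DPC Pool.Agent.DPM Pool.Agent.DPN Pool.Agent.Lib_helper13
open Representation
open Pool.Agent.Lib_helper13.Dade (pCore DadeHolds dadeSum)

open Classical in
theorem TDCr_thm (Cl : ∀ (Y : Type) [Group Y], Prop) (hC : GC Cl) : Stmt_TDCr Cl := by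
  intro L K X _ _ _ _ _ _ 𝔐 ℓ _ hmax hℓ π hπs hcore hCK hHQ U μ hUc hπk hcyc hinj d hd i Q
  by_contra hne
  -- split according to the central function
  have hfin : (⋃ σ ∈ Ch ℓ (⊥ : Subgroup K), {x : L → (integralClosure ℤ ℂ) ⧸ 𝔐 |
      ∃ ψ : ↥((stb σ).comap π) → ℂ, IsIrr ψ ∧
      cen 𝔐 ((stb σ).comap π).subtype ψ = x}).Finite := by
    apply Set.Finite.biUnion (Finset.finite_toSet _)
    intro τ _
    exact finite_cen 𝔐 _
  have hCh : ∀ σ ∈ Ch ℓ (⊥ : Subgroup K), ∀ ψ : ↥((stb σ).comap π) → ℂ, IsIrr ψ →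
      cen 𝔐 ((stb σ).comap π).subtype ψ ∈ hfin.toFinset := by
    intro σ hσ ψ hψ
    rw [Set.Finite.mem_toFinset, Set.mem_iUnion₂]
    exact ⟨σ, hσ, ψ, hψ, rfl⟩
  have hsplit : ∑ σ ∈ Ch ℓ (⊥ : Subgroup K), (-1 : ℚ) ^ σ.card * ((Nat.card (stb σ) : ℚ) *
      Nat.card {η : ↥((stb σ).comap π) → ℂ // IsIrr η ∧ OvL U μ _ η ∧
        HasDefect ℓ η d ∧ cen 𝔐 (i.comp ((stb σ).comap π).subtype) η ∈ Q}) =
      ∑ x ∈ hfin.toFinset, ∑ σ ∈ Ch ℓ (⊥ : Subgroup K),
        ((-1 : ℚ) ^ σ.card * (Nat.card (stb σ) : ℚ)) *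
        Nat.card {η : ↥((stb σ).comap π) → ℂ // IsIrr η ∧ (OvL U μ _ η ∧
          HasDefect ℓ η d ∧ cen 𝔐 (i.comp ((stb σ).comap π).subtype) η ∈ Q) ∧
          cen 𝔐 ((stb σ).comap π).subtype η = x} := by
    rw [Finset.sum_comm]
    refine Finset.sum_congr rfl fun σ hσ => ?_
    rw [TD.card_split (fun η : ↥((stb σ).comap π) → ℂ => OvL U μ _ η ∧
        HasDefect ℓ η d ∧ cen 𝔐 (i.comp ((stb σ).comap π).subtype) η ∈ Q)
      (fun η => cen 𝔐 ((stb σ).comap π).subtype η) hfin.toFinset (hCh σ hσ)]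
    rw [Nat.cast_sum, Finset.mul_sum, Finset.mul_sum]
    refine Finset.sum_congr rfl fun x _ => ?_
    rw [mul_assoc]
  rw [hsplit] at hne
  obtain ⟨x, -, hx'⟩ := Finset.exists_ne_zero_of_sum_ne_zero hne
  have hxQ : x ∈ TDC.QL 𝔐 i Q := by
    by_contra hxn
    apply hx'
    refine Finset.sum_eq_zero fun σ hσ => ?_
    have hempty : IsEmpty {η : ↥((stb σ).comap π) → ℂ // IsIrr η ∧ (OvL U μ _ η ∧
          HasDefect ℓ η d ∧ cen 𝔐 (i.comp ((stb σ).comap π).subtype) η ∈ Q) ∧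
          cen 𝔐 ((stb σ).comap π).subtype η = x} := by
      constructor
      rintro ⟨η, h1, ⟨-, -, h2⟩, h3⟩
      apply hxn
      rw [← h3]
      exact (TDC.mem_QL 𝔐 i _ Q h1).mp h2
    rw [@Nat.card_of_isEmpty _ hempty, Nat.cast_zero, mul_zero]
  have hx : ∑ σ ∈ Ch ℓ (⊥ : Subgroup K),
        ((-1 : ℚ) ^ σ.card * (Nat.card (stb σ) : ℚ)) *
        Nat.card {η : ↥((stb σ).comap π) → ℂ // IsIrr η ∧ OvL U μ _ η ∧
          HasDefect ℓ η d ∧ cen 𝔐 ((stb σ).comap π).subtype η = x} ≠ 0 := by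
    intro h0
    apply hx'
    rw [← h0]
    refine Finset.sum_congr rfl fun σ _ => ?_
    congr 2
    refine Nat.card_congr (Equiv.subtypeEquivRight fun η => ?_)
    constructor
    · rintro ⟨h1, ⟨h2, h3, -⟩, h4⟩
      exact ⟨h1, h2, h3, h4⟩
    · rintro ⟨h1, h2, h3, h4⟩
      refine ⟨h1, ⟨h2, h3, ?_⟩, h4⟩
      rw [TDC.mem_QL 𝔐 i _ Q h1, h4]
      exact hxQ
  -- isolation
  have hUS : ∀ σ ∈ Ch ℓ (⊥ : Subgroup K), U ≤ (stb σ).comap π := by
    intro σ _ u hu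
    rw [Subgroup.mem_comap, (hπk u).mpr hu]
    exact one_mem _
  obtain ⟨L', iL', fL', q', d', c', hq's, hq'U, hq'p, hd', hsum, -⟩ :=
    all_ISOL L (Finset (Subgroup K)) 𝔐 ℓ hmax hℓ U μ hUc hcyc hinj (Ch ℓ (⊥ : Subgroup K))
      (fun σ => (-1 : ℚ) ^ σ.card * (Nat.card (stb σ) : ℚ)) (fun σ => (stb σ).comap π) hUS
      d x hx
  -- the projection of the quotient
  have hker : q'.ker ≤ π.ker := by
    intro l hl
    exact (hπk l).mpr (hq'U hl)
  let π' : L' →* K := q'.liftOfSurjective hq's ⟨π, hker⟩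
  have hπ' : ∀ l, π' (q' l) = π l := fun l => MonoidHom.liftOfRightInverse_comp_apply _ _ _ _ l
  have hπ's : Function.Surjective π' := by
    intro k
    obtain ⟨l, hl⟩ := hπs k
    exact ⟨q' l, by rw [hπ', hl]⟩
  have hπ'k : π'.ker = U.map q' := by
    ext l'
    obtain ⟨l, rfl⟩ := hq's l'
    rw [MonoidHom.mem_ker, hπ', hπk, Subgroup.mem_map]
    constructor
    · intro h
      exact ⟨l, h, rfl⟩
    · rintro ⟨u, hu, hul⟩
      have h6 : u⁻¹ * l ∈ q'.ker := by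
        rw [MonoidHom.mem_ker, map_mul, map_inv, hul, inv_mul_cancel]
      have h7 := U.mul_mem hu (hq'U h6)
      rwa [mul_inv_cancel_left] at h7
  have hcent : π'.ker ≤ Subgroup.center L' := by
    rw [hπ'k]
    rintro _ ⟨u, hu, rfl⟩
    rw [Subgroup.mem_center_iff]
    intro g
    obtain ⟨l, rfl⟩ := hq's g
    rw [← map_mul, ← map_mul, Subgroup.mem_center_iff.mp (hUc hu) l]
  have hmap : ∀ V : Subgroup K, (V.comap π).map q' = V.comap π' := by
    intro V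
    ext l'
    obtain ⟨l, rfl⟩ := hq's l'
    rw [Subgroup.mem_comap, hπ', Subgroup.mem_map]
    constructor
    · rintro ⟨u, hu, hul⟩
      rw [Subgroup.mem_comap] at hu
      rwa [← hπ', ← hul, hπ']
    · intro h
      exact ⟨l, h, rfl⟩
  obtain ⟨h6, h7, h8⟩ := CHC_thm L' K ℓ π' hπ's hcent hcore
  have h9 : KK 𝔐 ℓ d' (pCore ℓ L') c' ≠ 0 := by
    have h10 := h8 (fun S => Nat.card S * cnt 𝔐 ℓ d' S.subtype c')
    rw [KK, h10]
    have h11 : ∑ σ ∈ Ch ℓ (⊥ : Subgroup K), (-1 : ℚ) ^ σ.card *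
        ((Nat.card ↥((stb σ).comap π') : ℚ) * cnt 𝔐 ℓ d' ((stb σ).comap π').subtype c') =
        (Nat.card π'.ker : ℚ) * ∑ σ ∈ Ch ℓ (⊥ : Subgroup K),
          (-1 : ℚ) ^ σ.card * (Nat.card (stb σ) : ℚ) *
            cnt 𝔐 ℓ d' (((stb σ).comap π).map q').subtype c' := by
      rw [Finset.mul_sum]
      refine Finset.sum_congr rfl fun σ _ => ?_
      rw [TD.card_comap π' hπ's, hmap, Nat.cast_mul]
      ring
    rw [h11]
    refine mul_ne_zero ?_ hsum
    exact Nat.cast_ne_zero.mpr Nat.card_pos.ne'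
  have h12 : (Subgroup.center L').index ≤ Nat.card K := by
    have h13 : π'.ker.index = Nat.card K := by
      rw [Subgroup.index_ker, MonoidHom.range_eq_top.mpr hπ's]
      exact Nat.card_congr Subgroup.topEquiv.toEquiv
    rw [← h13]
    exact Nat.le_of_dvd (Nat.pos_of_ne_zero Subgroup.index_ne_zero_of_finite)
      (Subgroup.index_dvd_of_le hcent)
  have h14 : DadeHolds ℓ L' := hHQ L' (hC.up L' K π' hcent hCK) h6 h12
  obtain ⟨h15, -⟩ := all_DZC L' 𝔐 ℓ hmax hℓ h6 h14 d' c' h9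
  rw [h7] at h15
  have h16 : d' ≤ padicValNat ℓ (Nat.card π'.ker) :=
    (Nat.pow_le_pow_iff_right (Fact.out : ℓ.Prime).one_lt).mp h15
  have h17 : Nat.card U = Nat.card π'.ker * Nat.card q'.ker := by
    have h18 := TD.card_comap q' hq's (U.map q')
    rw [Subgroup.comap_map_eq_self hq'U] at h18
    rw [h18, hπ'k, mul_comm]
  have h19 : padicValNat ℓ (Nat.card U) = padicValNat ℓ (Nat.card π'.ker) +
      padicValNat ℓ (Nat.card q'.ker) := by
    rw [h17, padicValNat.mul Nat.card_pos.ne' Nat.card_pos.ne']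
  omega

end Pool.Agent.DPK
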