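import Mathlib
import Pool.Agent.DPK.Stmts
import Pool.Agent.DPN.TDM

set_option linter.unusedSectionVars false

/-!
# TDM for a class of groups: the twisted Moebius sums
-/

namespace Pool.Agent.DPK

open Pool.Agent.DP Pool.Agent.DPC Pool.Agent.DPM Pool.Agent.DPN Pool.Agent.DPT Pool.Agent.DPF
open Pool.Agent.Lib_helper13
open Representation
open Pool.Agent.Lib_helper13.Dade (pCore DadeHolds dadeSum)

open Pool.Agent.DPN.TDM in
/-- TDM for a class: the twisted Moebius sums. -/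
theorem TDMr_thm (Cl : ∀ (Y : Type) [Group Y], Prop) (hC : GC Cl) (h1 : Stmt_TDCr Cl) :
    Stmt_TDMr Cl := by
  classical
  intro L K _ _ _ _ 𝔐 ℓ _ hmax hℓ π hπ hcore hCl hHQ U μ hUc hUk hcyc hinj d hd m hm Q
  refine all_INVU K ℓ hcore (fun V => (Nat.card V : ℚ) *
    Nat.card {η : ↥(V.comap π) → ℂ // IsIrr η ∧ OvL U μ _ η ∧ HasDefect ℓ η d ∧
      cen 𝔐 (V.comap π).subtype η ∈ Q}) ?_ m hm
  intro V hV
  have hHV : HR Cl ℓ (Nat.card V) := HR.mono hHQ (Subgroup.card_le_card_group V)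
  have hClV : Cl V := hC.sub hCl V
  let e : uU π U V ≃* U := MulEquiv.ofBijective (toU π U V) ⟨toU_inj π U V, toU_surj hUk V⟩
  have hcard : Nat.card (uU π U V) = Nat.card U := Nat.card_congr e.toEquiv
  have hc : uU π U V ≤ Subgroup.center ↥(V.comap π) := by
    intro x hx
    rw [Subgroup.mem_center_iff]
    intro y
    apply Subtype.ext
    exact Subgroup.mem_center_iff.1 (hUc (Subgroup.mem_subgroupOf.mp hx)) (y : L)
  have hk : ∀ l : ↥(V.comap π), TOP.pV π V l = 1 ↔ l ∈ uU π U V := by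
    intro l
    have h2 : TOP.pV π V l = 1 ↔ π (l : L) = 1 := by
      rw [Subtype.ext_iff]
      exact Iff.rfl
    rw [h2, hUk]
    exact Subgroup.mem_subgroupOf.symm
  have hcy : IsCyclic (uU π U V) := by
    have := hcyc
    exact isCyclic_of_surjective e.symm e.symm.surjective
  have h2 := h1 ↥(V.comap π) V L 𝔐 ℓ hmax hℓ (TOP.pV π V) (TOP.pV_surj hπ V) hV hClV hHV
    (uU π U V) (μ.comp (toU π U V)) hc hk hcy (hinj.comp (toU_inj π U V)) d
    (by rw [hcard]; exact hd) (V.comap π).subtype Q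
  rw [← h2]
  refine Finset.sum_congr rfl fun σ _ => ?_
  congr 1
  have h8 : Nat.card ((stb σ).map V.subtype) = Nat.card (stb σ) :=
    Nat.card_congr ((stb σ).equivMapOfInjective _ V.subtype_injective).symm.toEquiv
  change (Nat.card ((stb σ).map V.subtype) : ℚ) * _ = _
  rw [h8, count_eq μ 𝔐 ℓ d Q V (stb σ)]

end Pool.Agent.DPK
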