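import Pool.Agent.DPK.Stmts
import Pool.Agent.DPN.UMN

/-!
# The intersection of normal subgroups of a minimal counterexample in a class
-/

namespace Pool.Agent.DPK

open Pool.Agent.DP Pool.Agent.DPC Pool.Agent.DPM Pool.Agent.DPN Pool.Agent.Lib_helper13
open Representation
open Pool.Agent.Lib_helper13.Dade (pCore DadeHolds dadeSum)

theorem UMNr_thm (Cl : ∀ (Y : Type) [Group Y], Prop) (_hC : GC Cl) (h1 : Stmt_STRNr Cl)
    (h2 : Stmt_DLO) : Stmt_UMNr Cl := by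
  intro X _ _ ℓ hℓ hcore hCl hHR hD N N' hN hN' hNc hNc'
  refine lt_of_le_of_ne (le_inf hNc.le hNc'.le) fun e => ?_
  have hprime : ℓ.Prime := Fact.out
  obtain ⟨P, hPn, hNP, hP, hPi, _⟩ := h1 X ℓ hcore hCl hHR hD N hN hNc
  obtain ⟨P', hPn', hNP', hP', hPi', _⟩ := h1 X ℓ hcore hCl hHR hD N' hN' hNc'
  have hM : (P ⊓ P').Normal := inferInstance
  have hi : ¬ ℓ ∣ (P ⊓ P').index := by
    rw [← Subgroup.relIndex_mul_index (inf_le_left : P ⊓ P' ≤ P), Subgroup.inf_relIndex_left]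
    intro h
    rcases hprime.dvd_mul.mp h with h | h
    · exact hPi' (h.trans (Subgroup.relIndex_dvd_index_of_normal P' P))
    · exact hPi h
  have hp : ∀ x ∈ P ⊓ P', ∃ k : ℕ, x ^ ℓ ^ k ∈ Subgroup.center X := by
    intro x hx
    obtain ⟨k, hk⟩ := hP x hx.1
    obtain ⟨k', hk'⟩ := hP' x hx.2
    refine ⟨k + k', ?_⟩
    rw [e]
    constructor
    · rw [pow_add, pow_mul]
      exact N.pow_mem hk _
    · rw [pow_add, mul_comm, pow_mul]
      exact N'.pow_mem hk' _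
  have h3 := UMN.val_core ℓ (P ⊓ P') hM hi hp
  obtain ⟨𝔐, _, _, d, ω, hd, hK⟩ := h2 X ℓ hcore hD
  have h4 := UMN.le_val 𝔐 ℓ d (pCore ℓ X) ω hK
  omega

end Pool.Agent.DPK
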