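import Mathlib
import Pool.Agent.DPK.Stmts
import Pool.Agent.DPN.YFF

/-!
# YFF for the groups of a class: the relations for the linear characters of the pairs
-/

namespace Pool.Agent.DPK

open Pool.Agent.DP Pool.Agent.DPC Pool.Agent.DPM Pool.Agent.DPN Pool.Agent.Lib_helper13
open Representation
open Pool.Agent.Lib_helper13.Dade (pCore DadeHolds dadeSum)

open YFF in
theorem YFFr_thm (Cl : ∀ (Y : Type) [Group Y], Prop) (_hC : GC Cl) (h1 : Stmt_FF)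
    (h2 : Stmt_YFRr Cl)
    (h3 : Stmt_YCA) (h4 : Stmt_YCB) (h5 : Stmt_YCC) (h6 : Stmt_YPR) : Stmt_YFFr Cl := by
  classical
  intro O X H W _ _ _ _ _ _ _ _ 𝔐 ℓ _ h𝔐 hℓ j c p h hp n hCl hn hcj hci a Z hZ hZc hZa Λ π R μ Lm hF
    τ₀ θ₀ hP₀ ν hν hR V hVR hV hm hg χ hχ
  have := hF.Rn
  -- the Moebius function of `V`
  obtain ⟨⟨m, hmm⟩, -⟩ := MOBX_thm V
  have hmS := hm m hmm
  -- the choices
  have hpick : ∀ s : V, ∃ x : X, p x = π s := fun s => hp _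
  choose t ht using hpick
  have hu : ∀ s : V, ∃ u : X → ℤ, s ∈ R.subgroupOf V →
      (AIv j u ∧ (∀ x, p x ≠ π s → u x = 0) ∧ Lm τ₀ θ₀ (fun x => u x) s ≠ 0) := by
    intro s
    by_cases hs : s ∈ R.subgroupOf V
    · obtain ⟨u, hu⟩ := (hF.mem τ₀ θ₀ hP₀ (s : W)).mp (Subgroup.mem_subgroupOf.mp hs)
      exact ⟨u, fun _ => hu⟩
    · exact ⟨fun _ => 0, fun h => absurd h hs⟩
  choose u hu using hu
  let y : V → (integralClosure ℤ ℂ) ⧸ 𝔐 := fun s =>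
    if hs : s ∈ R.subgroupOf V then
      Lm τ₀ θ₀ (fun x => u s x) s * red 𝔐 ((χ ⟨s, hs⟩ : ℂˣ) : ℂ) else 0
  have hy : ∀ (s : V) (hs : s ∈ R.subgroupOf V),
      y s = Lm τ₀ θ₀ (fun x => u s x) s * red 𝔐 ((χ ⟨s, hs⟩ : ℂˣ) : ℂ) := fun s hs => by
    simp only [y, dif_pos hs]
  let g : V →* H := π.comp V.subtype
  let P : Set (fpr p g → (integralClosure ℤ ℂ) ⧸ 𝔐) :=
    PY h g 𝔐 τ₀ θ₀ t (R.subgroupOf V) u y
  have hsurj : Function.Surjective (fsnd p g) := by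
    intro v
    exact ⟨⟨(t v, v), ht v⟩, rfl⟩
  have hgk : g.ker ≤ Subgroup.center V := by
    intro v hv
    rw [Subgroup.mem_center_iff]
    intro w
    have h7 : (v : W) ∈ π.ker := hv
    have h8 := Subgroup.mem_center_iff.mp (hF.πc h7) (w : W)
    exact Subtype.ext h8
  -- the left side vanishes
  have hFF := h1 O (fpr p g) V 𝔐 ℓ (finj h g) (c.comp (ffst p g)) (fsnd p g) (clG_f h g) hsurj
    (pCore_bot hV) Z m hmm a P
  rw [Finset.sum_eq_zero (fun V' _ => by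
    rw [h2 O X H V 𝔐 ℓ h𝔐 hℓ j c p h hp n hCl hn hcj hci Z hZ hZc g hgk hg a hZa P V', mul_zero])]
    at hFF
  -- the pairs
  have key : ∀ τ ∈ Ch ℓ Z, ∀ θ, Pr h 𝔐 ℓ a Z Λ τ θ →
      ((∑ V', m V' * ((Nat.card V' : ℚ) * NT 𝔐 ℓ a (jS (clG_f h g) τ)
        (pS (fsnd p g) (finj h g) τ) θ (YS (finj h g) τ).subtype P V') : ℚ) : ℂ) =
      (∑ x : V, ∑ y : V, if Subgroup.closure {x, y} = ⊤ then
        ((χ ⟨x * y * x⁻¹ * y⁻¹, Subgroup.mem_subgroupOf.mpr (hR x y)⟩ : ℂˣ) : ℂ)⁻¹ *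
          ((ν τ θ ⟨(x : W) * y * (x : W)⁻¹ * (y : W)⁻¹, hR x y⟩ : ℂˣ) : ℂ)⁻¹ else 0) /
        Nat.card (R.subgroupOf V) := by
    intro τ hτ θ hPr
    let lam : R.subgroupOf V →* ℂˣ := χ * (ν τ θ).comp (rho R V)
    have hlam : ∀ (v : V) (r r' : R.subgroupOf V), (r' : V) = v * r * v⁻¹ → lam r' = lam r := by
      intro v r r' hr
      change χ r' * ν τ θ (rho R V r') = χ r * ν τ θ (rho R V r)
      rw [hχ v r r' hr, hν.inv τ θ hPr (v : W) (rho R V r) (rho R V r')]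
      exact congrArg Subtype.val hr
    have hS : ∀ x y : V, x * y * x⁻¹ * y⁻¹ ∈ R.subgroupOf V := fun x y =>
      Subgroup.mem_subgroupOf.mpr (hR x y)
    have h7 := h5 V (R.subgroupOf V) hS lam hlam m hmm hmS
    have h8 : ∀ V' : Subgroup V, m V' * ((Nat.card V' : ℚ) * NT 𝔐 ℓ a (jS (clG_f h g) τ)
        (pS (fsnd p g) (finj h g) τ) θ (YS (finj h g) τ).subtype P V') =
        m V' * ((Nat.card V' : ℚ) * Nat.card {ζ : V' → ℂ // IsIrr ζ ∧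
        ∀ (s : V) (hs : s ∈ R.subgroupOf V) (hs' : s ∈ V'),
          ζ ⟨s, hs'⟩ = ζ 1 * ((lam ⟨s, hs⟩ : ℂˣ) : ℂ)}) := by
      intro V'
      by_cases h9 : m V' = 0
      · rw [h9, zero_mul, zero_mul]
      · have h10 := h4 O X H W 𝔐 ℓ h𝔐 hℓ j c p h hp a Z Λ π R μ Lm hF τ₀ θ₀ hP₀ ν hν V hV t ht u
          hu χ hχ y hy τ θ hPr V' (hmS V' h9)
        have h11 : NT 𝔐 ℓ a (jS (clG_f h g) τ)
          (pS (fsnd p g) (finj h g) τ) θ (YS (finj h g) τ).subtype P V' =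
            Nat.card {ζ : V' → ℂ // IsIrr ζ ∧
              ∀ (s : V) (hs : s ∈ R.subgroupOf V) (hs' : s ∈ V'),
              ζ ⟨s, hs'⟩ = ζ 1 * ((lam ⟨s, hs⟩ : ℂˣ) : ℂ)} := h10
        rw [h11]
    rw [Finset.sum_congr rfl (fun V' _ => h8 V')]
    push_cast
    rw [h7]
    congr 1
    refine Finset.sum_congr rfl fun x _ => Finset.sum_congr rfl fun y _ => ?_
    split_ifs
    · change (((χ _ * ν τ θ (rho R V _) : ℂˣ) : ℂ))⁻¹ = _
      rw [rho_apply, Units.val_mul, mul_inv]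
      rfl
    · rfl
  -- only the fixed pairs contribute
  have hSn : (Nat.card (R.subgroupOf V) : ℂ) ≠ 0 := Nat.cast_ne_zero.mpr Nat.card_pos.ne'
  have hFC := congrArg (fun q : ℚ => (q : ℂ) * Nat.card (R.subgroupOf V)) hFF
  simp only [Rat.cast_zero, zero_mul] at hFC
  refine Eq.trans ?_ hFC.symm
  rw [Rat.cast_sum, Finset.sum_mul]
  refine Finset.sum_congr rfl fun τ hτ => ?_
  rw [Rat.cast_mul, Rat.cast_sum, mul_assoc, Finset.sum_mul]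
  push_cast
  congr 1
  symm
  rw [← Finset.sum_subset (s₁ := (irrF (stb τ)).filter fun θ => Pr h 𝔐 ℓ a Z Λ τ θ)]
  · refine Finset.sum_congr rfl fun θ hθ => ?_
    have hPr := (Finset.mem_filter.mp hθ).2
    have h7 := key τ hτ θ hPr
    push_cast at h7
    rw [h7, mul_assoc, div_mul_cancel₀ _ hSn]
  · intro θ hθ
    have hθ' := Finset.mem_filter.mp hθ
    refine Finset.mem_filter.mpr ⟨hθ'.1, ?_⟩
    exact (h6 O X H W 𝔐 ℓ h𝔐 hℓ j c p h hp a Z Λ π R μ Lm hF τ₀ θ₀ hP₀ V hVR τ hτ θ hθ'.2.irr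
      hθ'.2.df hθ'.2.cn).mpr hθ'.2
  · intro θ hθ hθn
    have hθ' := Finset.mem_filter.mp hθ
    have hirr : IsIrr θ := mem_irrF.mp hθ'.1
    have h7 : ∀ V' : Subgroup V, NT 𝔐 ℓ a (jS (clG_f h g) τ)
        (pS (fsnd p g) (finj h g) τ) θ (YS (finj h g) τ).subtype P V' = 0 := by
      intro V'
      by_contra h8
      exact hθn (Finset.mem_filter.mpr ⟨hθ'.1, h3 O X H W 𝔐 ℓ h𝔐 hℓ j c p h hp a Z Λ π R μ Lm hF
        τ₀ θ₀ hP₀ V hVR hV t (R.subgroupOf V) u y τ hτ θ hirr hθ'.2 V' h8⟩)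
    rw [Finset.sum_eq_zero (fun V' _ => by
      rw [h7 V']
      simp), mul_zero, zero_mul]

end Pool.Agent.DPK
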