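import Mathlib
import Pool.Agent.DPN.YFR
import Pool.Agent.DPK.Stmts

/-!
# The chain sums of the fibre product vanish, for the groups of a class (module YFRr)
-/

set_option linter.unusedSectionVars false

namespace Pool.Agent.DPK

open Pool.Agent.DP Pool.Agent.DPC Pool.Agent.DPM Pool.Agent.DPN Pool.Agent.Lib_helper13
open Representation
open Pool.Agent.Lib_helper13.Dade (pCore DadeHolds dadeSum)

namespace YFRr

/-- The fibre product belongs to the class. -/
theorem cl_fpr {Cl : ∀ (Y : Type) [Group Y], Prop} (hC : GC Cl) {X H V : Type} [Group X]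
    [Finite X] [Group H] [Finite H] [Group V] [Finite V] (p : X →* H) (g : V →* H) (hX : Cl X)
    (hg : g.ker ≤ Subgroup.center V) : Cl (fpr p g) := by
  refine hC.up (fpr p g) X ((MonoidHom.fst X V).comp (fpr p g).subtype) ?_ hX
  intro y hy
  have h1 : ((y : X × V)).1 = 1 := hy
  have h2 : g (y : X × V).2 = 1 := by
    have h3 := (mem_fpr.mp y.2)
    rw [← h3, h1, map_one]
  have h4 : (y : X × V).2 ∈ Subgroup.center V := hg h2
  rw [Subgroup.mem_center_iff]
  intro z
  apply Subtype.ext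
  apply Prod.ext
  · change (z : X × V).1 * (y : X × V).1 = (y : X × V).1 * (z : X × V).1
    rw [h1, mul_one, one_mul]
  · exact Subgroup.mem_center_iff.mp h4 _

end YFRr

theorem YFRr_thm (Cl : ∀ (Y : Type) [Group Y], Prop) (hC : GC Cl) (h1 : Stmt_DKVr Cl) :
    Stmt_YFRr Cl := by
  intro O X H V _ _ _ _ _ _ _ _ 𝔐 ℓ _ hM hℓ j c p h hp n hX hHR hc hn Z hZ hZc g hg hgs d hd P V'
  have : Fintype ↥(fpr p g) := Fintype.ofFinite _
  exact h1 _ _ 𝔐 ℓ hM hℓ n (hC.sub (YFRr.cl_fpr hC p g hX hg) _) hHR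
    (YFR.index_le h g hp hc n hn hg hgs V') _
    (YFR.center_Z h g Z hZc V') (YFR.pgroup_Z h g ℓ Z hZ V') d
    (by rw [YFR.card_Z h g Z V']; exact hd) _ P

end Pool.Agent.DPK
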