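import Mathlib
import Pool.Agent.DPT.AllC
import Pool.Agent.DPF.AllF
import Pool.Agent.DPK.DKVr
import Pool.Agent.DPK.TDCr
import Pool.Agent.DPK.TDMr
import Pool.Agent.DPK.CONSr
import Pool.Agent.DPK.RDXr
import Pool.Agent.DPK.FAMr
import Pool.Agent.DPK.YFRr
import Pool.Agent.DPK.YFFr
import Pool.Agent.DPK.FNAr
import Pool.Agent.DPK.FINNr
import Pool.Agent.DPK.STRNr
import Pool.Agent.DPK.UMNr
import Pool.Agent.DPK.STBr
import Pool.Agent.DPK.OUTFr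
import Pool.Agent.DPK.OUT1r
import Pool.Agent.DPK.B0Fr
import Pool.Agent.DPK.DDSr
import Pool.Agent.DPK.PSNr
import Pool.Agent.DPK.OUT2r
import Pool.Agent.DPK.PS1r
import Pool.Agent.DPK.PS2r
import Pool.Agent.DPK.PS3r
import Pool.Agent.DPK.T2Rr
import Pool.Agent.DPK.T2Ar
import Pool.Agent.DPK.PSZr
import Pool.Agent.DPK.T2Br
import Pool.Agent.DPK.OSR
import Pool.Agent.DPK.QMI
import Pool.Agent.DPK.QMF
import Pool.Agent.DPK.QMA
import Pool.Agent.DPK.QMB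
import Pool.Agent.DPK.QMC
import Pool.Agent.DPK.QMD
import Pool.Agent.DPK.QMU
import Pool.Agent.DPK.BSA
import Pool.Agent.DPK.BSB
import Pool.Agent.DPK.GRA
import Pool.Agent.DPK.GRB
import Pool.Agent.DPK.OUI
import Pool.Agent.DPK.BAG
import Pool.Agent.DPK.BAS
import Pool.Agent.DPK.UDC
import Pool.Agent.DPK.CYS
import Pool.Agent.DPK.CYQ

/-!
# Dade's conjecture for the groups of a class: all modules together
-/

namespace Pool.Agent.DPK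

open Pool.Agent.DP Pool.Agent.DPC Pool.Agent.DPM Pool.Agent.DPN Pool.Agent.DPT Pool.Agent.DPF

section

variable (Cl : ∀ (Y : Type) [Group Y], Prop) (hC : GC Cl)

include hC

theorem all_DKVr : Stmt_DKVr Cl := DKVr_thm Cl hC MIXP_thm

theorem all_TDCr : Stmt_TDCr Cl := TDCr_thm Cl hC

theorem all_TDMr : Stmt_TDMr Cl := TDMr_thm Cl hC (all_TDCr Cl hC)

theorem all_CONSr : Stmt_CONSr Cl := CONSr_thm Cl hC (all_TDMr Cl hC)

theorem all_RDXr : Stmt_RDXr Cl :=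
  RDXr_thm Cl hC RDA_thm RDQ_thm all_RDB RDE_thm (all_TDMr Cl hC)

theorem all_FAMr : Stmt_FAMr Cl := FAMr_thm Cl hC (all_RDXr Cl hC) all_WFP all_RRN

theorem all_YFRr : Stmt_YFRr Cl := YFRr_thm Cl hC (all_DKVr Cl hC)

theorem all_YFFr : Stmt_YFFr Cl :=
  YFFr_thm Cl hC all_FF (all_YFRr Cl hC) all_YCA all_YCB all_YCC all_YPR

theorem all_FNAr : Stmt_FNAr Cl := FNAr_thm Cl hC (all_CONSr Cl hC) BEQ_thm

theorem all_FINNr : Stmt_FINNr Cl :=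
  FINNr_thm Cl hC all_FF (all_DKVr Cl hC) (all_FAMr Cl hC) all_ABQ SUPG_thm all_NUX
    (all_YFFr Cl hC) FOU_thm all_PHN (all_FNAr Cl hC) FNB_thm

theorem all_STRNr : Stmt_STRNr Cl := STRNr_thm Cl hC all_DLO (all_FINNr Cl hC)

theorem all_UMNr : Stmt_UMNr Cl := UMNr_thm Cl hC (all_STRNr Cl hC) all_DLO

theorem all_STBr : Stmt_STBr Cl := STBr_thm Cl hC all_STC (all_DKVr Cl hC)

theorem all_OUTFr : Stmt_OUTFr Cl :=
  OUTFr_thm Cl hC all_FF (all_DKVr Cl hC) (all_FNAr Cl hC) (all_FAMr Cl hC) all_ABQ RCE_thm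

theorem all_OUT1r : Stmt_OUT1r Cl :=
  OUT1r_thm Cl hC (all_OUTFr Cl hC) (all_FINNr Cl hC) all_OUTN OUTG_thm (all_STBr Cl hC)
    all_KEYN SUMM_thm

theorem all_B0Fr : Stmt_B0Fr Cl :=
  B0Fr_thm Cl hC (all_OUT1r Cl hC) all_DZ6 (all_UMNr Cl hC) all_DLO

theorem all_DDSr : Stmt_DDSr Cl :=
  DDSr_thm Cl hC Pool.Agent.DPT.all_ISOL CHC_thm Pool.Agent.DPT.all_DZC BTC_thm MINX_thm
    Pool.Agent.DPT.all_DEFA SUMM_thm

theorem all_PSNr : Stmt_PSNr Cl :=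
  PSNr_thm Cl hC SPLM_thm CRS_thm all_OCN (all_DDSr Cl hC) all_CLQ TWC_thm TWN_thm TWG_thm
    CHG_thm HHS_thm all_DEFM LNQ_thm all_DGM ZST_thm all_CAZ IDZ_thm CHI_thm

theorem all_OUT2r : Stmt_OUT2r Cl :=
  OUT2r_thm Cl hC (all_OUTFr Cl hC) (all_FINNr Cl hC) all_OUTM all_OUTS OUTH_thm
    (all_STBr Cl hC) all_KEYN CVX_thm SUMM_thm

theorem all_PS1r : Stmt_PS1r Cl := PS1r_thm Cl hC (all_PSNr Cl hC) CHI_thm

theorem all_PS2r : Stmt_PS2r Cl := PS2r_thm Cl hC (all_PS1r Cl hC) CQI_thm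

theorem all_PS3r : Stmt_PS3r Cl := PS3r_thm Cl hC (all_PS2r Cl hC)

theorem all_T2Rr : Stmt_T2Rr Cl :=
  T2Rr_thm Cl hC (all_PS3r Cl hC) all_EXPU FBA_thm FBB_thm all_FBC

theorem all_T2Ar : Stmt_T2Ar Cl := T2Ar_thm Cl hC (all_T2Rr Cl hC) all_T2F

theorem all_PSZr : Stmt_PSZr Cl :=
  PSZr_thm Cl hC (all_PSNr Cl hC) CRS_thm all_OCN SPLM_thm CHI_thm

theorem all_T2Br : Stmt_T2Br Cl :=
  T2Br_thm Cl hC (all_PSZr Cl hC) (all_PS3r Cl hC) all_EXPU all_T2D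

end

theorem all_OSR : Stmt_OSR :=
  OSR_thm Pool.Agent.DPX.VALX_thm Pool.Agent.DPX.IDOX_thm all_OSIX

theorem all_QMI : Stmt_QMI := QMI_thm all_OSR QMF_thm

theorem all_QMA : Stmt_QMA := QMA_thm QMF_thm

theorem all_QMB : Stmt_QMB := QMB_thm QMF_thm

theorem all_QMC : Stmt_QMC := QMC_thm all_QMB all_QMI

theorem all_QMD : Stmt_QMD := QMD_thm all_QMB

theorem all_QMU : Stmt_QMU := QMU_thm all_QMA all_QMC all_QMD

theorem all_BAS : Stmt_BAS := BAS_thm BAG_thm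

end Pool.Agent.DPK
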