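import Mathlib
import Pool.Agent.DPK.StmtsD
import Pool.Agent.DPG.StmtsB
import Pool.Agent.DPH.Stmts

/-!
# FINS: the minimal normal subgroup of a minimal counterexample is simple modulo the centre, and
the centre may be assumed to be cyclic and contained in the commutator subgroup
-/

namespace Pool.Agent.DPK

open Pool.Agent.DP Pool.Agent.DPC Pool.Agent.DPM Pool.Agent.DPN Pool.Agent.DPT Pool.Agent.DPF
open Pool.Agent.Lib_helper13
open Representation
open Pool.Agent.Lib_helper13.Dade (pCore DadeHolds dadeSum)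

/-- FINS: the minimal normal subgroup of a minimal counterexample is simple modulo the centre, and
there is a counterexample with the same quotient by the centre whose centre is cyclic and contained
in the commutator subgroup. -/
def Stmt_FINS (Cl : ∀ (Y : Type) [Group Y], Prop) : Prop :=
  ∀ (X : Type) [Group X] [Fintype X] (ℓ : ℕ) [Fact ℓ.Prime],
    pCore ℓ X ≤ Subgroup.center X → Cl X → HR Cl ℓ ((Subgroup.center X).index - 1) →
    ¬ DadeHolds ℓ X → ∀ N : Subgroup X, N.Normal → Subgroup.center X < N →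
    (∀ N' : Subgroup X, N'.Normal → Subgroup.center X < N' → N ≤ N') →
    (∃ x ∈ N, ∃ y ∈ N, x * y * x⁻¹ * y⁻¹ ∉ Subgroup.center X) →
    IsSimpleGroup (N.map (QuotientGroup.mk' (Subgroup.center X))) ∧
      IsSimpleGroup (N ⧸ (Subgroup.center X).subgroupOf N) ∧
      ∃ (Y : Type) (_ : Group Y) (_ : Finite Y) (πY : Y →* X ⧸ Subgroup.center X),
        Function.Surjective πY ∧ πY.ker = Subgroup.center Y ∧ IsCyclic (Subgroup.center Y) ∧
        Subgroup.center Y ≤ ⁅(⊤ : Subgroup Y), ⊤⁆ ∧ pCore ℓ Y ≤ Subgroup.center Y ∧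
        ¬ DadeHolds ℓ Y

theorem FINS_thm (Cl : ∀ (Y : Type) [Group Y], Prop) (hC : GC Cl)
    (h1 : Pool.Agent.DPG.Stmt_TEN Cl) (h2 : Stmt_QMU) (h3 : Stmt_BSA) (h4 : Stmt_BSB)
    (h5 : Stmt_GRA) (h6 : Stmt_GRB) (h7 : Stmt_OUT2r Cl) (h8 : Pool.Agent.DPT.Stmt_GLU)
    (h9 : Pool.Agent.DPN.Stmt_DLO)
    (h10 : Pool.Agent.DPH.Stmt_STE) : Stmt_FINS Cl := by
  classical
  intro X _ _ ℓ _ hcore hCl hHR hD N hN hNc hmin hna
  obtain ⟨𝔐, h𝔐, hℓ, d, ω, hd, hK⟩ := h9 X ℓ hcore hD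
  obtain ⟨M, hM, hNM, hMr, ⟨H, iH, fH, f, hfs, hfk, hHH⟩, hOut⟩ :=
    h7 X 𝔐 ℓ h𝔐 hℓ hcore hCl hHR d ω hd hK N hN hNc
  have hZM : Subgroup.center X ≤ M := hNc.le.trans hNM
  let π : X →* X ⧸ Subgroup.center X := QuotientGroup.mk' (Subgroup.center X)
  have hπs : Function.Surjective π := QuotientGroup.mk'_surjective _
  have hπk : π.ker = Subgroup.center X := QuotientGroup.ker_mk' _
  let _ : Fintype (X ⧸ Subgroup.center X) := Fintype.ofFinite _
  obtain ⟨μ, hPos, hDKU⟩ := h8 X H 𝔐 ℓ h𝔐 hℓ hcore d ω hd hK M hZM f hfs hfk hHH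
    (X ⧸ Subgroup.center X) π hπs hπk
  obtain ⟨g1, g2, g3, g4, g5, g6, g7⟩ := h6 X (X ⧸ Subgroup.center X) ℓ π hπs hπk N hN hNc hmin hna
  obtain ⟨g8, g9⟩ := g7 M hNM hMr
  have hkN : π.ker ≤ N := hπk.le.trans hNc.le
  have hO : OutN 𝔐 N M ω := hOut
  have hSTB := h3 X (X ⧸ Subgroup.center X) 𝔐 h𝔐 π μ N M hN hkN hNM ω hO
  have hSPP := h4 X (X ⧸ Subgroup.center X) 𝔐 h𝔐 π μ N M hN hkN hNM ω hO
  have hMn : (M.map π).Normal := hM.map π hπs
  obtain ⟨L', iL, fL, π', μ', d', ω', q1, q2, q3, q4, q5, q6, q7⟩ :=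
    h2 X (X ⧸ Subgroup.center X) 𝔐 ℓ h𝔐 hℓ π hπs hπk.le μ (N.map π) (M.map π) g1 hMn g8 ω d
      hPos hDKU hSTB hSPP
  -- the quotient by `M`
  let p : X ⧸ Subgroup.center X →* H := QuotientGroup.lift (Subgroup.center X) f
    (fun x hx => (hfk x).mpr (hZM hx))
  have hpπ : ∀ x, p (π x) = f x := fun x => rfl
  have hps : Function.Surjective p := by
    intro h
    obtain ⟨x, rfl⟩ := hfs h
    exact ⟨π x, rfl⟩
  have hpk : ∀ k, p k = 1 ↔ k ∈ M.map π := by
    intro k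
    obtain ⟨x, rfl⟩ := hπs k
    rw [hpπ, hfk]
    constructor
    · intro hx
      exact ⟨x, hx, rfl⟩
    · rintro ⟨y, hy, hyx⟩
      have h10 : y⁻¹ * x ∈ π.ker := by
        rw [MonoidHom.mem_ker, map_mul, map_inv, hyx, inv_mul_cancel]
      rw [hπk] at h10
      have h11 := M.mul_mem hy (hZM h10)
      rwa [mul_inv_cancel_left] at h11
  obtain ⟨P, hP1, hP2, hP3, hP4⟩ := hHH
  let _ : Fintype H := Fintype.ofFinite H
  have hindex : Nat.card (X ⧸ Subgroup.center X) = (Subgroup.center X).index := rfl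
  have hlt : ∀ n < Nat.card (X ⧸ Subgroup.center X), HR Cl ℓ n := by
    intro n hn
    rw [hindex] at hn
    exact hHR.mono (by omega)
  have hcenK : Subgroup.center (X ⧸ Subgroup.center X) = ⊥ := by
    rw [eq_bot_iff]
    intro k hk
    rw [← g5, Subgroup.mem_centralizer_iff]
    intro x _
    exact Subgroup.mem_center_iff.mp hk x
  suffices hsim : IsSimpleGroup (N.map π) from
    ⟨hsim, g6 hsim, h10 L' (X ⧸ Subgroup.center X) 𝔐 ℓ h𝔐 hℓ π' q1
      (h5 X (X ⧸ Subgroup.center X) ℓ π hπs hπk hcore) hcenK q2 μ' q3 (M.map π) hMn d' ω' q4 q5⟩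
  by_contra hns
  refine q5 (h1 L' (X ⧸ Subgroup.center X) H 𝔐 ℓ h𝔐 hℓ π' q1 q2 μ' q3
    (h5 X (X ⧸ Subgroup.center X) ℓ π hπs hπk hcore) hC (hC.quot hCl _) hlt (M.map π) p hps hpk P
    ⟨hP1, hP2, hP3, hP4⟩ ω' q4 (N.map π) g8 g9 g2 ?_ g4 ?_ hns q6 q7 d')
  · intro N' hN' hle
    by_cases h10 : N' = ⊥
    · exact Or.inl h10
    · exact Or.inr (le_antisymm hle (g3 N' hN' h10))
  · intro k hk
    have h10 : k ∈ Subgroup.centralizer (N.map π : Set (X ⧸ Subgroup.center X)) := by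
      rw [Subgroup.mem_centralizer_iff]
      intro x hx
      exact (hk x hx).symm
    rw [g5] at h10
    exact h10

end Pool.Agent.DPK
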