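import Mathlib
import Pool.Agent.DPK.FINR

/-!
# UNC: Dade's conjecture for the groups all of whose simple sections of order divisible by `ℓ` have
cyclic Sylow `ℓ`-subgroups and outer automorphism groups of order prime to `ℓ`
-/

namespace Pool.Agent.DPK

open Pool.Agent.DP Pool.Agent.DPC Pool.Agent.DPM Pool.Agent.DPN Pool.Agent.DPT Pool.Agent.DPF
open Pool.Agent.Lib_helper13
open Representation
open Pool.Agent.Lib_helper13.Dade (pCore DadeHolds dadeSum)

namespace UNC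

/-- The minimal normal subgroup above the centre is perfect modulo the centre. -/
theorem perf {X : Type} [Group X] (N : Subgroup X) (hN : N.Normal)
    (hNc : Subgroup.center X < N)
    (hmin : ∀ N' : Subgroup X, N'.Normal → Subgroup.center X < N' → N ≤ N')
    (hna : ∃ x ∈ N, ∃ y ∈ N, x * y * x⁻¹ * y⁻¹ ∉ Subgroup.center X) :
    N ≤ ⁅N, N⁆ ⊔ Subgroup.center X := by
  have h1 : ⁅N, N⁆.Normal := Subgroup.commutator_normal N N
  have h2 : (⁅N, N⁆ ⊔ Subgroup.center X).Normal := inferInstance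
  refine hmin _ h2 (lt_of_le_of_ne le_sup_right ?_)
  intro h3
  obtain ⟨x, hx, y, hy, hxy⟩ := hna
  apply hxy
  rw [h3]
  exact (le_sup_left : ⁅N, N⁆ ≤ ⁅N, N⁆ ⊔ Subgroup.center X)
    (Subgroup.commutator_mem_commutator hx hy)

/-- The quotient of `N` by the centre is not abelian. -/
theorem nonab {X : Type} [Group X] (N : Subgroup X)
    (hna : ∃ x ∈ N, ∃ y ∈ N, x * y * x⁻¹ * y⁻¹ ∉ Subgroup.center X) :
    ∃ a b : N ⧸ (Subgroup.center X).subgroupOf N, a * b ≠ b * a := by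
  obtain ⟨x, hx, y, hy, hxy⟩ := hna
  refine ⟨((⟨x, hx⟩ : N) : N ⧸ (Subgroup.center X).subgroupOf N),
    ((⟨y, hy⟩ : N) : N ⧸ (Subgroup.center X).subgroupOf N), fun h => hxy ?_⟩
  have h1 : (((⟨x, hx⟩ : N) * ⟨y, hy⟩ * (⟨x, hx⟩ : N)⁻¹ * (⟨y, hy⟩ : N)⁻¹ : N) :
      N ⧸ (Subgroup.center X).subgroupOf N) = 1 := by
    rw [QuotientGroup.mk_mul, QuotientGroup.mk_mul, QuotientGroup.mk_mul, QuotientGroup.mk_inv,
      QuotientGroup.mk_inv, mul_inv_eq_one, mul_inv_eq_iff_eq_mul]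
    exact h
  rw [QuotientGroup.eq_one_iff, Subgroup.mem_subgroupOf] at h1
  exact h1

/-- The order of the quotient of `N` by the centre is divisible by `ℓ`. -/
theorem dvd {X : Type} [Group X] [Finite X] {ℓ : ℕ} (hℓ : ℓ.Prime) (N : Subgroup X)
    (h : ∃ x ∈ N, x ^ ℓ ∈ Subgroup.center X ∧ x ∉ Subgroup.center X) :
    ℓ ∣ Nat.card (N ⧸ (Subgroup.center X).subgroupOf N) := by
  obtain ⟨x, hx, h1, h2⟩ := h
  have h3 : (((⟨x, hx⟩ : N) : N ⧸ (Subgroup.center X).subgroupOf N)) ^ ℓ = 1 := by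
    rw [← QuotientGroup.mk_pow, QuotientGroup.eq_one_iff, Subgroup.mem_subgroupOf]
    exact h1
  have h4 : orderOf ((⟨x, hx⟩ : N) : N ⧸ (Subgroup.center X).subgroupOf N) ∣ ℓ :=
    orderOf_dvd_of_pow_eq_one h3
  rcases (Nat.dvd_prime hℓ).mp h4 with h5 | h5
  · rw [orderOf_eq_one_iff, QuotientGroup.eq_one_iff, Subgroup.mem_subgroupOf] at h5
    exact absurd h5 h2
  · rw [← h5]
    exact orderOf_dvd_natCard _

end UNC

theorem UNC_thm (ℓ : ℕ) [hf : Fact ℓ.Prime] (h1 : Stmt_FINR (UC ℓ)) (h2 : Stmt_B0Fr (UC ℓ))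
    (h3 : Stmt_OUI) (h4 : Stmt_BAS) (h5 : ∀ (X : Type) [Group X] (N : Subgroup X), N.Normal →
      (∀ N' : Subgroup X, N'.Normal → Subgroup.center X < N' → N ≤ N') →
      (∃ x ∈ N, ∃ y ∈ N, x * y * x⁻¹ * y⁻¹ ∉ Subgroup.center X) → ∀ x,
      (∀ y ∈ N, x * y * x⁻¹ * y⁻¹ ∈ Subgroup.center X) → x ∈ Subgroup.center X) :
    ∀ (X : Type) [Group X] [Finite X], UC ℓ X → pCore ℓ X ≤ Subgroup.center X →
      DadeHolds ℓ X := by
  classical
  have hmain : ∀ n : ℕ, HR (UC ℓ) ℓ n := by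
    intro n
    induction n with
    | zero =>
      intro Y _ _ _ _ hi
      exact absurd (Nat.le_zero.mp hi) Subgroup.index_ne_zero_of_finite
    | succ n ih =>
      intro Y _ _ hCl hcore hi
      by_contra hD
      let _ : Fintype Y := Fintype.ofFinite Y
      have hHR : HR (UC ℓ) ℓ ((Subgroup.center Y).index - 1) := ih.mono (by omega)
      obtain ⟨hA, N, hN, hNc, hmin⟩ := h2 Y ℓ hcore hCl hHR hD
      obtain ⟨hdv, hna⟩ := hA N hN hNc
      obtain ⟨-, hsim⟩ := h1 Y ℓ hcore hCl hHR hD N hN hNc hmin hna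
      have hcent := h5 Y N hN hmin hna
      obtain ⟨h6, h7⟩ := hCl N (N ⧸ (Subgroup.center Y).subgroupOf N) (QuotientGroup.mk' _)
        (QuotientGroup.mk'_surjective _) hsim (UNC.nonab N hna) (UNC.dvd hf.out N hdv)
      exact hD (h4 Y ℓ hcore N hN hNc.le (UNC.perf N hN hNc hmin hna) h6
        (fun h => h7 (h.trans (h3 Y N hN hNc.le hcent))))
  intro X _ _ hCl hcore
  exact hmain _ X hCl hcore le_rfl

end Pool.Agent.DPK
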