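import Mathlib
import Pool.Agent.DPK.UNC
import Pool.Agent.DPK.StmtsE

/-!
# MINR: the structure of a minimal counterexample to Dade's conjecture in a class of groups
-/

namespace Pool.Agent.DPK

open Pool.Agent.DP Pool.Agent.DPC Pool.Agent.DPM Pool.Agent.DPN Pool.Agent.DPT Pool.Agent.DPF
open Pool.Agent.Lib_helper13
open Representation
open Pool.Agent.Lib_helper13.Dade (pCore DadeHolds dadeSum)

namespace MINR

/-- An element with an `ℓ`-power in a normal subgroup of index prime to `ℓ`. -/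
theorem mem_of_pow {X : Type} [Group X] [Finite X] {ℓ : ℕ} (hℓ : ℓ.Prime) (R : Subgroup X)
    [R.Normal] (hR : ¬ ℓ ∣ R.index) {u : X} {k : ℕ} (hu : u ^ ℓ ^ k ∈ R) : u ∈ R := by
  have h1 : ((u : X) : X ⧸ R) ^ ℓ ^ k = 1 := by
    rw [← QuotientGroup.mk_pow, QuotientGroup.eq_one_iff]
    exact hu
  have h2 : orderOf ((u : X) : X ⧸ R) ∣ ℓ ^ k := orderOf_dvd_of_pow_eq_one h1
  have h3 : orderOf ((u : X) : X ⧸ R) ∣ R.index := orderOf_dvd_natCard _
  have h4 : Nat.Coprime (ℓ ^ k) R.index :=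
    Nat.Coprime.pow_left k ((Nat.Prime.coprime_iff_not_dvd hℓ).mpr hR)
  have h5 : orderOf ((u : X) : X ⧸ R) = 1 := Nat.eq_one_of_dvd_coprimes h4 h2 h3
  rw [orderOf_eq_one_iff, QuotientGroup.eq_one_iff] at h5
  exact h5

/-- The centralizer of a nonabelian least normal subgroup above the centre. -/
theorem cent {X : Type} [Group X] (N : Subgroup X) (hN : N.Normal)
    (hmin : ∀ N' : Subgroup X, N'.Normal → Subgroup.center X < N' → N ≤ N')
    (hna : ∃ x ∈ N, ∃ y ∈ N, x * y * x⁻¹ * y⁻¹ ∉ Subgroup.center X) (x : X)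
    (hx : ∀ y ∈ N, x * y * x⁻¹ * y⁻¹ ∈ Subgroup.center X) : x ∈ Subgroup.center X := by
  classical
  let q : X →* X ⧸ Subgroup.center X := QuotientGroup.mk' (Subgroup.center X)
  have hNq : (N.map q).Normal := hN.map q (QuotientGroup.mk'_surjective _)
  let C : Subgroup X :=
    (Subgroup.centralizer (N.map q : Set (X ⧸ Subgroup.center X))).comap q
  have hCn : C.Normal := by
    have h1 : (Subgroup.centralizer (N.map q : Set (X ⧸ Subgroup.center X))).Normal :=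
      inferInstance
    exact h1.comap q
  have hmem : ∀ a : X, a ∈ C ↔ ∀ y ∈ N, a * y * a⁻¹ * y⁻¹ ∈ Subgroup.center X := by
    intro a
    have h2 : ∀ b : X, q a * q b = q b * q a ↔ a * b * a⁻¹ * b⁻¹ ∈ Subgroup.center X := by
      intro b
      rw [← QuotientGroup.eq_one_iff]
      change q a * q b = q b * q a ↔ q a * q b * (q a)⁻¹ * (q b)⁻¹ = 1
      rw [mul_inv_eq_one, mul_inv_eq_iff_eq_mul]
    rw [Subgroup.mem_comap, Subgroup.mem_centralizer_iff]
    constructor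
    · intro h y hy
      exact (h2 y).mp (h (q y) ⟨y, hy, rfl⟩).symm
    · rintro h _ ⟨y, hy, rfl⟩
      exact ((h2 y).mpr (h y hy)).symm
  by_contra hxn
  have hle : Subgroup.center X ≤ C := by
    intro z hz
    rw [hmem]
    intro y hy
    have h3 : z * y * z⁻¹ * y⁻¹ = 1 := by
      rw [← (Subgroup.mem_center_iff.mp hz y)]
      group
    rw [h3]
    exact one_mem _
  have hlt : Subgroup.center X < C :=
    lt_of_le_of_ne hle (fun h => hxn (by rw [h, hmem]; exact hx))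
  have h4 := hmin C hCn hlt
  obtain ⟨a, ha, b, hb, hab⟩ := hna
  exact hab ((hmem a).mp (h4 ha) b hb)

/-- The index of the image in the quotient by the centre. -/
theorem index_map {X : Type} [Group X] (N : Subgroup X) (hN : Subgroup.center X ≤ N) :
    (N.map (QuotientGroup.mk' (Subgroup.center X))).index = N.index := by
  rw [Subgroup.index_map, QuotientGroup.ker_mk', sup_eq_left.mpr hN,
    MonoidHom.range_eq_top.mpr (QuotientGroup.mk'_surjective _), Subgroup.index_top, mul_one]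

end MINR

/-- MINR: the structure of a minimal counterexample. -/
def Stmt_MINR (Cl : ∀ (Y : Type) [Group Y], Prop) : Prop :=
  ∀ (X : Type) [Group X] [Fintype X] (ℓ : ℕ) [Fact ℓ.Prime],
    pCore ℓ X ≤ Subgroup.center X → Cl X → HR Cl ℓ ((Subgroup.center X).index - 1) →
    ¬ DadeHolds ℓ X →
    ∃ N : Subgroup X, N.Normal ∧ Subgroup.center X < N ∧
      (∀ N' : Subgroup X, N'.Normal → Subgroup.center X < N' → N ≤ N') ∧
      IsSimpleGroup (N.map (QuotientGroup.mk' (Subgroup.center X))) ∧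
      IsSimpleGroup (N ⧸ (Subgroup.center X).subgroupOf N) ∧
      (∃ x ∈ N, ∃ y ∈ N, x * y * x⁻¹ * y⁻¹ ∉ Subgroup.center X) ∧
      (∃ x ∈ N, x ^ ℓ ∈ Subgroup.center X ∧ x ∉ Subgroup.center X) ∧
      (∀ x, (∀ y ∈ N, x * y * x⁻¹ * y⁻¹ ∈ Subgroup.center X) → x ∈ Subgroup.center X) ∧
      (∃ Q : Subgroup (X ⧸ Subgroup.center X), IsPGroup ℓ Q ∧ ¬ IsCyclic Q) ∧
      ∃ P M : Subgroup X, ∃ _ : P.Normal, M.Normal ∧ N ≤ P ∧ N ≤ M ∧
        (∀ x ∈ P, ∃ k : ℕ, x ^ ℓ ^ k ∈ N) ∧ ¬ ℓ ∣ P.index ∧ Group.IsNilpotent (X ⧸ P) ∧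
        (∃ x y : X, Subgroup.closure {x, y} ⊔ P = ⊤) ∧ (∀ x ∈ M, x ^ ℓ ∈ N → x ∈ N) ∧
        ∀ x y : X, x * y * x⁻¹ * y⁻¹ ∈ P ⊔ M

theorem MINR_thm (Cl : ∀ (Y : Type) [Group Y], Prop) (h1 : Stmt_FINR Cl) (h2 : Stmt_B0Fr Cl)
    (h3 : Stmt_STRNr Cl) (h4 : Stmt_OUT1r Cl) (h5 : Pool.Agent.DPN.Stmt_DLO) (h6 : Stmt_BAS)
    (h7 : Stmt_GRB) (h8 : Stmt_CYS) (h9 : Stmt_CYQ) : Stmt_MINR Cl := by
  classical
  intro X _ _ ℓ hf hcore hCl hHR hD
  have hℓ : ℓ.Prime := hf.out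
  obtain ⟨hA, N, hN, hNc, hmin⟩ := h2 X ℓ hcore hCl hHR hD
  obtain ⟨hdv, hna⟩ := hA N hN hNc
  obtain ⟨hs1, hs2⟩ := h1 X ℓ hcore hCl hHR hD N hN hNc hmin hna
  obtain ⟨P, hP, hNP, hPp, hPi, hPn, hPg⟩ := h3 X ℓ hcore hCl hHR hD N hN hNc
  obtain ⟨𝔐, h𝔐, hℓM, d, ω, hd, hK⟩ := h5 X ℓ hcore hD
  obtain ⟨M, hM, hNM, hMr, H, iH, fH, f, hfs, hfk, P₀, hP₀, hP₀p, hP₀i, hP₀c⟩ :=
    h4 X 𝔐 ℓ h𝔐 hℓM hcore hCl hHR d ω hd hK N hN hNc
  have hcent := MINR.cent N hN hmin hna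
  refine ⟨N, hN, hNc, hmin, hs1, hs2, hna, hdv, hcent, ?_, P, M, hP, hM, hNP, hNM, hPp, hPi, hPn,
    hPg, hMr, ?_⟩
  · by_contra hcyc
    push Not at hcyc
    let π : X →* X ⧸ Subgroup.center X := QuotientGroup.mk' (Subgroup.center X)
    have hπs : Function.Surjective π := QuotientGroup.mk'_surjective _
    have hπk : π.ker = Subgroup.center X := QuotientGroup.ker_mk' _
    obtain ⟨g1, g2, g3, g4, g5, g6, g7⟩ :=
      h7 X (X ⧸ Subgroup.center X) ℓ π hπs hπk N hN hNc hmin hna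
    have hdS : ℓ ∣ Nat.card (N.map π) := by
      obtain ⟨x, hx, hx1, hx2⟩ := hdv
      have h10 : (⟨π x, ⟨x, hx, rfl⟩⟩ : N.map π) ^ ℓ = 1 := by
        apply Subtype.ext
        change (π x) ^ ℓ = 1
        rw [← map_pow, ← MonoidHom.mem_ker, hπk]
        exact hx1
      rcases (Nat.dvd_prime hℓ).mp (orderOf_dvd_of_pow_eq_one h10) with h11 | h11
      · rw [orderOf_eq_one_iff] at h11
        have h12 : π x = 1 := congrArg Subtype.val h11
        rw [← MonoidHom.mem_ker, hπk] at h12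
        exact absurd h12 hx2
      · rw [← h11]
        exact orderOf_dvd_natCard _
    have hidx : ¬ ℓ ∣ (N.map π).index := by
      refine h8 (X ⧸ Subgroup.center X) ℓ (N.map π) (P.map π) g1 hs1 g4 hdS hcyc
        (Subgroup.map_mono hNP) ?_ ?_
      · rintro _ ⟨x, hx, rfl⟩
        obtain ⟨k, hk⟩ := hPp x hx
        exact ⟨k, x ^ ℓ ^ k, hk, map_pow π x _⟩
      · rw [MINR.index_map P (hNc.le.trans hNP)]
        exact hPi
    rw [MINR.index_map N hNc.le] at hidx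
    exact hD (h6 X ℓ hcore N hN hNc.le (UNC.perf N hN hNc hmin hna)
      (h9 X ℓ N hN hNc.le hcyc) hidx)
  · intro x y
    have hR : (P ⊔ M).Normal := inferInstance
    have hRi : ¬ ℓ ∣ (P ⊔ M).index := fun h =>
      hPi (h.trans (Subgroup.index_dvd_of_le le_sup_left))
    obtain ⟨k, hk⟩ := hP₀p ⟨f x * f y * (f x)⁻¹ * (f y)⁻¹, hP₀c (f x) (f y)⟩
    have h5 : (f x * f y * (f x)⁻¹ * (f y)⁻¹) ^ ℓ ^ k = 1 := congrArg Subtype.val hk
    have h6 : (x * y * x⁻¹ * y⁻¹) ^ ℓ ^ k ∈ M := by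
      rw [← hfk, map_pow, map_mul, map_mul, map_mul, map_inv, map_inv]
      exact h5
    exact MINR.mem_of_pow hℓ (P ⊔ M) hRi (le_sup_right (a := P) h6)

/-- The groups of the class `UD ℓ` satisfy Dade's conjecture. -/
theorem UNE_thm (ℓ : ℕ) [hf : Fact ℓ.Prime] (h1 : Stmt_MINR (UD ℓ)) (h7 : Stmt_GRB) :
    ∀ (X : Type) [Group X] [Finite X], UD ℓ X → pCore ℓ X ≤ Subgroup.center X →
      DadeHolds ℓ X := by
  classical
  have hmain : ∀ n : ℕ, HR (UD ℓ) ℓ n := by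
    intro n
    induction n with
    | zero =>
      intro Y _ _ _ _ hi
      exact absurd (Nat.le_zero.mp hi) Subgroup.index_ne_zero_of_finite
    | succ n ih =>
      intro Y _ _ hCl hcore hi
      by_contra hD
      let _ : Fintype Y := Fintype.ofFinite Y
      have hHR : HR (UD ℓ) ℓ ((Subgroup.center Y).index - 1) := ih.mono (by omega)
      obtain ⟨N, hN, hNc, hmin, hs1, hs2, hna, hdv, hcent, ⟨Q, hQ, hQc⟩, -⟩ :=
        h1 Y ℓ hcore hCl hHR hD
      apply hQc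
      let π : Y →* Y ⧸ Subgroup.center Y := QuotientGroup.mk' (Subgroup.center Y)
      have hπs : Function.Surjective π := QuotientGroup.mk'_surjective _
      have hπk : π.ker = Subgroup.center Y := QuotientGroup.ker_mk' _
      obtain ⟨g1, g2, g3, g4, g5, g6, g7⟩ :=
        h7 Y (Y ⧸ Subgroup.center Y) ℓ π hπs hπk N hN hNc hmin hna
      have hdS : ℓ ∣ Nat.card (N.map π) := by
        obtain ⟨x, hx, hx1, hx2⟩ := hdv
        have h10 : (⟨π x, ⟨x, hx, rfl⟩⟩ : N.map π) ^ ℓ = 1 := by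
          apply Subtype.ext
          change (π x) ^ ℓ = 1
          rw [← map_pow, ← MonoidHom.mem_ker, hπk]
          exact hx1
        rcases (Nat.dvd_prime hf.out).mp (orderOf_dvd_of_pow_eq_one h10) with h11 | h11
        · rw [orderOf_eq_one_iff] at h11
          have h12 : π x = 1 := congrArg Subtype.val h11
          rw [← MonoidHom.mem_ker, hπk] at h12
          exact absurd h12 hx2
        · rw [← h11]
          exact orderOf_dvd_natCard _
      exact hCl ⊤ (Y ⧸ Subgroup.center Y) (π.comp (⊤ : Subgroup Y).subtype)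
        (fun k => by obtain ⟨x, rfl⟩ := hπs k; exact ⟨⟨x, Subgroup.mem_top x⟩, rfl⟩)
        (N.map π) g1 hs1 g4 g5 hdS Q hQ
  intro X _ _ hCl hcore
  exact hmain _ X hCl hcore le_rfl

end Pool.Agent.DPK
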