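import Mathlib
import Pool.Agent.DPK.MINR
import Pool.Agent.DPK.FINS

/-!
# MINS: the structure of a minimal counterexample to Dade's conjecture in a class of groups, and a
counterexample with the same quotient by the centre whose centre is cyclic and contained in the
commutator subgroup
-/

namespace Pool.Agent.DPK

open Pool.Agent.DP Pool.Agent.DPC Pool.Agent.DPM Pool.Agent.DPN Pool.Agent.DPT Pool.Agent.DPF
open Pool.Agent.Lib_helper13
open Representation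
open Pool.Agent.Lib_helper13.Dade (pCore DadeHolds dadeSum)

/-- `A` has a nonabelian simple normal subgroup `S` of order divisible by `ℓ` with trivial
centralizer, the Sylow `ℓ`-subgroups of `A` are not cyclic, and `A / S` has a normal Sylow
`ℓ`-subgroup `P / S` and a normal subgroup `M / S` of order prime to `ℓ` such that `A / P` is
nilpotent and generated by two elements and `A / PM` is abelian. -/
def CritA (ℓ : ℕ) (A : Type) [Group A] : Prop :=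
  (∃ Q : Subgroup A, IsPGroup ℓ Q ∧ ¬ IsCyclic Q) ∧
  ∃ S P M : Subgroup A, S.Normal ∧ IsSimpleGroup S ∧ (∃ a ∈ S, ∃ b ∈ S, a * b ≠ b * a) ∧
    ℓ ∣ Nat.card S ∧ Subgroup.centralizer (S : Set A) = ⊥ ∧
    ∃ _ : P.Normal, M.Normal ∧ S ≤ P ∧ S ≤ M ∧ (∀ x ∈ P, ∃ k : ℕ, x ^ ℓ ^ k ∈ S) ∧
      ¬ ℓ ∣ P.index ∧ Group.IsNilpotent (A ⧸ P) ∧
      (∃ x y : A, Subgroup.closure {x, y} ⊔ P = ⊤) ∧ (∀ x ∈ M, x ^ ℓ ∈ S → x ∈ S) ∧
      ∀ x y : A, x * y * x⁻¹ * y⁻¹ ∈ P ⊔ M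

/-- MINS: the structure of a minimal counterexample. -/
def Stmt_MINS (Cl : ∀ (Y : Type) [Group Y], Prop) : Prop :=
  ∀ (X : Type) [Group X] [Fintype X] (ℓ : ℕ) [Fact ℓ.Prime],
    pCore ℓ X ≤ Subgroup.center X → Cl X → HR Cl ℓ ((Subgroup.center X).index - 1) →
    ¬ DadeHolds ℓ X →
    CritA ℓ (X ⧸ Subgroup.center X) ∧
      ∃ (Y : Type) (_ : Group Y) (_ : Finite Y) (πY : Y →* X ⧸ Subgroup.center X),
        Function.Surjective πY ∧ πY.ker = Subgroup.center Y ∧ IsCyclic (Subgroup.center Y) ∧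
        Subgroup.center Y ≤ ⁅(⊤ : Subgroup Y), ⊤⁆ ∧ pCore ℓ Y ≤ Subgroup.center Y ∧
        ¬ DadeHolds ℓ Y

theorem MINS_thm (Cl : ∀ (Y : Type) [Group Y], Prop) (h1 : Stmt_FINS Cl) (h2 : Stmt_B0Fr Cl)
    (h3 : Stmt_STRNr Cl) (h4 : Stmt_OUT1r Cl) (h5 : Pool.Agent.DPN.Stmt_DLO) (h6 : Stmt_BAS)
    (h7 : Stmt_GRB) (h8 : Stmt_CYS) (h9 : Stmt_CYQ) : Stmt_MINS Cl := by
  classical
  intro X _ _ ℓ hf hcore hCl hHR hD
  have hℓ : ℓ.Prime := hf.out
  obtain ⟨hA, N, hN, hNc, hmin⟩ := h2 X ℓ hcore hCl hHR hD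
  obtain ⟨hdv, hna⟩ := hA N hN hNc
  obtain ⟨hs1, hs2, hY⟩ := h1 X ℓ hcore hCl hHR hD N hN hNc hmin hna
  obtain ⟨P, hP, hNP, hPp, hPi, hPn, hPg⟩ := h3 X ℓ hcore hCl hHR hD N hN hNc
  obtain ⟨𝔐, h𝔐, hℓM, d, ω, hd, hK⟩ := h5 X ℓ hcore hD
  obtain ⟨M, hM, hNM, hMr, H, iH, fH, f, hfs, hfk, P₀, hP₀, hP₀p, hP₀i, hP₀c⟩ :=
    h4 X 𝔐 ℓ h𝔐 hℓM hcore hCl hHR d ω hd hK N hN hNc
  let π : X →* X ⧸ Subgroup.center X := QuotientGroup.mk' (Subgroup.center X)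
  have hπs : Function.Surjective π := QuotientGroup.mk'_surjective _
  have hπk : π.ker = Subgroup.center X := QuotientGroup.ker_mk' _
  obtain ⟨g1, g2, g3, g4, g5, g6, g7⟩ :=
    h7 X (X ⧸ Subgroup.center X) ℓ π hπs hπk N hN hNc hmin hna
  have hdS : ℓ ∣ Nat.card (N.map π) := by
    obtain ⟨x, hx, hx1, hx2⟩ := hdv
    have h10 : (⟨π x, ⟨x, hx, rfl⟩⟩ : N.map π) ^ ℓ = 1 := by
      apply Subtype.ext
      change (π x) ^ ℓ = 1
      rw [← map_pow, ← MonoidHom.mem_ker, hπk]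
      exact hx1
    rcases (Nat.dvd_prime hℓ).mp (orderOf_dvd_of_pow_eq_one h10) with h11 | h11
    · rw [orderOf_eq_one_iff] at h11
      have h12 : π x = 1 := congrArg Subtype.val h11
      rw [← MonoidHom.mem_ker, hπk] at h12
      exact absurd h12 hx2
    · rw [← h11]
      exact orderOf_dvd_natCard _
  have hPmap : (P.map π).index = P.index := MINR.index_map P (hNc.le.trans hNP)
  have hPm : ∀ x ∈ P.map π, ∃ k : ℕ, x ^ ℓ ^ k ∈ N.map π := by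
    rintro _ ⟨x, hx, rfl⟩
    obtain ⟨k, hk⟩ := hPp x hx
    exact ⟨k, x ^ ℓ ^ k, hk, map_pow π x _⟩
  have hmemN : ∀ x : X, π x ∈ N.map π → x ∈ N := by
    rintro x ⟨y, hy, hyx⟩
    have h10 : y⁻¹ * x ∈ π.ker := by
      rw [MonoidHom.mem_ker, map_mul, map_inv, hyx, inv_mul_cancel]
    rw [hπk] at h10
    have h11 := N.mul_mem hy (hNc.le h10)
    rwa [mul_inv_cancel_left] at h11
  refine ⟨⟨?_, N.map π, P.map π, M.map π, g1, hs1, g4, hdS, g5, hP.map π hπs, hM.map π hπs,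
    Subgroup.map_mono hNP, Subgroup.map_mono hNM, hPm, ?_, ?_, ?_, ?_, ?_⟩, hY⟩
  · by_contra hcyc
    push Not at hcyc
    have hidx : ¬ ℓ ∣ (N.map π).index := by
      refine h8 (X ⧸ Subgroup.center X) ℓ (N.map π) (P.map π) g1 hs1 g4 hdS hcyc
        (Subgroup.map_mono hNP) hPm ?_
      rw [hPmap]
      exact hPi
    rw [MINR.index_map N hNc.le] at hidx
    exact hD (h6 X ℓ hcore N hN hNc.le (UNC.perf N hN hNc hmin hna)
      (h9 X ℓ N hN hNc.le hcyc) hidx)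
  · rw [hPmap]
    exact hPi
  · have : (P.map π).Normal := hP.map π hπs
    exact Group.nilpotent_of_surjective
      (QuotientGroup.map P (P.map π) π (Subgroup.le_comap_map π P))
      (fun q => by
        obtain ⟨a, rfl⟩ := QuotientGroup.mk'_surjective _ q
        obtain ⟨x, rfl⟩ := hπs a
        exact ⟨QuotientGroup.mk' P x, rfl⟩)
  · obtain ⟨x, y, hxy⟩ := hPg
    refine ⟨π x, π y, ?_⟩
    have h10 : (Subgroup.closure {x, y} ⊔ P).map π = ⊤ := by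
      rw [hxy, Subgroup.map_top_of_surjective π hπs]
    rw [Subgroup.map_sup, MonoidHom.map_closure, Set.image_pair] at h10
    exact h10
  · rintro _ ⟨x, hx, rfl⟩ hxl
    rw [← map_pow] at hxl
    exact ⟨x, hMr x hx (hmemN _ hxl), rfl⟩
  · intro a b
    obtain ⟨x, rfl⟩ := hπs a
    obtain ⟨y, rfl⟩ := hπs b
    have hR : (P ⊔ M).Normal := inferInstance
    have hRi : ¬ ℓ ∣ (P ⊔ M).index := fun h =>
      hPi (h.trans (Subgroup.index_dvd_of_le le_sup_left))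
    obtain ⟨k, hk⟩ := hP₀p ⟨f x * f y * (f x)⁻¹ * (f y)⁻¹, hP₀c (f x) (f y)⟩
    have h5 : (f x * f y * (f x)⁻¹ * (f y)⁻¹) ^ ℓ ^ k = 1 := congrArg Subtype.val hk
    have h6 : (x * y * x⁻¹ * y⁻¹) ^ ℓ ^ k ∈ M := by
      rw [← hfk, map_pow, map_mul, map_mul, map_mul, map_inv, map_inv]
      exact h5
    have h7 : x * y * x⁻¹ * y⁻¹ ∈ P ⊔ M :=
      MINR.mem_of_pow hℓ (P ⊔ M) hRi (le_sup_right (a := P) h6)
    rw [← Subgroup.map_sup]
    exact ⟨_, h7, by rw [map_mul, map_mul, map_mul, map_inv, map_inv]⟩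

end Pool.Agent.DPK
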