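import Mathlib
import Pool.Agent.DPK.Defs

/-!
# The groups all of whose almost simple sections are sections of a given group
-/

namespace Pool.Agent.DPK

open Pool.Agent.Lib_helper13.Dade (pCore DadeHolds)

/-- The class of the groups `Y` such that every group `A` with a nonabelian simple normal subgroup
`S` of order divisible by `ℓ` and with trivial centralizer which is an image of a subgroup of `Y` is
an image of a subgroup of `X`. -/
def SecC (ℓ : ℕ) (X : Type) [Group X] (Y : Type) [Group Y] : Prop :=
  ∀ (H : Subgroup Y) (A : Type) [Group A] (f : H →* A), Function.Surjective f →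
    ∀ S : Subgroup A, S.Normal → IsSimpleGroup S → (∃ a ∈ S, ∃ b ∈ S, a * b ≠ b * a) →
    Subgroup.centralizer (S : Set A) = ⊥ → ℓ ∣ Nat.card S →
    ∃ (T : Subgroup X) (g : T →* A), Function.Surjective g

theorem SecC_self (ℓ : ℕ) (X : Type) [Group X] : SecC ℓ X X := by
  intro H A _ f hf S _ _ _ _ _
  exact ⟨H, f, hf⟩

theorem SecC_GC (ℓ : ℕ) (X : Type) [Group X] : GC (SecC ℓ X) where
  im := by
    intro Y Y' _ _ _ f hf hY H A _ g hg S hSn hSs hSa hSc hSl
    refine hY (H.comap f) A (g.comp ((f.comp (H.comap f).subtype).codRestrict H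
      (fun x => x.2))) ?_ S hSn hSs hSa hSc hSl
    intro a
    obtain ⟨h, rfl⟩ := hg a
    obtain ⟨y, hy⟩ := hf h
    refine ⟨⟨y, ?_⟩, ?_⟩
    · rw [Subgroup.mem_comap, hy]
      exact h.2
    · rw [MonoidHom.comp_apply]
      congr 1
      exact Subtype.ext hy
  up := by
    intro Y Y' _ _ _ f hker hY H A _ g hg S hSn hSs hSa hSc hSl
    -- the restriction of `f` to `H` and its kernel
    have hk : (f.subgroupMap H).ker ≤ g.ker := by
      intro x hx
      have hx1 : f x = 1 := by
        have h1 := (MonoidHom.mem_ker).mp hx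
        have h2 := congrArg Subtype.val h1
        simpa using h2
      have hx2 : (x : Y) ∈ Subgroup.center Y := hker (MonoidHom.mem_ker.mpr hx1)
      have hx3 : g x ∈ Subgroup.centralizer (S : Set A) := by
        rw [Subgroup.mem_centralizer_iff]
        intro s _
        obtain ⟨t, rfl⟩ := hg s
        rw [← map_mul, ← map_mul]
        congr 1
        apply Subtype.ext
        exact (Subgroup.mem_center_iff.mp hx2 t)
      rw [hSc, Subgroup.mem_bot] at hx3
      exact MonoidHom.mem_ker.mpr hx3
    have hs : Function.Surjective (f.subgroupMap H) := f.subgroupMap_surjective H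
    refine hY (H.map f) A ((f.subgroupMap H).liftOfSurjective hs ⟨g, hk⟩) ?_ S hSn hSs hSa hSc hSl
    intro a
    obtain ⟨h, rfl⟩ := hg a
    refine ⟨f.subgroupMap H h, ?_⟩
    exact MonoidHom.liftOfRightInverse_comp_apply _ _ _ _ h

end Pool.Agent.DPK
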