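import Mathlib
import Pool.Agent.DPK.AllK
import Pool.Agent.DPK.MINS
import Pool.Agent.DPK.SEC
import Pool.Agent.DPG.AllG
import Pool.Agent.DPH.AllH

/-!
# Dade's conjecture for a finite group follows from Dade's conjecture for certain central extensions
of almost simple groups
-/

namespace Pool.Agent.DPK

open Pool.Agent.DP Pool.Agent.DPC Pool.Agent.DPM Pool.Agent.DPN Pool.Agent.DPT Pool.Agent.DPF
open Pool.Agent.Lib_helper13.Dade (pCore DadeHolds)

theorem all_FINS (Cl : ∀ (Y : Type) [Group Y], Prop) (hC : GC Cl) : Stmt_FINS Cl :=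
  FINS_thm Cl hC
    (Pool.Agent.DPG.all_TEN Cl (all_PS1r Cl hC) (all_T2Ar Cl hC) (all_T2Br Cl hC))
    all_QMU BSA_thm BSB_thm GRA_thm GRB_thm (all_OUT2r Cl hC) all_GLU all_DLO
    Pool.Agent.DPH.all_STE

theorem all_MINS (Cl : ∀ (Y : Type) [Group Y], Prop) (hC : GC Cl) : Stmt_MINS Cl :=
  MINS_thm Cl (all_FINS Cl hC) (all_B0Fr Cl hC) (all_STRNr Cl hC) (all_OUT1r Cl hC) all_DLO
    all_BAS GRB_thm CYS_thm CYQ_thm

/-- Dade's conjecture holds for `X` if it holds for the groups `Y` with `O_ℓ(Y) ≤ Z(Y) ≤ [Y, Y]`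
and `Z(Y)` cyclic such that `Y / Z(Y)` is isomorphic to a quotient `A` of a subgroup of `X` with the
properties `CritA`. -/
theorem mainK (ℓ : ℕ) (hℓ : ℓ.Prime) (X : Type) [Group X] [Finite X]
    (hcore : pCore ℓ X ≤ Subgroup.center X)
    (hstem : ∀ (A : Type) [Group A], CritA ℓ A →
      (∃ (T : Subgroup X) (g : T →* A), Function.Surjective g) →
      ∀ (Y : Type) [Group Y] [Finite Y] (π : Y →* A), Function.Surjective π →
        π.ker = Subgroup.center Y → IsCyclic (Subgroup.center Y) →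
        Subgroup.center Y ≤ commutator Y → pCore ℓ Y ≤ Subgroup.center Y → DadeHolds ℓ Y) :
    DadeHolds ℓ X := by
  classical
  have hf : Fact ℓ.Prime := ⟨hℓ⟩
  have hmain : ∀ n : ℕ, HR (SecC ℓ X) ℓ n := by
    intro n
    induction n with
    | zero =>
      intro Y _ _ _ _ hi
      exact absurd (Nat.le_zero.mp hi) Subgroup.index_ne_zero_of_finite
    | succ n ih =>
      intro V _ _ hCl hV hi
      by_contra hD
      let _ : Fintype V := Fintype.ofFinite V
      have hHR : HR (SecC ℓ X) ℓ ((Subgroup.center V).index - 1) := ih.mono (by omega)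
      obtain ⟨hcrit, Y, iY, fY, πY, h1, h2, h3, h4, h5, h6⟩ :=
        all_MINS (SecC ℓ X) (SecC_GC ℓ X) V ℓ hV hCl hHR hD
      apply h6
      refine hstem (V ⧸ Subgroup.center V) hcrit ?_ Y πY h1 h2 h3 h4 h5
      obtain ⟨-, S, P, M, k1, k2, k3, k4, k5, -⟩ := hcrit
      exact hCl ⊤ (V ⧸ Subgroup.center V)
        ((QuotientGroup.mk' (Subgroup.center V)).comp (⊤ : Subgroup V).subtype)
        (fun k => by
          obtain ⟨x, rfl⟩ := QuotientGroup.mk'_surjective _ k
          exact ⟨⟨x, Subgroup.mem_top x⟩, rfl⟩)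
        S k1 k2 k3 k5 k4
  exact hmain _ X (SecC_self ℓ X) hcore le_rfl

end Pool.Agent.DPK
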