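import Pool.Agent.DPK.Stmts
import Pool.Agent.DPT.OUTF

/-!
# OUTFr: a family for a nonvanishing chain sum, for the groups of a class
-/

namespace Pool.Agent.DPK

open Pool.Agent.DP Pool.Agent.DPC Pool.Agent.DPM Pool.Agent.DPN Pool.Agent.DPT
open Pool.Agent.Lib_helper13 Representation
open Pool.Agent.Lib_helper13.Dade (pCore DadeHolds dadeSum)

namespace OUTFr

theorem sub_zero {Cl : ∀ (Y : Type) [Group Y], Prop} (hCl : GC Cl)
    {O X H : Type} [Group O] [Fintype O] [Group X] [Fintype X] [Group H] [Fintype H]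
    (h2 : Stmt_DKVr Cl)
    (𝔐 : Ideal (integralClosure ℤ ℂ)) (ℓ : ℕ) [Fact ℓ.Prime] (hM : 𝔐.IsMaximal)
    (hl : (ℓ : integralClosure ℤ ℂ) ∈ 𝔐) (j : O →* X) (c : X →* MulAut O) (p : X →* H)
    (h : ClG j c p) (hp : Function.Surjective p) (n : ℕ) (hX : Cl X) (hn : HR Cl ℓ n)
    (hC : Subgroup.center X ≤ j.range) (hi : (Subgroup.center X).index ≤ n + 1)
    (Z : Subgroup O) (hZ : IsPGroup ℓ Z) (hZj : Z.map j ≤ Subgroup.center X) (d : ℕ)
    (P : Set (X → (integralClosure ℤ ℂ) ⧸ 𝔐)) (hd : padicValNat ℓ (Nat.card Z) < d)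
    (V : Subgroup H) (hV : V ≠ ⊤) :
    DK 𝔐 ℓ d ((Z.map j).subgroupOf (V.comap p)) (V.comap p).subtype P = 0 := by
  have hCY : Subgroup.center X ≤ V.comap p := by
    intro x hx
    rw [Subgroup.mem_comap, (h.ker x).mpr (hC hx)]
    exact V.one_mem
  have hCc : (Subgroup.center X).subgroupOf (V.comap p) ≤ Subgroup.center (V.comap p) := by
    intro x hx
    rw [Subgroup.mem_center_iff]
    intro y
    apply Subtype.ext
    exact Subgroup.mem_center_iff.mp (Subgroup.mem_subgroupOf.mp hx) y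
  have hidx : (Subgroup.center (V.comap p)).index ≤ n := by
    have e1 : (Subgroup.center (V.comap p)).index ∣
        ((Subgroup.center X).subgroupOf (V.comap p)).index := Subgroup.index_dvd_of_le hCc
    have e2 : (Subgroup.center X).relIndex (V.comap p) * (V.comap p).index =
        (Subgroup.center X).index := Subgroup.relIndex_mul_index hCY
    have e3 : (V.comap p).index = V.index := Subgroup.index_comap_of_surjective V hp
    have e4 : V.index ≠ 0 := Subgroup.index_ne_zero_of_finite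
    have e5 : V.index ≠ 1 := fun h5 => hV (Subgroup.index_eq_one.mp h5)
    have e6 : (Subgroup.center X).relIndex (V.comap p) ≠ 0 := by
      change ((Subgroup.center X).subgroupOf (V.comap p)).index ≠ 0
      exact Subgroup.index_ne_zero_of_finite
    have e7 : (Subgroup.center (V.comap p)).index ≤ (Subgroup.center X).relIndex (V.comap p) :=
      Nat.le_of_dvd (Nat.pos_of_ne_zero e6) e1
    rw [e3] at e2
    have e8 : 2 ≤ V.index := by omega
    have e9 : (Subgroup.center X).relIndex (V.comap p) * 2 ≤ (Subgroup.center X).index := by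
      rw [← e2]
      exact Nat.mul_le_mul_left _ e8
    omega
  have hZY : Z.map j ≤ V.comap p := hZj.trans hCY
  refine h2 (V.comap p) X 𝔐 ℓ hM hl n (hCl.sub hX _) hn hidx
    ((Z.map j).subgroupOf (V.comap p)) ?_ ?_ d ?_ _ P
  · intro x hx
    apply hCc
    exact Subgroup.mem_subgroupOf.mpr (hZj (Subgroup.mem_subgroupOf.mp hx))
  · exact (hZ.map j).comap_subtype
  · have e1 : Nat.card ((Z.map j).subgroupOf (V.comap p)) = Nat.card Z := by
      rw [Nat.card_congr (Subgroup.subgroupOfEquivOfLe hZY).toEquiv]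
      exact (Nat.card_congr (Z.equivMapOfInjective j h.inj).toEquiv).symm
    rw [e1]
    exact hd

end OUTFr

open OUTFr in
open Classical in
/-- OUTFr -/
theorem OUTFr_thm (Cl : ∀ (Y : Type) [Group Y], Prop) (hCl : GC Cl) (h1 : Stmt_FF)
    (h2 : Stmt_DKVr Cl) (h3 : Stmt_FNAr Cl) (h4 : Stmt_FAMr Cl) (h5 : Stmt_ABQ)
    (_h6 : Stmt_RCE) : Stmt_OUTFr Cl := by
  intro O X H _ _ _ _ _ _ 𝔐 ℓ _ hM hl j c p h hp hH n hX hn hC hi hHn Z hZ hZj d ω hd hne
  obtain ⟨m, hm⟩ := (MOBX_thm H).1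
  have hm1 : m ⊤ = 1 := ((MOBX_thm H).2 m hm).1
  have hHR : HR Cl ℓ (Nat.card H) := hn.mono hHn
  have hCH : Cl H := hCl.im X H p hp hX
  -- the sum is not zero
  have hFF := h1 O X H 𝔐 ℓ j c p h hp hH Z m hm d {ω}
  have hL : ∑ V, m V * DK 𝔐 ℓ d ((Z.map j).subgroupOf (V.comap p)) (V.comap p).subtype {ω} =
      DK 𝔐 ℓ d (Z.map j) (MonoidHom.id X) {ω} := by
    rw [Finset.sum_eq_single (⊤ : Subgroup H)]
    · rw [hm1, one_mul]
      exact OUTF.DK_top 𝔐 ℓ d ((⊤ : Subgroup H).comap p) (Subgroup.comap_top p) (Z.map j) {ω}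
    · intro V _ hV
      rw [OUTFr.sub_zero hCl h2 𝔐 ℓ hM hl j c p h hp n hX hn hC hi Z hZ hZj d {ω} hd V hV,
        mul_zero]
    · intro h'
      exact absurd (Finset.mem_univ _) h'
  rw [hL] at hFF
  rw [hFF] at hne
  obtain ⟨τ, hτ, k1⟩ := Finset.exists_ne_zero_of_sum_ne_zero hne
  obtain ⟨θ, hθ, k2⟩ := Finset.exists_ne_zero_of_sum_ne_zero (right_ne_zero_of_mul k1)
  have k3 := right_ne_zero_of_mul k2
  rw [Finset.mem_filter, mem_irrF] at hθ
  obtain ⟨hirr, hFP⟩ := hθ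
  have hPr := h3 O X H 𝔐 ℓ hM hl j c p h hH hCH hHR Z d ω m hm τ hτ θ hirr hFP k3 τ hτ θ hirr
    hFP k3
  obtain ⟨W, _, _, π, R, μ, Lm, hF⟩ := h4 O X H 𝔐 ℓ hM hl j c p h hH hCH hHR d Z
    (cen 𝔐 (stb τ).subtype θ)
  obtain ⟨hR, hRi, _⟩ := h5 O X H W 𝔐 ℓ hM hl j c p h d Z _ π R μ Lm hF τ θ hPr m hm ω k3
  exact ⟨W, inferInstance, inferInstance, π, R, μ, Lm, τ, θ, hF, hPr,
    FNA.key 𝔐 ℓ h d ω m τ θ hirr k3, hR, hRi⟩

end Pool.Agent.DPK
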