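import Pool.Agent.DPK.StmtsD
import Pool.Agent.DPT.CRS

/-!
# QMB: inflation of the covered characters
-/

namespace Pool.Agent.DPK

open Pool.Agent.DP Pool.Agent.DPC Pool.Agent.DPM Pool.Agent.DPN Pool.Agent.DPT Pool.Agent.DPF
open Pool.Agent.Lib_helper13
open Representation

namespace QMB

variable {L L' K : Type} [Group L] [Fintype L] [Group L'] [Fintype L'] [Group K]

/-- Conjugacy in the whole group. -/
theorem cg_eq (𝔐 : Ideal (integralClosure ℤ ℂ)) (f : L → ℂ) (g : L) :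
    cg 𝔐 f g = cgT 𝔐 ⊤ f g := by
  have h : ∀ x : L, conjInd x g = cjT ⊤ x g := by
    intro x
    unfold conjInd cjT
    by_cases hx : IsConj x g
    · rw [if_pos hx]
      obtain ⟨t, ht⟩ := isConj_iff.1 hx.symm
      rw [if_pos ⟨t, Subgroup.mem_top t, ht.symm⟩]
    · rw [if_neg hx, if_neg]
      rintro ⟨t, -, ht⟩
      exact hx (isConj_iff.2 ⟨t, ht.symm⟩).symm
  unfold cg cgT
  simp only [h]

end QMB

open QMB in
theorem QMB_thm (h1 : Stmt_QMF) : Stmt_QMB := by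
  intro L L' K _ _ _ _ _ _ 𝔐 hmax q π' hq μ μ' hμ N M hNM ω ω' hrel f' hf'
  obtain ⟨hirr, hov, hcg⟩ := hf'
  have hs := CRS.surjT hq (N.comap π')
  refine ⟨⟨QINF.irr_inf (MLE.kT q (N.comap π')) hs hirr.1, fun x hx => hirr.2 _ hx⟩, ?_, ?_⟩
  · exact CRS.ov_inf hμ hov
  · intro g hg
    have hg' : π' (q g) ∈ N := hg
    rw [cg_eq, h1 L L' 𝔐 hmax q hq (N.comap π') f' hirr g, ← cg_eq, hcg (q g) hg',
      hrel g (hNM hg')]

end Pool.Agent.DPK
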