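import Mathlib
import Pool.Agent.DPK.StmtsD

/-!
# The class of the unconditional theorem is closed
-/

namespace Pool.Agent.DPK

open Pool.Agent.DP Pool.Agent.DPC Pool.Agent.DPM Pool.Agent.DPN Pool.Agent.DPT Pool.Agent.DPF
open Pool.Agent.Lib_helper13
open Representation

namespace UCC

theorem center_bot {S : Type} [Group S] (hs : IsSimpleGroup S) (hn : ∃ a b : S, a * b ≠ b * a) :
    Subgroup.center S = ⊥ := by
  have hc : (Subgroup.center S).Normal := inferInstance
  rcases hc.eq_bot_or_eq_top with h | h
  · exact h
  · exfalso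
    obtain ⟨a, b, hab⟩ := hn
    apply hab
    have ha : b ∈ Subgroup.center S := by
      rw [h]
      exact Subgroup.mem_top b
    exact Subgroup.mem_center_iff.mp ha a

end UCC

open UCC

theorem UCC_thm : Stmt_UCC := by
  intro ℓ _
  refine ⟨?_, ?_⟩
  · intro Y Y' _ _ _ f hf h H' S _ g hg hs hn hd
    refine h (H'.comap f) S (g.comp (f.subgroupComap H')) ?_ hs hn hd
    rw [MonoidHom.coe_comp]
    exact hg.comp (MonoidHom.subgroupComap_surjective_of_surjective f H' hf)
  · intro Y Y' _ _ _ f hk h H S _ g hg hs hn hd
    have hp : Function.Surjective (f.subgroupMap H) := MonoidHom.subgroupMap_surjective f H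
    have hker : (f.subgroupMap H).ker ≤ g.ker := by
      intro x hx
      rw [MonoidHom.mem_ker] at hx ⊢
      have hfx : f (x : Y) = 1 := by
        have h1 := congrArg (Subtype.val) hx
        exact h1
      have hxc : (x : Y) ∈ Subgroup.center Y := hk (MonoidHom.mem_ker.mpr hfx)
      have hgx : g x ∈ Subgroup.center S := by
        rw [Subgroup.mem_center_iff]
        intro s
        obtain ⟨y, rfl⟩ := hg s
        rw [← map_mul, ← map_mul]
        congr 1
        apply Subtype.ext
        exact Subgroup.mem_center_iff.mp hxc y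
      rw [center_bot hs hn, Subgroup.mem_bot] at hgx
      exact hgx
    let g' : H.map f →* S := (f.subgroupMap H).liftOfSurjective hp ⟨g, hker⟩
    have hg' : ∀ x, g' (f.subgroupMap H x) = g x := fun x =>
      (f.subgroupMap H).liftOfRightInverse_comp_apply _ (Function.rightInverse_surjInv hp)
        ⟨g, hker⟩ x
    refine h (H.map f) S g' ?_ hs hn hd
    intro s
    obtain ⟨x, rfl⟩ := hg s
    exact ⟨f.subgroupMap H x, hg' x⟩

end Pool.Agent.DPK
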